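import Mathlib

set_option autoImplicit false
set_option linter.unusedSectionVars false

namespace Pool.Agent.H1.Ample

open scoped IntermediateField.algebraAdjoinAdjoin
open scoped IntermediateField

section

variable {k Ω : Type*} [Field k] [Field Ω] [Algebra k Ω]

/-- the relative algebraic closure of an intermediate field -/
def acl (M : IntermediateField k Ω) : IntermediateField k Ω :=
  (algebraicClosure M Ω).restrictScalars k

theorem mem_acl {M : IntermediateField k Ω} {x : Ω} : x ∈ acl M ↔ IsAlgebraic M x := by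
  change x ∈ algebraicClosure M Ω ↔ _
  exact mem_algebraicClosure_iff

theorem le_acl (M : IntermediateField k Ω) : M ≤ acl M := fun x hx =>
  mem_acl.mpr (isAlgebraic_algebraMap (⟨x, hx⟩ : M))

theorem isAlgebraic_of_le {M N : IntermediateField k Ω} (h : M ≤ N) {x : Ω}
    (hx : IsAlgebraic M x) : IsAlgebraic N x := by
  let iMN : Algebra M N := (IntermediateField.inclusion h).toRingHom.toAlgebra
  have tow : IsScalarTower M N Ω := IsScalarTower.of_algebraMap_eq (fun _ => rfl)
  exact hx.tower_top (L := N)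

theorem acl_mono {M N : IntermediateField k Ω} (h : M ≤ N) : acl M ≤ acl N := fun _ hx =>
  mem_acl.mpr (isAlgebraic_of_le h (mem_acl.mp hx))

theorem mem_of_isAlgebraic_acl {M : IntermediateField k Ω} {x : Ω} (hx : IsAlgebraic (acl M) x) :
    x ∈ acl M := by
  rw [mem_acl]
  let iMN : Algebra M (acl M) := (IntermediateField.inclusion (le_acl M)).toRingHom.toAlgebra
  have tow : IsScalarTower M (acl M) Ω := IsScalarTower.of_algebraMap_eq (fun _ => rfl)
  have halg : Algebra.IsAlgebraic M (acl M) := ⟨fun y => by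
    have h1 : IsAlgebraic M ((algebraMap (acl M) Ω) y) := mem_acl.mp y.2
    exact (isAlgebraic_algebraMap_iff (Subtype.val_injective)).mp h1⟩
  exact IsAlgebraic.restrictScalars M hx

theorem acl_acl (M : IntermediateField k Ω) : acl (acl M) = acl M :=
  le_antisymm (fun _ hx => mem_of_isAlgebraic_acl (mem_acl.mp hx)) (le_acl _)

theorem acl_le_of_le {M N : IntermediateField k Ω} (h : M ≤ acl N) : acl M ≤ acl N := by
  have := acl_mono h
  rwa [acl_acl] at this

theorem acl_sup_acl (M N : IntermediateField k Ω) : acl (acl M ⊔ N) = acl (M ⊔ N) := by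
  apply le_antisymm
  · apply acl_le_of_le
    apply sup_le
    · exact acl_mono le_sup_left
    · exact le_sup_right.trans (le_acl _)
  · exact acl_mono (sup_le_sup_right (le_acl M) N)

theorem mem_matroid_closure {s : Set Ω} {x : Ω} :
    x ∈ (AlgebraicIndependent.matroid k Ω).closure s ↔ x ∈ acl (IntermediateField.adjoin k s) := by
  rw [AlgebraicIndependent.matroid_closure_eq, SetLike.mem_coe, Subalgebra.mem_algebraicClosure,
    mem_acl]
  exact IsFractionRing.isAlgebraic_iff (Algebra.adjoin k s) (IntermediateField.adjoin k s) Ω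

theorem mem_matroid_closure' {M : IntermediateField k Ω} {x : Ω} :
    x ∈ (AlgebraicIndependent.matroid k Ω).closure M ↔ x ∈ acl M := by
  rw [mem_matroid_closure, IntermediateField.adjoin_self]

theorem acl_sup_adjoin (M : IntermediateField k Ω) (S : Set Ω) :
    M ⊔ IntermediateField.adjoin k S = IntermediateField.adjoin k ((M : Set Ω) ∪ S) := by
  rw [IntermediateField.adjoin_union, IntermediateField.adjoin_self]

/-- exchange property -/
theorem exchange {M : IntermediateField k Ω} {x z : Ω} (h1 : x ∈ acl (M ⊔ k⟮z⟯))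
    (h2 : x ∉ acl M) : z ∈ acl (M ⊔ k⟮x⟯) := by
  rw [acl_sup_adjoin, Set.union_singleton, ← mem_matroid_closure] at h1 ⊢
  rw [← mem_matroid_closure'] at h2
  exact (Matroid.closure_exchange ⟨h1, h2⟩).1

/-- independence is symmetric -/
theorem indep_symm {M : IntermediateField k Ω} {a b : Ω} (ha : a ∉ acl M)
    (hb : b ∉ acl (M ⊔ k⟮a⟯)) : a ∉ acl (M ⊔ k⟮b⟯) := fun h => hb (exchange h ha)

/-- the intersection of the closures -/
theorem acl_inter {M : IntermediateField k Ω} {a b x : Ω} (ha : a ∉ acl M)
    (hb : b ∉ acl (M ⊔ k⟮a⟯)) (h1 : x ∈ acl (M ⊔ k⟮a⟯)) (h2 : x ∈ acl (M ⊔ k⟮b⟯)) :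
    x ∈ acl M := by
  by_contra hx
  have h3 : a ∈ acl (M ⊔ k⟮x⟯) := exchange h1 hx
  have h4 : acl (M ⊔ k⟮x⟯) ≤ acl (M ⊔ k⟮b⟯) := by
    apply acl_le_of_le
    apply sup_le (le_sup_left.trans (le_acl _))
    rw [IntermediateField.adjoin_simple_le_iff]
    exact h2
  exact indep_symm ha hb (h4 h3)

theorem transcendental_iff_notMem_acl {M : IntermediateField k Ω} {x : Ω} :
    Transcendental M x ↔ x ∉ acl M := by
  rw [mem_acl]; rfl

end

end Pool.Agent.H1.Ample
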