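import Mathlib

set_option autoImplicit false
set_option linter.unusedSectionVars false

namespace Pool.Agent.H1.Ample

open TensorProduct KaehlerDifferential

section Existence

variable {L Ω : Type*} [Field L] [Field Ω] [Algebra L Ω] [CharZero L]

theorem formallySmooth_of_charZero (M Ω : Type*) [Field M] [Field Ω] [Algebra M Ω] [CharZero M] :
    Algebra.FormallySmooth M Ω := by
  obtain ⟨s, hs⟩ := exists_isTranscendenceBasis M Ω
  have halg := hs.isAlgebraic_field
  have : Algebra.IsSeparable (IntermediateField.adjoin M (Set.range ((↑) : s → Ω))) Ω := by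
    infer_instance
  exact .of_algebraicIndependent_of_isSeparable hs.1

theorem exists_derivation {u : Ω} (hu : Transcendental L u) :
    ∃ δ : Derivation L Ω Ω, δ u = 1 := by
  classical
  let R := Polynomial L
  let iRΩ : Algebra R Ω := (Polynomial.aeval u).toRingHom.toAlgebra
  have hmap : ∀ p : R, algebraMap R Ω p = Polynomial.aeval u p := fun _ => rfl
  have hinj : Function.Injective (algebraMap R Ω) := by
    rw [injective_iff_map_eq_zero]
    intro p hp
    exact (transcendental_iff.mp hu) p (by rw [← hmap]; exact hp)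
  have tower : IsScalarTower L R Ω := IsScalarTower.of_algebraMap_eq (fun c => by
    rw [hmap]
    change _ = Polynomial.aeval u (algebraMap L (Polynomial L) c)
    rw [AlgHom.commutes])
  have : FaithfulSMul R Ω := (faithfulSMul_iff_algebraMap_injective R Ω).mpr hinj
  let M := FractionRing R
  let iMΩ : Algebra M Ω := FractionRing.liftAlgebra R Ω
  have : IsScalarTower R M Ω := FractionRing.isScalarTower_liftAlgebra R Ω
  have : CharZero M := charZero_of_injective_algebraMap (IsFractionRing.injective R M)
  have h1 : Algebra.FormallySmooth R M := .of_isLocalization (nonZeroDivisors R)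
  have h2 : Algebra.FormallySmooth M Ω := formallySmooth_of_charZero M Ω
  have h3 : Algebra.FormallySmooth R Ω := .comp R M Ω
  -- the differential of `u` is nonzero
  have hne : KaehlerDifferential.D L Ω u ≠ 0 := by
    intro h0
    have h4 : mapBaseChange L R Ω ((1 : Ω) ⊗ₜ (KaehlerDifferential.D L R Polynomial.X)) = 0 := by
      rw [mapBaseChange_tmul, one_smul, map_D]
      have : algebraMap R Ω Polynomial.X = u := by rw [hmap]; exact Polynomial.aeval_X u
      rw [this, h0]
    have h5 := (Algebra.H1Cotangent.exact_δ_mapBaseChange L R Ω _).mp h4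
    obtain ⟨x, hx⟩ := h5
    have hx0 : x = 0 := Subsingleton.elim _ _
    rw [hx0, map_zero] at hx
    -- apply the isomorphism with `Ω ⊗ R`
    have h6 := congrArg (LinearMap.lTensor Ω (KaehlerDifferential.polynomialEquiv L).toLinearMap) hx
    rw [map_zero] at h6
    erw [LinearMap.lTensor_tmul] at h6
    have h7 : (KaehlerDifferential.polynomialEquiv L) (KaehlerDifferential.D L R Polynomial.X)
        = (1 : R) := by
      rw [KaehlerDifferential.polynomialEquiv_D]; simp
    have h8 : (0 : Ω ⊗[R] R) = (1 : Ω) ⊗ₜ[R] (1 : R) := by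
      rw [h6]
      congr 1
    have h9 := congrArg (TensorProduct.rid R Ω) h8
    rw [map_zero, TensorProduct.rid_tmul, one_smul] at h9
    exact zero_ne_one h9
  -- a functional
  obtain ⟨φ, hφ⟩ : ∃ φ : Module.Dual Ω (Ω[Ω⁄L]), φ (KaehlerDifferential.D L Ω u) ≠ 0 := by
    by_contra hcon
    push Not at hcon
    exact hne ((Module.forall_dual_apply_eq_zero_iff Ω _).mp hcon)
  refine ⟨((φ (KaehlerDifferential.D L Ω u))⁻¹ • φ).compDer (KaehlerDifferential.D L Ω), ?_⟩
  change (φ (KaehlerDifferential.D L Ω u))⁻¹ • φ (KaehlerDifferential.D L Ω u) = 1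
  rw [smul_eq_mul, inv_mul_cancel₀ hφ]

end Existence

end Pool.Agent.H1.Ample
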