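import Mathlib

set_option autoImplicit false
set_option linter.unusedSectionVars false

namespace Pool.Agent.H1.Ample

section Local

variable {E : Type*} [Field E] [CharZero E]

theorem mem_of_sq_mem (O : Subring E) (hO : ∀ x : E, x ∈ O ∨ x⁻¹ ∈ O) {w : E}
    (h : w ^ 2 ∈ O) : w ∈ O := by
  rcases hO w with hw | hw
  · exact hw
  · by_cases h0 : w = 0
    · rw [h0]; exact O.zero_mem
    · have : w = w ^ 2 * w⁻¹ := by field_simp
      rw [this]
      exact O.mul_mem h hw

/-- Local form: `O` is a valuation ring stable under `δ`. -/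
theorem lemD_local (O : Subring E) (hO : ∀ x : E, x ∈ O ∨ x⁻¹ ∈ O)
    (δ : Derivation ℤ E E) (hδ : ∀ x ∈ O, δ x ∈ O) {m : ℕ} (hm : 2 ≤ m)
    (hmO : ((m : E))⁻¹ ∈ O) {x y : E} (h : x ^ (2 * m) + y ^ 2 = 1) (hy : y ≠ 0)
    {i : ℕ} (hi : i + 2 ≤ m) : x ^ i * (δ x / y) ∈ O := by
  have hm0 : (m : E) ≠ 0 := by
    have : m ≠ 0 := by omega
    exact_mod_cast this
  have h2 : (2 : E) ≠ 0 := by norm_num
  obtain ⟨m', rfl⟩ : ∃ m', m = m' + 1 := ⟨m - 1, by omega⟩
  set M : E := ((m' + 1 : ℕ) : E) with hM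
  -- differential relation
  have hd : M * (x ^ (2 * m' + 1) * δ x) = - (y * δ y) := by
    have h1 : δ (x ^ (2 * (m' + 1)) + y ^ 2) = 0 := by
      rw [h]; exact δ.map_one_eq_zero
    rw [map_add, Derivation.leibniz_pow, Derivation.leibniz_pow] at h1
    simp only [nsmul_eq_mul, smul_eq_mul] at h1
    have e1 : 2 * (m' + 1) - 1 = 2 * m' + 1 := by omega
    rw [e1] at h1
    push_cast at h1
    have h3 : (2 : E) * (M * (x ^ (2 * m' + 1) * δ x) + y * δ y) = 0 := by
      rw [hM]; push_cast; linear_combination h1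
    rcases mul_eq_zero.mp h3 with h4 | h4
    · exact absurd h4 h2
    · linear_combination h4
  rcases hO x with hx | hx
  · -- regular point
    have hyO : y ∈ O := by
      apply mem_of_sq_mem O hO
      have : y ^ 2 = 1 - x ^ (2 * (m' + 1)) := by linear_combination h
      rw [this]
      exact O.sub_mem O.one_mem (O.pow_mem hx _)
    have e : δ x / y = y * δ x - x * δ y * M⁻¹ := by
      field_simp
      -- M δx = y (M y δx - x δy)
      have h5 : x * (- (y * δ y)) = x * (M * (x ^ (2 * m' + 1) * δ x)) := by rw [hd]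
      have h6 : x ^ (2 * (m' + 1)) = x * x ^ (2 * m' + 1) := by ring
      rw [h6] at h
      linear_combination (-(M * δ x)) * h - h5
    rw [e]
    exact O.mul_mem (O.pow_mem hx _) (O.sub_mem (O.mul_mem hyO (hδ x hx))
      (O.mul_mem (O.mul_mem hx (hδ y hyO)) hmO))
  · -- pole
    by_cases hx0 : x = 0
    · -- then x⁻¹ = 0 but x ∈ O anyway
      have hxO : x ∈ O := by rw [hx0]; exact O.zero_mem
      have hδ0 : δ x = 0 := by rw [hx0]; exact map_zero δ
      rw [hδ0, zero_div, mul_zero]
      exact O.zero_mem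
    set u : E := x⁻¹ with hu
    have hu0 : u ≠ 0 := inv_ne_zero hx0
    have hxu : x = u⁻¹ := by rw [hu, inv_inv]
    set w : E := y * u ^ (m' + 1) with hw
    have hw0 : w ≠ 0 := mul_ne_zero hy (pow_ne_zero _ hu0)
    have hrel : u ^ (2 * (m' + 1)) - w ^ 2 = 1 := by
      have h7 : x ^ (2 * (m' + 1)) * u ^ (2 * (m' + 1)) = 1 := by
        rw [← mul_pow, hxu, inv_mul_cancel₀ hu0, one_pow]
      have h8 : w ^ 2 = y ^ 2 * u ^ (2 * (m' + 1)) := by rw [hw]; ring
      rw [h8]
      linear_combination (- u ^ (2 * (m' + 1))) * h + h7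
    have hwO : w ∈ O := by
      apply mem_of_sq_mem O hO
      have : w ^ 2 = u ^ (2 * (m' + 1)) - 1 := by linear_combination -hrel
      rw [this]
      exact O.sub_mem (O.pow_mem hx _) O.one_mem
    have hd' : M * (u ^ (2 * m' + 1) * δ u) = w * δ w := by
      have h1 : δ (u ^ (2 * (m' + 1)) - w ^ 2) = 0 := by
        rw [hrel]; exact δ.map_one_eq_zero
      rw [map_sub, Derivation.leibniz_pow, Derivation.leibniz_pow] at h1
      simp only [nsmul_eq_mul, smul_eq_mul] at h1
      have e1 : 2 * (m' + 1) - 1 = 2 * m' + 1 := by omega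
      rw [e1] at h1
      push_cast at h1
      have h3 : (2 : E) * (M * (u ^ (2 * m' + 1) * δ u) - w * δ w) = 0 := by
        rw [hM]; push_cast; linear_combination h1
      rcases mul_eq_zero.mp h3 with h4 | h4
      · exact absurd h4 h2
      · linear_combination h4
    have e : δ u / w = u * δ w * M⁻¹ - w * δ u := by
      field_simp
      have h6 : u ^ (2 * (m' + 1)) = u * u ^ (2 * m' + 1) := by ring
      rw [h6] at hrel
      linear_combination (-(M * δ u)) * hrel + u * hd'
    have hh : δ u / w ∈ O := by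
      rw [e]
      exact O.sub_mem (O.mul_mem (O.mul_mem hx (hδ w hwO)) hmO) (O.mul_mem hwO (hδ u hx))
    have hδx : δ x = - (δ u) / u ^ 2 := by
      rw [hxu, Derivation.leibniz_inv]
      simp only [smul_eq_mul]
      field_simp
    have hfin : x ^ i * (δ x / y) = - (u ^ (m' + 1 - 2 - i) * (δ u / w)) := by
      rw [hδx, hw, hxu]
      obtain ⟨j, hj⟩ : ∃ j, m' + 1 = j + 2 + i := ⟨m' + 1 - 2 - i, by omega⟩
      have e2 : m' + 1 - 2 - i = j := by omega
      have e3 : (u⁻¹) ^ i * u ^ i = 1 := by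
        rw [← mul_pow, inv_mul_cancel₀ hu0, one_pow]
      rw [e2, hj]
      field_simp
      have e4 : u ^ (j + 2 + i) = u ^ j * u ^ 2 * u ^ i := by ring
      rw [e4, one_div]
      linear_combination (-(δ u * u ^ j * u ^ 2)) * e3
    rw [hfin]
    exact O.neg_mem (O.mul_mem (O.pow_mem hx _) hh)

end Local

section Global

variable {B E : Type*} [CommRing B] [IsDedekindDomain B] [Field E] [CharZero E] [Algebra B E]
  [IsFractionRing B E]

/-- the local ring at a prime, as a subring of the fraction field -/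
def locSub (P : Ideal B) [P.IsPrime] : Subring E where
  carrier := {e | ∃ n s : B, s ∉ P ∧ e * algebraMap B E s = algebraMap B E n}
  mul_mem' := by
    rintro a b ⟨n, s, hs, h⟩ ⟨n', s', hs', h'⟩
    refine ⟨n * n', s * s', fun hh => ?_, ?_⟩
    · rcases (Ideal.IsPrime.mem_or_mem ‹_› hh) with h1 | h1
      · exact hs h1
      · exact hs' h1
    · rw [map_mul, map_mul, ← h, ← h']; ring
  one_mem' := ⟨1, 1, fun hh => (Ideal.IsPrime.ne_top ‹_›) ((Ideal.eq_top_iff_one _).mpr hh),
    by simp⟩
  add_mem' := by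
    rintro a b ⟨n, s, hs, h⟩ ⟨n', s', hs', h'⟩
    refine ⟨n * s' + n' * s, s * s', fun hh => ?_, ?_⟩
    · rcases (Ideal.IsPrime.mem_or_mem ‹_› hh) with h1 | h1
      · exact hs h1
      · exact hs' h1
    · rw [map_add, map_mul, map_mul, map_mul, ← h, ← h']; ring
  zero_mem' := ⟨0, 1, fun hh => (Ideal.IsPrime.ne_top ‹_›) ((Ideal.eq_top_iff_one _).mpr hh),
    by simp⟩
  neg_mem' := by
    rintro a ⟨n, s, hs, h⟩
    exact ⟨-n, s, hs, by rw [map_neg, ← h]; ring⟩

theorem locSub_valuation (P : Ideal B) [P.IsPrime] (x : E) :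
    x ∈ locSub (E := E) P ∨ x⁻¹ ∈ locSub (E := E) P := by
  obtain ⟨a, b, hb, rfl⟩ := IsFractionRing.div_surjective (A := B) x
  have hb0 : b ≠ 0 := nonZeroDivisors.ne_zero hb
  by_cases ha0 : a = 0
  · left; rw [ha0, map_zero, zero_div]; exact Subring.zero_mem _
  have haE : algebraMap B E a ≠ 0 := by rwa [Ne, IsFractionRing.to_map_eq_zero_iff]
  have hbE : algebraMap B E b ≠ 0 := by rwa [Ne, IsFractionRing.to_map_eq_zero_iff]
  -- `B_P` is a valuation ring
  have hval : ValuationRing (Localization.AtPrime P) := by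
    by_cases hP : P = ⊥
    · subst hP
      have : IsField (Localization.AtPrime (⊥ : Ideal B)) := by
        have h1 : (⊥ : Ideal B).primeCompl = nonZeroDivisors B := by
          ext z; simp [Ideal.primeCompl]
        have : IsFractionRing B (Localization.AtPrime (⊥ : Ideal B)) := by
          unfold IsFractionRing
          rw [← h1]
          infer_instance
        let := IsFractionRing.toField B (K := Localization.AtPrime (⊥ : Ideal B))
        exact Field.toIsField _
      let := this.toField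
      exact ValuationRing.of_field _
    · have := IsLocalization.AtPrime.isDiscreteValuationRing_of_dedekind_domain B hP
        (Localization.AtPrime P)
      infer_instance
  obtain ⟨c, hc⟩ := hval.cond' (algebraMap B (Localization.AtPrime P) a)
    (algebraMap B (Localization.AtPrime P) b)
  obtain ⟨⟨n, s⟩, hns⟩ := IsLocalization.surj P.primeCompl c
  have hs : (s : B) ∉ P := s.2
  have hinj : Function.Injective (algebraMap B (Localization.AtPrime P)) :=
    IsLocalization.injective _ P.primeCompl_le_nonZeroDivisors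
  rcases hc with hc | hc
  · right
    refine ⟨n, s, hs, ?_⟩
    have h1 : a * n = b * s := by
      apply hinj
      rw [map_mul, map_mul, ← hc, ← hns]; ring
    have h2 : algebraMap B E a * algebraMap B E n = algebraMap B E b * algebraMap B E s := by
      rw [← map_mul, h1, map_mul]
    field_simp
    linear_combination -h2
  · left
    refine ⟨n, s, hs, ?_⟩
    have h1 : b * n = a * s := by
      apply hinj
      rw [map_mul, map_mul, ← hc, ← hns]; ring
    have h2 : algebraMap B E b * algebraMap B E n = algebraMap B E a * algebraMap B E s := by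
      rw [← map_mul, h1, map_mul]
    field_simp
    linear_combination -h2

theorem locSub_stable (P : Ideal B) [P.IsPrime] (δ : Derivation ℤ E E)
    (hδ : ∀ b : B, ∃ b' : B, algebraMap B E b' = δ (algebraMap B E b)) (x : E)
    (hx : x ∈ locSub (E := E) P) : δ x ∈ locSub (E := E) P := by
  obtain ⟨n, s, hs, h⟩ := hx
  obtain ⟨n', hn'⟩ := hδ n
  obtain ⟨s', hs'⟩ := hδ s
  have h1 : δ (x * algebraMap B E s) = δ (algebraMap B E n) := by rw [h]
  rw [Derivation.leibniz, smul_eq_mul, smul_eq_mul, ← hn', ← hs'] at h1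
  refine ⟨n' * s - n * s', s * s, fun hh => ?_, ?_⟩
  · rcases (Ideal.IsPrime.mem_or_mem ‹_› hh) with h1 | h1 <;> exact hs h1
  · rw [map_sub, map_mul, map_mul, map_mul, ← h, ← h1]; ring

theorem mem_range_of_forall_locSub (x : E)
    (h : ∀ (P : Ideal B) [P.IsMaximal], x ∈ locSub (E := E) P) :
    ∃ b : B, algebraMap B E b = x := by
  let I : Ideal B :=
    { carrier := {s | ∃ n : B, x * algebraMap B E s = algebraMap B E n}
      add_mem' := by
        rintro a b ⟨n, hn⟩ ⟨n', hn'⟩
        exact ⟨n + n', by rw [map_add, map_add, mul_add, hn, hn']⟩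
      zero_mem' := ⟨0, by simp⟩
      smul_mem' := by
        rintro c a ⟨n, hn⟩
        exact ⟨c * n, by rw [smul_eq_mul, map_mul, map_mul, ← hn]; ring⟩ }
  by_cases hI : I = ⊤
  · have : (1 : B) ∈ I := by rw [hI]; trivial
    obtain ⟨n, hn⟩ := this
    exact ⟨n, by rw [← hn]; simp⟩
  · obtain ⟨P, hP, hle⟩ := Ideal.exists_le_maximal I hI
    obtain ⟨n, s, hs, hn⟩ := h P
    exact absurd (hle ⟨n, hn⟩) hs

/-- Global form of Lemma D. -/
theorem lemD_global (hQ : ∀ n : ℕ, n ≠ 0 → ∃ b : B, algebraMap B E b = (n : E)⁻¹)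
    (δ : Derivation ℤ E E) (hδ : ∀ b : B, ∃ b' : B, algebraMap B E b' = δ (algebraMap B E b))
    {m : ℕ} (hm : 2 ≤ m) {x y : E} (h : x ^ (2 * m) + y ^ 2 = 1) (hy : y ≠ 0)
    {i : ℕ} (hi : i + 2 ≤ m) : ∃ b : B, algebraMap B E b = x ^ i * (δ x / y) := by
  apply mem_range_of_forall_locSub
  intro P hP
  apply lemD_local _ (locSub_valuation P) δ (locSub_stable P δ hδ) hm _ h hy hi
  obtain ⟨b, hb⟩ := hQ m (by omega)
  exact ⟨b, 1, fun hh => hP.ne_top ((Ideal.eq_top_iff_one _).mpr hh), by rw [hb]; simp⟩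

end Global

end Pool.Agent.H1.Ample
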