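import Mathlib

set_option autoImplicit false
set_option linter.unusedSectionVars false

namespace Pool.Agent.H1.Ample

open PowerSeries

section Exp

variable {E : Type*} [Field E] [CharZero E] (δ : Derivation ℤ E E)

/-- coefficients of `exp (T δ)` -/
noncomputable def expC (n : ℕ) (a : E) : E := ((n.factorial : E)⁻¹) * (δ^[n] a)

theorem expC_zero (a : E) : expC δ 0 a = a := by simp [expC]

theorem expC_succ (n : ℕ) (a : E) : expC δ (n + 1) a * ((n : E) + 1) = expC δ n (δ a) := by
  have h1 : ((n : E) + 1) ≠ 0 := by exact_mod_cast Nat.succ_ne_zero n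
  have h2 : ((n.factorial : ℕ) : E) ≠ 0 := by exact_mod_cast Nat.factorial_ne_zero n
  simp only [expC, Nat.factorial_succ, Function.iterate_succ, Function.comp_apply]
  push_cast
  field_simp

theorem expC_add (n : ℕ) (a b : E) : expC δ n (a + b) = expC δ n a + expC δ n b := by
  have : δ^[n] (a + b) = δ^[n] a + δ^[n] b := by
    induction n generalizing a b with
    | zero => rfl
    | succ n ih => simp only [Function.iterate_succ, Function.comp_apply, map_add, ih]
  simp only [expC, this, mul_add]

/-- the power series `exp (T δ) a` -/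
noncomputable def expS (a : E) : PowerSeries E := PowerSeries.mk fun n => expC δ n a

theorem coeff_expS (n : ℕ) (a : E) : PowerSeries.coeff n (expS δ a) = expC δ n a := by
  simp [expS]

theorem deriv_expS (a : E) : PowerSeries.derivative E (expS δ a) = expS δ (δ a) := by
  ext n
  rw [PowerSeries.coeff_derivative, coeff_expS, coeff_expS, expC_succ]

theorem expS_add (a b : E) : expS δ (a + b) = expS δ a + expS δ b := by
  ext n; simp [coeff_expS, expC_add]

theorem expS_mul (a b : E) : expS δ (a * b) = expS δ a * expS δ b := by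
  ext n
  induction n generalizing a b with
  | zero =>
    rw [PowerSeries.coeff_zero_eq_constantCoeff, map_mul]
    simp only [← PowerSeries.coeff_zero_eq_constantCoeff, coeff_expS, expC_zero]
  | succ n ih =>
    have h1 : ((n : E) + 1) ≠ 0 := by exact_mod_cast Nat.succ_ne_zero n
    apply mul_right_cancel₀ h1
    rw [← PowerSeries.coeff_derivative, ← PowerSeries.coeff_derivative, deriv_expS,
      Derivation.leibniz, Derivation.leibniz, expS_add, smul_eq_mul, smul_eq_mul, smul_eq_mul,
      smul_eq_mul, deriv_expS, deriv_expS, map_add, map_add, ih, ih]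

theorem expS_one : expS δ 1 = 1 := by
  ext n
  rw [coeff_expS, PowerSeries.coeff_one]
  cases n with
  | zero => simp [expC]
  | succ n =>
    have h1 : ((n : E) + 1) ≠ 0 := by exact_mod_cast Nat.succ_ne_zero n
    apply mul_right_cancel₀ h1
    rw [expC_succ]
    simp [expC, Function.iterate_fixed]

theorem expS_zero : expS δ 0 = 0 := by
  ext n
  simp [coeff_expS, expC, Function.iterate_fixed]

/-- the ring homomorphism `exp (T δ)` -/
noncomputable def expHom : E →+* PowerSeries E where
  toFun := expS δ
  map_one' := expS_one δ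
  map_mul' := expS_mul δ
  map_zero' := expS_zero δ
  map_add' := expS_add δ

end Exp

section Seidenberg

variable {R E : Type*} [CommRing R] [IsDomain R] [Field E] [CharZero E] [Algebra R E]
  [IsFractionRing R E]

theorem exists_common_denominator {α : E} (hα : IsIntegral R α) :
    ∃ c : R, c ≠ 0 ∧ ∀ j : ℕ, ∃ r : R, algebraMap R E r = algebraMap R E c * α ^ j := by
  obtain ⟨c, hc, h⟩ := FractionalIdeal.isFractional_adjoin_integral (nonZeroDivisors R) α hα
  refine ⟨c, nonZeroDivisors.ne_zero hc, fun j => ?_⟩
  obtain ⟨r, hr⟩ := h (α ^ j) (Subalgebra.pow_mem _ (Algebra.self_mem_adjoin_singleton R α) j)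
  exact ⟨r, by rw [hr, Algebra.smul_def]⟩

/-- If the powers of `β` have a common denominator over a noetherian domain, `β` is integral. -/
theorem isIntegral_of_common_denominator [IsNoetherianRing R] {β : E} {c : R} (hc : c ≠ 0)
    (h : ∀ j : ℕ, ∃ r : R, algebraMap R E r = algebraMap R E c * β ^ j) : IsIntegral R β := by
  have hcE : algebraMap R E c ≠ 0 := by
    rwa [Ne, IsFractionRing.to_map_eq_zero_iff]
  -- the module `c⁻¹ R`
  let N : Submodule R E := Submodule.span R {(algebraMap R E c)⁻¹}
  have hN : N.FG := Submodule.fg_span_singleton _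
  have hle : Subalgebra.toSubmodule (Algebra.adjoin R {β}) ≤ N := by
    rw [Algebra.adjoin_singleton_eq_range_aeval]
    rintro _ ⟨p, rfl⟩
    rw [Submodule.mem_span_singleton]
    change ∃ a : R, a • (algebraMap R E c)⁻¹ = Polynomial.aeval β p
    induction p using Polynomial.induction_on' with
    | add p q hp hq =>
      obtain ⟨a, ha⟩ := hp
      obtain ⟨b, hb⟩ := hq
      exact ⟨a + b, by rw [add_smul, ha, hb, map_add]⟩
    | monomial n a =>
      obtain ⟨r, hr⟩ := h n
      refine ⟨a * r, ?_⟩
      rw [Polynomial.aeval_monomial, Algebra.smul_def, map_mul, hr]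
      field_simp
  have : IsNoetherian R N := isNoetherian_of_fg_of_noetherian N hN
  have hfg : (Subalgebra.toSubmodule (Algebra.adjoin R {β})).FG := by
    have h2 : (Submodule.comap N.subtype (Subalgebra.toSubmodule (Algebra.adjoin R {β}))).FG :=
      IsNoetherian.noetherian _
    have h3 := h2.map N.subtype
    rwa [Submodule.map_comap_subtype, inf_eq_right.mpr hle] at h3
  exact IsIntegral.of_mem_of_fg (Algebra.adjoin R {β}) hfg β (Algebra.self_mem_adjoin_singleton R β)

/-- **Seidenberg**: a derivation of the fraction field (characteristic zero) preserving a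
noetherian domain preserves its integral closure. -/
theorem seidenberg [IsNoetherianRing R] (hQ : ∀ n : ℕ, n ≠ 0 → ∃ r : R, algebraMap R E r = (n : E)⁻¹)
    (δ : Derivation ℤ E E) (hδ : ∀ r : R, ∃ s : R, algebraMap R E s = δ (algebraMap R E r))
    {α : E} (hα : IsIntegral R α) : IsIntegral R (δ α) := by
  obtain ⟨c, hc, h⟩ := exists_common_denominator hα
  -- coefficients of exp on R
  have hcoef : ∀ n (r : R), ∃ s : R, algebraMap R E s = expC δ n (algebraMap R E r) := by
    intro n r
    have h1 : ∃ s : R, algebraMap R E s = δ^[n] (algebraMap R E r) := by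
      induction n generalizing r with
      | zero => exact ⟨r, rfl⟩
      | succ n ih =>
        obtain ⟨s, hs⟩ := hδ r
        obtain ⟨s', hs'⟩ := ih s
        exact ⟨s', by rw [hs', hs]; rfl⟩
    obtain ⟨s, hs⟩ := h1
    obtain ⟨q, hq⟩ := hQ n.factorial (Nat.factorial_ne_zero n)
    exact ⟨q * s, by rw [map_mul, hq, hs]; rfl⟩
  apply isIntegral_of_common_denominator (c := c * c) (mul_ne_zero hc hc)
  intro j
  set φ := expHom δ with hφ
  -- the power series identity
  have key : PowerSeries.coeff j (PowerSeries.C (algebraMap R E c) * φ (algebraMap R E c) *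
      (φ α + (- PowerSeries.C α)) ^ j) = algebraMap R E (c * c) * (δ α) ^ j := by
    have hX : ∃ ψ : PowerSeries E, φ α + (- PowerSeries.C α) = PowerSeries.X * ψ ∧
        PowerSeries.coeff 0 ψ = δ α := by
      have h0 : PowerSeries.constantCoeff (φ α + (- PowerSeries.C α)) = 0 := by
        rw [map_add, map_neg, PowerSeries.constantCoeff_C, ← PowerSeries.coeff_zero_eq_constantCoeff_apply]
        change PowerSeries.coeff 0 (expS δ α) + -α = 0
        rw [coeff_expS, expC_zero]; ring
      obtain ⟨ψ, hψ⟩ := PowerSeries.X_dvd_iff.mpr h0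
      refine ⟨ψ, hψ, ?_⟩
      have h1 : PowerSeries.coeff 1 (φ α + (- PowerSeries.C α)) = δ α := by
        rw [map_add, map_neg]
        change PowerSeries.coeff 1 (expS δ α) + -PowerSeries.coeff 1 (PowerSeries.C α) = δ α
        rw [coeff_expS, PowerSeries.coeff_C]
        simp [expC]
      rw [hψ] at h1
      rwa [show (1 : ℕ) = 0 + 1 from rfl, PowerSeries.coeff_succ_X_mul] at h1
    obtain ⟨ψ, hψ, hψ0⟩ := hX
    rw [hψ, mul_pow]
    have : PowerSeries.C (algebraMap R E c) * φ (algebraMap R E c) * (PowerSeries.X ^ j * ψ ^ j) =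
        PowerSeries.X ^ j * (PowerSeries.C (algebraMap R E c) * φ (algebraMap R E c) * ψ ^ j) := by
      ring
    rw [this, PowerSeries.coeff_X_pow_mul', if_pos le_rfl, Nat.sub_self]
    rw [PowerSeries.coeff_zero_eq_constantCoeff_apply, map_mul, map_mul, map_pow,
      PowerSeries.constantCoeff_C, ← PowerSeries.coeff_zero_eq_constantCoeff_apply,
      ← PowerSeries.coeff_zero_eq_constantCoeff_apply, hψ0]
    change algebraMap R E c * PowerSeries.coeff 0 (expS δ (algebraMap R E c)) * δ α ^ j = _
    rw [coeff_expS, expC_zero, map_mul]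
  rw [← key, add_pow, Finset.mul_sum, map_sum]
  -- each summand has coefficient in R
  have hterm : ∀ i ∈ Finset.range (j + 1), ∃ r : R, algebraMap R E r =
      PowerSeries.coeff j (PowerSeries.C (algebraMap R E c) * φ (algebraMap R E c) *
        ((φ α) ^ i * (- PowerSeries.C α) ^ (j - i) * ((j.choose i : ℕ) : PowerSeries E))) := by
    intro i _
    obtain ⟨r1, hr1⟩ := h i
    obtain ⟨r2, hr2⟩ := h (j - i)
    obtain ⟨s, hs⟩ := hcoef j r1
    refine ⟨r2 * s * (-1) ^ (j - i) * (j.choose i : R), ?_⟩
    have e1 : PowerSeries.C (algebraMap R E c) * φ (algebraMap R E c) *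
        ((φ α) ^ i * (- PowerSeries.C α) ^ (j - i) * ((j.choose i : ℕ) : PowerSeries E)) =
        PowerSeries.C (algebraMap R E r2 * (-1) ^ (j - i) * (j.choose i : E)) *
          φ (algebraMap R E r1) := by
      rw [hr1, hr2]
      simp only [map_mul, map_pow, map_neg, map_one, map_natCast]
      rw [neg_pow]
      ring
    rw [e1, PowerSeries.coeff_C_mul]
    change _ = _ * PowerSeries.coeff j (expS δ (algebraMap R E r1))
    rw [coeff_expS, ← hs]
    simp only [map_mul, map_pow, map_neg, map_one, map_natCast]
    ring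
  choose! f hf using hterm
  exact ⟨∑ i ∈ Finset.range (j + 1), f i, by rw [map_sum]; exact Finset.sum_congr rfl hf⟩

end Seidenberg

end Pool.Agent.H1.Ample
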