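import Mathlib
import Pool.Agent.H1.Ample.Seidenberg
import Pool.Agent.H1.Ample.LemmaD
import Pool.Agent.H1.Ample.Deriv

set_option autoImplicit false
set_option linter.unusedSectionVars false

namespace Pool.Agent.H1.Ample

open scoped IntermediateField.algebraAdjoinAdjoin
open scoped IntermediateField

section Basic

variable {k E : Type*} [Field k] [Field E] [Algebra k E]

theorem isFractionRing_adjoin (S : Set E) (h : IntermediateField.adjoin k S = ⊤) :
    IsFractionRing (Algebra.adjoin k S) E := by
  let e : (IntermediateField.adjoin k S) ≃ₐ[Algebra.adjoin k S] E :=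
    AlgEquiv.ofBijective
      { toFun := fun x => (x : E)
        map_one' := rfl
        map_mul' := fun _ _ => rfl
        map_zero' := rfl
        map_add' := fun _ _ => rfl
        commutes' := fun _ => rfl }
      ⟨Subtype.val_injective, fun x => ⟨⟨x, by rw [h]; trivial⟩, rfl⟩⟩
  exact IsLocalization.isLocalization_of_algEquiv _ e

theorem isPrincipalIdealRing_adjoin_singleton (z : E) :
    IsPrincipalIdealRing (Algebra.adjoin k {z}) := by
  have hs : Function.Surjective
      ((Polynomial.aeval z : Polynomial k →ₐ[k] E).codRestrict (Algebra.adjoin k {z})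
        (fun p => by
          rw [Algebra.adjoin_singleton_eq_range_aeval]
          exact ⟨p, rfl⟩)) := by
    rintro ⟨x, hx⟩
    rw [Algebra.adjoin_singleton_eq_range_aeval] at hx
    obtain ⟨p, hp⟩ := hx
    exact ⟨p, Subtype.ext hp⟩
  exact IsPrincipalIdealRing.of_surjective _ hs

theorem adjoin_pair_eq_top {z w : E} (h : IntermediateField.adjoin k {z, w} = ⊤) :
    IntermediateField.adjoin k⟮z⟯ {w} = ⊤ := by
  have h1 : (IntermediateField.adjoin k⟮z⟯ {w}).restrictScalars k = ⊤ := by
    rw [IntermediateField.adjoin_adjoin_left]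
    rw [← h]
    congr 1
  rw [← IntermediateField.restrictScalars_eq_top_iff (K := k)]
  exact h1

theorem finiteDimensional_of_integral {z w : E} (hw : IsIntegral (Algebra.adjoin k {z}) w)
    (h : IntermediateField.adjoin k {z, w} = ⊤) : FiniteDimensional k⟮z⟯ E := by
  have hw' : IsIntegral k⟮z⟯ w := hw.tower_top
  have h1 := IntermediateField.adjoin.finiteDimensional hw'
  rw [adjoin_pair_eq_top h] at h1
  exact LinearEquiv.finiteDimensional
    (IntermediateField.topEquiv (F := k⟮z⟯) (E := E)).toLinearEquiv

/-- the derivation preserves `k[S]` as soon as it preserves `k` and generators -/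
theorem stable_adjoin {S : Set E} (δ : Derivation ℤ E E)
    (hk : ∀ c : k, δ (algebraMap k E c) ∈ Algebra.adjoin k S)
    (hS : ∀ s ∈ S, δ s ∈ Algebra.adjoin k S) {x : E} (hx : x ∈ Algebra.adjoin k S) :
    δ x ∈ Algebra.adjoin k S := by
  induction hx using Algebra.adjoin_induction with
  | mem x hx => exact hS x hx
  | algebraMap r => exact hk r
  | add x y _ _ hx hy => rw [map_add]; exact add_mem hx hy
  | mul x y hxm hym hx hy =>
    rw [Derivation.leibniz, smul_eq_mul, smul_eq_mul]
    exact add_mem (mul_mem hxm hy) (mul_mem hym hx)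

end Basic

section DG

variable {k E : Type*} [Field k] [Field E] [Algebra k E] [CharZero k]

/-- If `δ` preserves `k[z, w]` with `w` integral over `k[z]` and `E = k(z,w)`, then
`x ^ i * δ x / y` is integral over `k[z]` for every point `(x,y)` of `x^(2m) + y^2 = 1`. -/
theorem lemDG {z w : E} (hz : Transcendental k z)
    (hw : IsIntegral (Algebra.adjoin k {z}) w)
    (htop : IntermediateField.adjoin k {z, w} = ⊤) (δ : Derivation ℤ E E)
    (hk : ∀ c : k, δ (algebraMap k E c) ∈ Algebra.adjoin k {z, w})
    (hδz : δ z ∈ Algebra.adjoin k {z, w}) (hδw : δ w ∈ Algebra.adjoin k {z, w})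
    {m : ℕ} (hm : 2 ≤ m) {x y : E} (h : x ^ (2 * m) + y ^ 2 = 1) (hy : y ≠ 0)
    {i : ℕ} (hi : i + 2 ≤ m) : IsIntegral (Algebra.adjoin k {z}) (x ^ i * (δ x / y)) := by
  have : CharZero E := charZero_of_injective_algebraMap (algebraMap k E).injective
  set A := Algebra.adjoin k {z} with hA
  set R := Algebra.adjoin k {z, w} with hR
  have hAR : A ≤ R := Algebra.adjoin_mono (by simp)
  -- integrality over `R` equals integrality over `A`
  have hRA : ∀ r : R, IsIntegral A (r : E) := by
    rintro ⟨r, hr⟩
    change IsIntegral A r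
    induction hr using Algebra.adjoin_induction with
    | mem x hx =>
      rcases hx with rfl | hx
      · exact isIntegral_algebraMap (x := (⟨x, Algebra.self_mem_adjoin_singleton k x⟩ : A))
      · rw [Set.mem_singleton_iff] at hx; rw [hx]; exact hw
    | algebraMap r => exact isIntegral_algebraMap (x := (algebraMap k A r))
    | add x y _ _ hx hy => exact hx.add hy
    | mul x y _ _ hx hy => exact hx.mul hy
  have hint : ∀ a : E, IsIntegral R a → IsIntegral A a := by
    intro a ha
    let iAR : Algebra A R := (Subalgebra.inclusion hAR).toRingHom.toAlgebra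
    have tow : IsScalarTower A R E := IsScalarTower.of_algebraMap_eq (fun _ => rfl)
    have hint' : Algebra.IsIntegral A R := ⟨fun r => by
      rw [← isIntegral_algebraMap_iff (B := E) (Subtype.val_injective : Function.Injective (algebraMap R E))]
      exact hRA r⟩
    exact isIntegral_trans a ha
  -- noetherian, fraction ring
  have hRft : Algebra.FiniteType k R := Algebra.FiniteType.adjoin_of_finite (by simp)
  have hRno : IsNoetherianRing R := Algebra.FiniteType.isNoetherianRing k R
  have hRfr : IsFractionRing R E := isFractionRing_adjoin _ htop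
  have hQk : ∀ n : ℕ, n ≠ 0 → algebraMap k E ((n : k)⁻¹) = (n : E)⁻¹ := by
    intro n _; rw [map_inv₀, map_natCast]
  have hstab : ∀ r : R, ∃ s : R, algebraMap R E s = δ (algebraMap R E r) := by
    rintro ⟨r, hr⟩
    exact ⟨⟨δ r, stable_adjoin δ hk (by
      rintro s (rfl | hs)
      · exact hδz
      · rw [Set.mem_singleton_iff] at hs; rw [hs]; exact hδw) hr⟩, rfl⟩
  -- Dedekind
  have hfd : FiniteDimensional k⟮z⟯ E := finiteDimensional_of_integral hw htop
  have : IsPrincipalIdealRing A := isPrincipalIdealRing_adjoin_singleton z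
  have : CharZero k⟮z⟯ := charZero_of_injective_algebraMap (algebraMap k k⟮z⟯).injective
  have hded : IsDedekindDomain (integralClosure A E) :=
    integralClosure.isDedekindDomain A k⟮z⟯ E
  have hfr : IsFractionRing (integralClosure A E) E :=
    integralClosure.isFractionRing_of_finite_extension k⟮z⟯ E
  have hstab' : ∀ b : integralClosure A E, ∃ b' : integralClosure A E,
      algebraMap (integralClosure A E) E b' = δ (algebraMap (integralClosure A E) E b) := by
    rintro ⟨b, hb⟩
    have hb1 : IsIntegral R b := by
      let iAR : Algebra A R := (Subalgebra.inclusion hAR).toRingHom.toAlgebra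
      have tow : IsScalarTower A R E := IsScalarTower.of_algebraMap_eq (fun _ => rfl)
      exact IsIntegral.tower_top (R := A) hb
    have hb2 : IsIntegral R (δ b) := seidenberg
      (fun n hn => ⟨algebraMap k R ((n : k)⁻¹), hQk n hn⟩) δ hstab hb1
    exact ⟨⟨δ b, hint _ hb2⟩, rfl⟩
  obtain ⟨b, hb⟩ := lemD_global (B := integralClosure A E) (E := E)
    (fun n hn => ⟨⟨(n : E)⁻¹, by
      rw [← hQk n hn]
      exact isIntegral_algebraMap (x := (algebraMap k A ((n : k)⁻¹)))⟩, rfl⟩)
    δ hstab' hm h hy hi
  rw [← hb]
  exact b.2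

end DG

end Pool.Agent.H1.Ample
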