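import Mathlib
import Pool.Agent.H1.Ample.Core

set_option autoImplicit false
set_option linter.unusedSectionVars false

namespace Pool.Agent.H1.Ample

open scoped IntermediateField.algebraAdjoinAdjoin
open scoped IntermediateField

variable {k E : Type*} [Field k] [Field E] [Algebra k E]

theorem mem_adjoin_of_integral {z t : E} (ht : t ∈ k⟮z⟯)
    (hint : IsIntegral (Algebra.adjoin k {z}) t) : t ∈ Algebra.adjoin k {z} := by
  have : IsPrincipalIdealRing (Algebra.adjoin k {z}) := isPrincipalIdealRing_adjoin_singleton z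
  have h1 : IsIntegral (Algebra.adjoin k {z}) (⟨t, ht⟩ : k⟮z⟯) := by
    rw [← isIntegral_algebraMap_iff (B := E)
      (Subtype.val_injective : Function.Injective (algebraMap k⟮z⟯ E))]
    exact hint
  obtain ⟨y, hy⟩ := IsIntegrallyClosed.algebraMap_eq_of_integral h1
  have h2 : (y : E) = t := congrArg (fun u : k⟮z⟯ => (u : E)) hy
  rw [← h2]
  exact y.2

theorem adjoin_inv_eq (z : E) : k⟮z⁻¹⟯ = k⟮z⟯ := by
  apply le_antisymm
  · rw [IntermediateField.adjoin_simple_le_iff]
    exact inv_mem (IntermediateField.mem_adjoin_simple_self k z)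
  · rw [IntermediateField.adjoin_simple_le_iff]
    have h := inv_mem (IntermediateField.mem_adjoin_simple_self k z⁻¹)
    rwa [inv_inv] at h

theorem mem_span_of_integral {z t : E} (hz : Transcendental k z) (N : ℕ) (ht : t ∈ k⟮z⟯)
    (h1 : IsIntegral (Algebra.adjoin k {z}) t)
    (h2 : IsIntegral (Algebra.adjoin k {z⁻¹}) ((z⁻¹) ^ N * t)) :
    t ∈ Submodule.span k (Set.range fun i : Fin (N + 1) => z ^ (i : ℕ)) := by
  have hz0 : z ≠ 0 := by
    rintro rfl
    exact hz (isAlgebraic_zero)
  have h1' := mem_adjoin_of_integral ht h1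
  have h2' : (z⁻¹) ^ N * t ∈ Algebra.adjoin k {z⁻¹} := by
    apply mem_adjoin_of_integral _ h2
    rw [adjoin_inv_eq]
    exact mul_mem (pow_mem (inv_mem (IntermediateField.mem_adjoin_simple_self k z)) _) ht
  rw [Algebra.adjoin_singleton_eq_range_aeval] at h1' h2'
  obtain ⟨p, hp⟩ := h1'
  obtain ⟨q, hq⟩ := h2'
  change Polynomial.aeval z p = t at hp
  change Polynomial.aeval z⁻¹ q = (z⁻¹) ^ N * t at hq
  -- reverse
  have hrev : Polynomial.aeval z (Polynomial.reverse q) = z ^ q.natDegree * Polynomial.aeval z⁻¹ q := by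
    let _ : Invertible (z⁻¹) := invertibleOfNonzero (inv_ne_zero hz0)
    have h3 := Polynomial.eval₂_reverse_mul_pow (algebraMap k E) (z⁻¹) q
    rw [invOf_eq_inv, inv_inv] at h3
    rw [Polynomial.aeval_def, Polynomial.aeval_def, ← h3]
    have h4 : z ^ q.natDegree * (z⁻¹) ^ q.natDegree = 1 := by
      rw [← mul_pow, mul_inv_cancel₀ hz0, one_pow]
    linear_combination (-(Polynomial.eval₂ (algebraMap k E) z q.reverse)) * h4
  have hpoly : Polynomial.X ^ q.natDegree * p = Polynomial.X ^ N * Polynomial.reverse q := by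
    have hinj : Function.Injective (Polynomial.aeval z : Polynomial k →ₐ[k] E) :=
      transcendental_iff_injective.mp hz
    apply hinj
    rw [map_mul, map_mul, map_pow, map_pow, Polynomial.aeval_X, hp, hrev, hq]
    have h4 : z ^ N * (z⁻¹) ^ N = 1 := by
      rw [← mul_pow, mul_inv_cancel₀ hz0, one_pow]
    linear_combination (-(z ^ q.natDegree * t)) * h4
  have hdeg : p.natDegree ≤ N := by
    by_cases hp0 : p = 0
    · rw [hp0]; simp
    have h5 : (Polynomial.X ^ q.natDegree * p).natDegree = q.natDegree + p.natDegree := by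
      rw [Polynomial.natDegree_mul (pow_ne_zero _ Polynomial.X_ne_zero) hp0,
        Polynomial.natDegree_X_pow]
    have h6 : (Polynomial.X ^ N * Polynomial.reverse q).natDegree ≤ N + q.natDegree := by
      refine (Polynomial.natDegree_mul_le).trans ?_
      rw [Polynomial.natDegree_X_pow]
      exact Nat.add_le_add_left (Polynomial.reverse_natDegree_le q) N
    rw [hpoly] at h5
    omega
  rw [← hp, Polynomial.aeval_eq_sum_range' (n := N + 1) (by omega)]
  apply Submodule.sum_mem
  intro i hi
  apply Submodule.smul_mem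
  apply Submodule.subset_span
  exact ⟨⟨i, Finset.mem_range.mp hi⟩, rfl⟩

variable [CharZero k]

/-- Finite-dimensionality of spaces of functions with bounded poles. -/
theorem lemFD {z : E} (hz : Transcendental k z) [FiniteDimensional k⟮z⟯ E] {d M n c : ℕ}
    (w : Fin d → E) (hspan : Submodule.span k⟮z⟯ (Set.range w) = ⊤)
    (hw1 : ∀ j, IsIntegral (Algebra.adjoin k {z}) (w j))
    (hw2 : ∀ j, IsIntegral (Algebra.adjoin k {z⁻¹}) ((z⁻¹) ^ c * w j))
    (g : Fin M → E) (hg : LinearIndependent k g)
    (hg1 : ∀ i, IsIntegral (Algebra.adjoin k {z}) (g i))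
    (hg2 : ∀ i, IsIntegral (Algebra.adjoin k {z⁻¹}) ((z⁻¹) ^ n * g i)) :
    M ≤ d * (n + c + 1) := by
  have : CharZero E := charZero_of_injective_algebraMap (algebraMap k E).injective
  have : CharZero k⟮z⟯ := charZero_of_injective_algebraMap (algebraMap k k⟮z⟯).injective
  have hz0 : z ≠ 0 := by
    rintro rfl
    exact hz (isAlgebraic_zero)
  let zg : k⟮z⟯ := ⟨z, IntermediateField.mem_adjoin_simple_self k z⟩
  let P : Submodule k E := Submodule.span k (Set.range fun i : Fin (n + c + 1) => z ^ (i : ℕ))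
  have hP : Module.finrank k P ≤ n + c + 1 := by
    have := finrank_range_le_card (R := k) (fun i : Fin (n + c + 1) => z ^ (i : ℕ))
    simpa [Set.finrank] using this
  have hPfin : Module.Finite k P := Module.Finite.span_of_finite k (Set.finite_range _)
  -- the trace map
  let T : E →ₗ[k] (Fin d → E) :=
    { toFun := fun g j => ((Algebra.trace k⟮z⟯ E (g * w j) : k⟮z⟯) : E)
      map_add' := fun a b => by
        funext j
        simp only [add_mul, map_add, Pi.add_apply]
        rfl
      map_smul' := fun a b => by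
        funext j
        simp only [Algebra.smul_mul_assoc, Pi.smul_apply, RingHom.id_apply]
        have : a • (b * w j) = (algebraMap k k⟮z⟯ a) • (b * w j) := by
          rw [algebraMap_smul]
        rw [this, map_smul, smul_eq_mul]
        rw [Algebra.smul_def]
        rfl }
  have hTinj : Function.Injective T := by
    rw [injective_iff_map_eq_zero]
    intro a ha
    have h1 : ∀ b : E, Algebra.trace k⟮z⟯ E (a * b) = 0 := by
      intro b
      have hb : b ∈ Submodule.span k⟮z⟯ (Set.range w) := by rw [hspan]; trivial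
      induction hb using Submodule.span_induction with
      | mem x hx =>
        obtain ⟨j, rfl⟩ := hx
        have := congrFun ha j
        exact Subtype.ext this
      | zero => rw [mul_zero, map_zero]
      | add x y _ _ hx hy => rw [mul_add, map_add, hx, hy, add_zero]
      | smul r x _ hx => rw [mul_smul_comm, map_smul, hx, smul_zero]
    exact (traceForm_nondegenerate k⟮z⟯ E).1 a (fun b => by
      rw [Algebra.traceForm_apply]; exact h1 b)
  -- the values are in `P`
  have hval : ∀ i j, T (g i) j ∈ P := by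
    intro i j
    apply mem_span_of_integral hz (n + c)
    · exact Subtype.property _
    · have h3 : IsIntegral (Algebra.adjoin k {z}) (Algebra.trace k⟮z⟯ E (g i * w j)) :=
        Algebra.isIntegral_trace ((hg1 i).mul (hw1 j))
      exact h3.map (IsScalarTower.toAlgHom (Algebra.adjoin k {z}) k⟮z⟯ E)
    · have hle : Algebra.adjoin k {z⁻¹} ≤ (k⟮z⟯).toSubalgebra := by
        rw [Algebra.adjoin_le_iff]
        rintro x hx
        rw [Set.mem_singleton_iff] at hx
        rw [hx]
        exact (k⟮z⟯).inv_mem (IntermediateField.mem_adjoin_simple_self k z)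
      let iA : Algebra (Algebra.adjoin k {z⁻¹}) k⟮z⟯ :=
        (Subalgebra.inclusion hle).toRingHom.toAlgebra
      have tow : IsScalarTower (Algebra.adjoin k {z⁻¹}) k⟮z⟯ E :=
        IsScalarTower.of_algebraMap_eq (fun _ => rfl)
      have h3 : IsIntegral (Algebra.adjoin k {z⁻¹})
          (Algebra.trace k⟮z⟯ E (((z⁻¹) ^ n * g i) * ((z⁻¹) ^ c * w j))) :=
        Algebra.isIntegral_trace ((hg2 i).mul (hw2 j))
      have h4 : ((z⁻¹) ^ n * g i) * ((z⁻¹) ^ c * w j) =
          (zg⁻¹ ^ (n + c)) • (g i * w j) := by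
        rw [Algebra.smul_def]
        have : algebraMap k⟮z⟯ E (zg⁻¹ ^ (n + c)) = (z⁻¹) ^ (n + c) := by
          rw [map_pow, map_inv₀]; rfl
        rw [this]; ring
      rw [h4, map_smul] at h3
      have h5 := h3.map (IsScalarTower.toAlgHom (Algebra.adjoin k {z⁻¹}) k⟮z⟯ E)
      have h6 : (IsScalarTower.toAlgHom (Algebra.adjoin k {z⁻¹}) k⟮z⟯ E)
          ((zg⁻¹ ^ (n + c)) • (Algebra.trace k⟮z⟯ E (g i * w j))) =
          (z⁻¹) ^ (n + c) * T (g i) j := by
        rw [smul_eq_mul, map_mul]
        congr 1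
      rw [h6] at h5
      exact h5
  -- conclusion
  let g' : Fin M → (Fin d → P) := fun i j => ⟨T (g i) j, hval i j⟩
  have hg' : LinearIndependent k g' := by
    have h7 : LinearIndependent k (T ∘ g) := hg.map' T (LinearMap.ker_eq_bot.mpr hTinj)
    let incl : (Fin d → P) →ₗ[k] (Fin d → E) :=
      LinearMap.pi (fun j => P.subtype.comp (LinearMap.proj j))
    exact LinearIndependent.of_comp incl (show LinearIndependent k (incl ∘ g') from h7)
  have h8 := hg'.fintype_card_le_finrank
  rw [Fintype.card_fin] at h8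
  refine h8.trans ?_
  rw [Module.finrank_pi_fintype]
  simp only [Finset.sum_const, Finset.card_univ, Fintype.card_fin, smul_eq_mul]
  exact Nat.mul_le_mul_left d hP

/-- Elements integral over both `k[z]` and `k[1/z]` are algebraic over `k`. -/
theorem algebraic_of_integral_both {z : E} (hz : Transcendental k z) [FiniteDimensional k⟮z⟯ E]
    {d c : ℕ} (w : Fin d → E) (hspan : Submodule.span k⟮z⟯ (Set.range w) = ⊤)
    (hw1 : ∀ j, IsIntegral (Algebra.adjoin k {z}) (w j))
    (hw2 : ∀ j, IsIntegral (Algebra.adjoin k {z⁻¹}) ((z⁻¹) ^ c * w j))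
    {g : E} (h1 : IsIntegral (Algebra.adjoin k {z}) g)
    (h2 : IsIntegral (Algebra.adjoin k {z⁻¹}) g) : IsAlgebraic k g := by
  by_contra hg
  have hg' : Transcendental k g := hg
  have hind : LinearIndependent k (fun i : Fin (d * (0 + c + 1) + 1) => g ^ (i : ℕ)) := by
    have h3 : LinearIndependent k (fun i : ℕ => g ^ i) := by
      have h4 := (Polynomial.basisMonomials k).linearIndependent.map'
        ((Polynomial.aeval g : Polynomial k →ₐ[k] E).toLinearMap)
        (LinearMap.ker_eq_bot.mpr (transcendental_iff_injective.mp hg'))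
      convert! h4 using 1
      funext i
      simp
    exact h3.comp (fun i : Fin (d * (0 + c + 1) + 1) => (i : ℕ)) Fin.val_injective
  have := lemFD hz (n := 0) w hspan hw1 hw2 _ hind (fun i => h1.pow _)
    (fun i => by rw [pow_zero, one_mul]; exact h2.pow _)
  omega

omit [CharZero k] in
theorem inv_pow_mul_aeval_mem {z : E} (hz0 : z ≠ 0) (p : Polynomial k) {c : ℕ}
    (hc : p.natDegree ≤ c) : (z⁻¹) ^ c * Polynomial.aeval z p ∈ Algebra.adjoin k {z⁻¹} := by
  rw [Polynomial.aeval_eq_sum_range, Finset.mul_sum]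
  apply Subalgebra.sum_mem
  intro i hi
  have hi' : i ≤ c := by
    have := Finset.mem_range.mp hi
    omega
  have : (z⁻¹) ^ c * (p.coeff i • z ^ i) = p.coeff i • (z⁻¹) ^ (c - i) := by
    rw [mul_smul_comm]
    congr 1
    obtain ⟨j, rfl⟩ := Nat.exists_eq_add_of_le hi'
    rw [Nat.add_sub_cancel_left]
    have h4 : (z⁻¹) ^ i * z ^ i = 1 := by
      rw [← mul_pow, inv_mul_cancel₀ hz0, one_pow]
    rw [pow_add]
    linear_combination ((z⁻¹) ^ j) * h4
  rw [this]
  exact Subalgebra.smul_mem _ (Subalgebra.pow_mem _ (Algebra.self_mem_adjoin_singleton k _) _) _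

omit [CharZero k] in
/-- scaling an integral element to make it integral at infinity -/
theorem exists_scale {z w : E} (hz0 : z ≠ 0) (hw : IsIntegral (Algebra.adjoin k {z}) w) :
    ∃ c : ℕ, ∀ c' ≥ c, IsIntegral (Algebra.adjoin k {z⁻¹}) ((z⁻¹) ^ c' * w) := by
  classical
  obtain ⟨f, hf, hfw⟩ := hw
  -- each coefficient is a polynomial in `z`
  have hco : ∀ i, ∃ p : Polynomial k, Polynomial.aeval z p = ((f.coeff i : Algebra.adjoin k {z}) : E) := by
    intro i
    have h : ∀ a ∈ Algebra.adjoin k {z}, ∃ p : Polynomial k, Polynomial.aeval z p = a := by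
      intro a ha
      rw [Algebra.adjoin_singleton_eq_range_aeval] at ha
      exact ha
    exact h _ (f.coeff i).2
  choose p hp using hco
  refine ⟨∑ i ∈ Finset.range f.natDegree, (p i).natDegree, fun c' hc' => ?_⟩
  have hc : ∀ i < f.natDegree, (p i).natDegree ≤ c' := by
    intro i hi
    refine le_trans ?_ hc'
    exact Finset.single_le_sum (f := fun i => (p i).natDegree) (fun _ _ => Nat.zero_le _)
      (Finset.mem_range.mpr hi)
  let F : Polynomial E := f.map (algebraMap (Algebra.adjoin k {z}) E)
  have hF : F.Monic := hf.map _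
  have hFd : F.natDegree = f.natDegree := hf.natDegree_map _
  let G : Polynomial E := F.scaleRoots ((z⁻¹) ^ c')
  have hG : G.Monic := (Polynomial.monic_scaleRoots_iff _).mpr hF
  have hGd : G.natDegree = F.natDegree := Polynomial.natDegree_scaleRoots _ _
  have hGc : ∀ i, G.coeff i ∈ (Algebra.adjoin k {z⁻¹}).toSubring := by
    intro i
    rw [Polynomial.coeff_scaleRoots]
    rcases lt_trichotomy i f.natDegree with hi | hi | hi
    · rw [hFd]
      obtain ⟨j, hj⟩ : ∃ j, f.natDegree - i = j + 1 := ⟨f.natDegree - i - 1, by omega⟩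
      rw [hj, Polynomial.coeff_map]
      have h5 : algebraMap (Algebra.adjoin k {z}) E (f.coeff i) = Polynomial.aeval z (p i) :=
        (hp i).symm
      rw [h5]
      have h6 : Polynomial.aeval z (p i) * ((z⁻¹) ^ c') ^ (j + 1) =
          ((z⁻¹) ^ c') ^ j * ((z⁻¹) ^ c' * Polynomial.aeval z (p i)) := by ring
      rw [h6]
      exact Subalgebra.mul_mem _ (Subalgebra.pow_mem _ (Subalgebra.pow_mem _
        (Algebra.self_mem_adjoin_singleton k _) _) _) (inv_pow_mul_aeval_mem hz0 _ (hc i hi))
    · rw [hFd, hi, Nat.sub_self, pow_zero, mul_one, ← hFd, hF.coeff_natDegree]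
      exact Subalgebra.one_mem _
    · rw [Polynomial.coeff_eq_zero_of_natDegree_lt (by omega), zero_mul]
      exact Subalgebra.zero_mem _
  have hGw : Polynomial.eval ((z⁻¹) ^ c' * w) G = 0 := by
    have h7 := Polynomial.scaleRoots_eval₂_mul (p := F) (f := RingHom.id E) (r := w)
      (s := (z⁻¹) ^ c')
    rw [Polynomial.eval₂_id] at h7
    have h8 : Polynomial.eval w F = 0 := by
      rw [Polynomial.eval_map]
      exact hfw
    simp only [RingHom.id_apply] at h7
    rw [h7, Polynomial.eval₂_id, h8, mul_zero]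
  have hGr : (↑G.coeffs : Set E) ⊆ (Algebra.adjoin k {z⁻¹}).toSubring := by
    intro a ha
    rw [Finset.mem_coe, Polynomial.mem_coeffs_iff] at ha
    obtain ⟨i, _, rfl⟩ := ha
    exact hGc i
  refine ⟨G.toSubring (Algebra.adjoin k {z⁻¹}).toSubring hGr, ?_, ?_⟩
  · exact (Polynomial.monic_toSubring _ _ hGr).mpr hG
  · rw [← Polynomial.eval_map]
    have : (G.toSubring (Algebra.adjoin k {z⁻¹}).toSubring hGr).map
        (algebraMap (Algebra.adjoin k {z⁻¹}) E) = G := by
      ext i
      rw [Polynomial.coeff_map]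
      exact Polynomial.coeff_toSubring' G _ hGr
    rw [this, hGw]

end Pool.Agent.H1.Ample
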