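import Mathlib
import Pool.Agent.H1.Ample.FD

set_option autoImplicit false
set_option linter.unusedSectionVars false

namespace Pool.Agent.H1.Ample

open scoped IntermediateField.algebraAdjoinAdjoin
open scoped IntermediateField

section

variable {k Ω : Type*} [Field k] [Field Ω] [Algebra k Ω]

/-- restriction of a derivation to an intermediate field -/
def restrictDer (E : IntermediateField k Ω) (δ : Derivation ℤ Ω Ω) (h : ∀ x ∈ E, δ x ∈ E) :
    Derivation ℤ E E :=
  Derivation.mk'
    ({ toFun := fun x => ⟨δ x, h _ x.2⟩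
       map_add' := fun x y => Subtype.ext (by
        change δ ((x : Ω) + (y : Ω)) = δ x + δ y
        rw [map_add])
       map_smul' := fun n x => Subtype.ext (by
        change δ (((n • x : E)) : Ω) = ((n • (⟨δ x, h _ x.2⟩ : E) : E) : Ω)
        have h1 : ((n • x : E) : Ω) = n • (x : Ω) := by simp
        have h2 : ((n • (⟨δ x, h _ x.2⟩ : E) : E) : Ω) = n • δ x := by simp
        rw [h1, h2, map_zsmul]) } : E →ₗ[ℤ] E)
    (fun a b => Subtype.ext (by
      change δ ((a : Ω) * (b : Ω)) = (a : Ω) * δ b + (b : Ω) * δ a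
      rw [Derivation.leibniz, smul_eq_mul, smul_eq_mul]))

theorem restrictDer_apply (E : IntermediateField k Ω) (δ : Derivation ℤ Ω Ω)
    (h : ∀ x ∈ E, δ x ∈ E) (x : E) : ((restrictDer E δ h x : E) : Ω) = δ x := rfl

theorem stable_adjoin_field {S : Set Ω} (δ : Derivation ℤ Ω Ω)
    (hk : ∀ c : k, δ (algebraMap k Ω c) ∈ IntermediateField.adjoin k S)
    (hS : ∀ s ∈ S, δ s ∈ IntermediateField.adjoin k S) {x : Ω}
    (hx : x ∈ IntermediateField.adjoin k S) :
    δ x ∈ IntermediateField.adjoin k S := by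
  induction hx using IntermediateField.adjoin_induction with
  | mem x hx => exact hS x hx
  | algebraMap r => exact hk r
  | add x y _ _ hx hy => rw [map_add]; exact add_mem hx hy
  | mul x y hxm hym hx hy =>
    rw [Derivation.leibniz, smul_eq_mul, smul_eq_mul]
    exact add_mem (mul_mem hxm hy) (mul_mem hym hx)
  | inv x hxm hx =>
    rw [Derivation.leibniz_inv, smul_eq_mul]
    exact mul_mem (neg_mem (pow_mem (inv_mem hxm) _)) hx

/-- integrality over a subalgebra of an intermediate field -/
theorem isIntegral_adjoin_iff {E : IntermediateField k Ω} {S : Set E} {a : E} :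
    IsIntegral (Algebra.adjoin k S) a ↔
      IsIntegral (Algebra.adjoin k (((↑) : E → Ω) '' S)) (a : Ω) := by
  have hmap : (Algebra.adjoin k S).map E.val = Algebra.adjoin k (((↑) : E → Ω) '' S) := by
    rw [AlgHom.map_adjoin]; rfl
  rw [← hmap]
  let e : Algebra.adjoin k S ≃ₐ[k] (Algebra.adjoin k S).map E.val :=
    Subalgebra.equivMapOfInjective _ E.val Subtype.val_injective
  constructor
  · intro h
    exact IsIntegral.map_of_comp_eq (e : Algebra.adjoin k S →+* (Algebra.adjoin k S).map E.val)
      (E.val : E →+* Ω) rfl h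
  · intro h
    rw [← isIntegral_algebraMap_iff (B := Ω) (Subtype.val_injective : Function.Injective
      (algebraMap E Ω))]
    have h2 := IsIntegral.map_of_comp_eq
      (e.symm : (Algebra.adjoin k S).map E.val →+* (Algebra.adjoin k S))
      (RingHom.id Ω) (by
        ext x
        obtain ⟨y, rfl⟩ := e.surjective x
        simp only [RingHom.comp_apply, RingHom.id_apply]
        change algebraMap (Algebra.adjoin k S) Ω (e.symm (e y)) = ((e y : (Algebra.adjoin k S).map E.val) : Ω)
        rw [AlgEquiv.symm_apply_apply]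
        rfl) h
    exact h2

end

section

variable {k Ω : Type*} [Field k] [Field Ω] [Algebra k Ω] [CharZero k]

theorem image_pair {E : IntermediateField k Ω} (z w : E) :
    (((↑) : E → Ω) '' {z, w}) = {(z : Ω), (w : Ω)} := by
  rw [Set.image_pair]

theorem adjoin_eq_top_of (S : Set Ω) :
    IntermediateField.adjoin k (((↑) : IntermediateField.adjoin k S → Ω) ⁻¹' S) = ⊤ := by
  rw [eq_top_iff]
  rintro ⟨x, hx⟩ -
  have h1 : (IntermediateField.adjoin k (((↑) : IntermediateField.adjoin k S → Ω) ⁻¹' S)).map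
      (IntermediateField.adjoin k S).val = IntermediateField.adjoin k S := by
    rw [IntermediateField.adjoin_map]
    congr 1
    ext y
    constructor
    · rintro ⟨y, hy, rfl⟩
      exact hy
    · intro hy
      exact ⟨⟨y, IntermediateField.subset_adjoin k S hy⟩, hy, rfl⟩
  rw [← h1] at hx
  obtain ⟨y, hy, hyx⟩ := hx
  have : (⟨x, by rw [← hyx]; exact y.2⟩ : IntermediateField.adjoin k S) = y := Subtype.ext hyx.symm
  rw [this]
  exact hy

theorem adjoin_pair_top (z w : Ω) (hz : z ∈ IntermediateField.adjoin k {z, w})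
    (hw : w ∈ IntermediateField.adjoin k {z, w}) :
    IntermediateField.adjoin k {(⟨z, hz⟩ : IntermediateField.adjoin k {z, w}), ⟨w, hw⟩} = ⊤ := by
  rw [← adjoin_eq_top_of]
  congr 1
  ext y
  simp [Subtype.ext_iff]

/-- ambient version of `lemDG` -/
theorem lemDG' {z w : Ω} (hz : Transcendental k z)
    (hw : IsIntegral (Algebra.adjoin k {z}) w) (δ : Derivation ℤ Ω Ω)
    (hk : ∀ c : k, δ (algebraMap k Ω c) ∈ Algebra.adjoin k {z, w})
    (hδz : δ z ∈ Algebra.adjoin k {z, w}) (hδw : δ w ∈ Algebra.adjoin k {z, w})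
    {m : ℕ} (hm : 2 ≤ m) {x y : Ω} (hx : x ∈ IntermediateField.adjoin k {z, w})
    (hy' : y ∈ IntermediateField.adjoin k {z, w})
    (h : x ^ (2 * m) + y ^ 2 = 1) (hy : y ≠ 0)
    {i : ℕ} (hi : i + 2 ≤ m) : IsIntegral (Algebra.adjoin k {z}) (x ^ i * (δ x / y)) := by
  set E := IntermediateField.adjoin k {z, w} with hE
  have hle : Algebra.adjoin k {z, w} ≤ E.toSubalgebra := by
    rw [Algebra.adjoin_le_iff]
    exact IntermediateField.subset_adjoin k _
  have hzE : z ∈ E := IntermediateField.subset_adjoin k _ (by simp)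
  have hwE : w ∈ E := IntermediateField.subset_adjoin k _ (by simp)
  let z' : E := ⟨z, hzE⟩
  let w' : E := ⟨w, hwE⟩
  have hst : ∀ x ∈ E, δ x ∈ E := by
    intro x hx
    refine stable_adjoin_field δ (fun c => hle (hk c)) ?_ hx
    rintro s (rfl | hs)
    · exact hle hδz
    · rw [Set.mem_singleton_iff] at hs; rw [hs]; exact hle hδw
  have hmem : ∀ a : E, (a : Ω) ∈ Algebra.adjoin k {z, w} → a ∈ Algebra.adjoin k {z', w'} := by
    intro a ha
    have hmap : (Algebra.adjoin k {z', w'}).map E.val = Algebra.adjoin k {z, w} := by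
      rw [AlgHom.map_adjoin, Set.image_pair]; rfl
    rw [← hmap] at ha
    obtain ⟨b, hb, hba⟩ := ha
    have : a = b := Subtype.ext hba.symm
    rw [this]; exact hb
  have key := lemDG (k := k) (E := E) (z := z') (w := w')
    (by
      intro halg
      exact hz (halg.algHom E.val))
    (by
      rw [isIntegral_adjoin_iff, Set.image_singleton]; exact hw)
    (adjoin_pair_top z w hzE hwE) (restrictDer E δ hst)
    (fun c => hmem _ (hk c)) (hmem _ hδz) (hmem _ hδw) hm (x := ⟨x, hx⟩) (y := ⟨y, hy'⟩)
    (Subtype.ext h) (fun h0 => hy (congrArg Subtype.val h0)) hi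
  rw [isIntegral_adjoin_iff, Set.image_singleton] at key
  exact key

/-- powers of `w` span -/
theorem span_pow_top {E : Type*} [Field E] [Algebra k E] {z w : E}
    (htop : IntermediateField.adjoin k {z, w} = ⊤) {P : Polynomial (Algebra.adjoin k {z})}
    (hP : P.Monic) (hPw : Polynomial.aeval w P = 0) :
    Submodule.span k⟮z⟯ (Set.range fun j : Fin P.natDegree => w ^ (j : ℕ)) = ⊤ := by
  have h1 := adjoin_pair_eq_top htop
  let Q : Polynomial k⟮z⟯ := P.map (algebraMap (Algebra.adjoin k {z}) k⟮z⟯)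
  have hQ : Q.Monic := hP.map _
  have hQd : Q.natDegree = P.natDegree := hP.natDegree_map _
  have hQw : Polynomial.aeval w Q = 0 := by
    rw [Polynomial.aeval_map_algebraMap]; exact hPw
  have hw : IsIntegral k⟮z⟯ w := ⟨Q, hQ, hQw⟩
  rw [eq_top_iff]
  rintro x -
  have hx : x ∈ IntermediateField.adjoin k⟮z⟯ {w} := by rw [h1]; trivial
  have hx2 : x ∈ Algebra.adjoin k⟮z⟯ {w} := by
    rw [← IntermediateField.adjoin_simple_toSubalgebra_of_isAlgebraic hw.isAlgebraic]
    exact hx
  rw [Algebra.adjoin_singleton_eq_range_aeval] at hx2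
  obtain ⟨f, hf⟩ := hx2
  change Polynomial.aeval w f = x at hf
  have hmod : Polynomial.aeval w (f %ₘ Q) = x := by
    rw [← hf]
    conv_rhs => rw [← Polynomial.modByMonic_add_div f Q]
    rw [map_add, map_mul, hQw, zero_mul, add_zero]
  by_cases hQ1 : Q = 1
  · rw [hQ1, map_one] at hQw
    exact absurd hQw one_ne_zero
  have hdeg : (f %ₘ Q).natDegree < P.natDegree := by
    rw [← hQd]
    exact Polynomial.natDegree_modByMonic_lt f hQ hQ1
  rw [← hmod, Polynomial.aeval_eq_sum_range' hdeg]
  apply Submodule.sum_mem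
  intro i hi
  apply Submodule.smul_mem
  apply Submodule.subset_span
  exact ⟨⟨i, Finset.mem_range.mp hi⟩, rfl⟩

/-- ambient form of `lemFD` -/
theorem lemFD' {z w : Ω} (hz : Transcendental k z) {P : Polynomial (Algebra.adjoin k {z})}
    (hP : P.Monic) (hPw : Polynomial.aeval w P = 0) {c : ℕ}
    (hw2 : IsIntegral (Algebra.adjoin k {z⁻¹}) ((z⁻¹) ^ c * w)) {M n : ℕ}
    (g : Fin M → Ω) (hgE : ∀ i, g i ∈ IntermediateField.adjoin k {z, w})
    (hg : LinearIndependent k g)
    (hg1 : ∀ i, IsIntegral (Algebra.adjoin k {z}) (g i))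
    (hg2 : ∀ i, IsIntegral (Algebra.adjoin k {z⁻¹}) ((z⁻¹) ^ n * g i)) :
    M ≤ P.natDegree * (n + c * P.natDegree + 1) := by
  set E := IntermediateField.adjoin k {z, w} with hE
  have hzE : z ∈ E := IntermediateField.subset_adjoin k _ (by simp)
  have hwE : w ∈ E := IntermediateField.subset_adjoin k _ (by simp)
  let z' : E := ⟨z, hzE⟩
  let w' : E := ⟨w, hwE⟩
  have hz' : Transcendental k z' := fun halg => hz (halg.algHom E.val)
  have hw : IsIntegral (Algebra.adjoin k {z}) w := ⟨P, hP, hPw⟩
  have hw' : IsIntegral (Algebra.adjoin k {z'}) w' := by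
    rw [isIntegral_adjoin_iff, Set.image_singleton]; exact hw
  have htop : IntermediateField.adjoin k {z', w'} = ⊤ := adjoin_pair_top z w hzE hwE
  have hfd : FiniteDimensional k⟮z'⟯ E := finiteDimensional_of_integral hw' htop
  -- transport of `P`
  let e : Algebra.adjoin k {z'} ≃ₐ[k] (Algebra.adjoin k {z'}).map E.val :=
    Subalgebra.equivMapOfInjective _ E.val Subtype.val_injective
  have hmap : (Algebra.adjoin k {z'}).map E.val = Algebra.adjoin k {z} := by
    rw [AlgHom.map_adjoin, Set.image_singleton]; rfl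
  let e2 : Algebra.adjoin k {z'} ≃ₐ[k] Algebra.adjoin k {z} :=
    e.trans (Subalgebra.equivOfEq _ _ hmap)
  have he2 : ∀ a, ((e2 a : Algebra.adjoin k {z}) : Ω) = ((a : E) : Ω) := fun a => rfl
  let P' : Polynomial (Algebra.adjoin k {z'}) := P.map (e2.symm : Algebra.adjoin k {z} →+* Algebra.adjoin k {z'})
  have hP' : P'.Monic := hP.map _
  have hPd' : P'.natDegree = P.natDegree := hP.natDegree_map _
  have hPw' : Polynomial.aeval w' P' = 0 := by
    apply Subtype.val_injective
    change E.val (Polynomial.aeval w' P') = 0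
    have h1 : E.val (Polynomial.aeval w' P') = Polynomial.aeval w P := by
      rw [Polynomial.aeval_def, Polynomial.eval₂_map]
      change (E.val : E →+* Ω) _ = _
      rw [Polynomial.hom_eval₂]
      rw [Polynomial.aeval_def]
      congr 1
      ext a
      obtain ⟨b, rfl⟩ := e2.surjective a
      change (((e2.symm (e2 b) : Algebra.adjoin k {z'}) : E) : Ω) = ((e2 b : Algebra.adjoin k {z}) : Ω)
      rw [AlgEquiv.symm_apply_apply, he2]
    rw [h1, hPw]
  have hspan := span_pow_top htop hP' hPw'
  have hinv : (((z'⁻¹ : E)) : Ω) = z⁻¹ := rfl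
  have hint1 : ∀ a : E, IsIntegral (Algebra.adjoin k {z}) (a : Ω) →
      IsIntegral (Algebra.adjoin k {z'}) a := by
    intro a ha
    rw [isIntegral_adjoin_iff, Set.image_singleton]; exact ha
  have hint2 : ∀ a : E, IsIntegral (Algebra.adjoin k {z⁻¹}) (a : Ω) →
      IsIntegral (Algebra.adjoin k {z'⁻¹}) a := by
    intro a ha
    rw [isIntegral_adjoin_iff, Set.image_singleton]; exact ha
  have hzz : ∀ e : ℕ, IsIntegral (Algebra.adjoin k {z⁻¹}) ((z⁻¹) ^ e) := fun e =>
    (isIntegral_algebraMap (x := (⟨z⁻¹, Algebra.self_mem_adjoin_singleton k _⟩ :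
      Algebra.adjoin k {z⁻¹}))).pow e
  have key := lemFD (k := k) (E := E) (z := z') hz' (d := P'.natDegree) (M := M) (n := n)
    (c := c * P.natDegree)
    (fun j : Fin P'.natDegree => w' ^ (j : ℕ)) hspan
    (fun j => hw'.pow _)
    (fun j => by
      apply hint2
      have h3 : (((z'⁻¹) ^ (c * P.natDegree) * w' ^ (j : ℕ) : E) : Ω) =
          (z⁻¹) ^ (c * (P.natDegree - j)) * ((z⁻¹) ^ c * w) ^ (j : ℕ) := by
        change (z⁻¹) ^ (c * P.natDegree) * w ^ (j : ℕ) = _
        have h4 : (j : ℕ) < P.natDegree := by rw [← hPd']; exact j.2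
        obtain ⟨l, hl⟩ : ∃ l, P.natDegree = l + j := ⟨P.natDegree - j, by omega⟩
        rw [hl, Nat.add_sub_cancel, mul_pow, ← pow_mul, mul_add, pow_add]
        ring
      rw [h3]
      exact (hzz _).mul (hw2.pow _))
    (fun i => ⟨g i, hgE i⟩)
    (LinearIndependent.of_comp E.val.toLinearMap hg)
    (fun i => hint1 _ (hg1 i))
    (fun i => hint2 _ (hg2 i))
  rw [hPd'] at key
  exact key

/-- ambient: elements of `k(z,w)` integral at finite distance and at infinity are algebraic. -/
theorem algebraic_of_integral_both' {z w : Ω} (hz : Transcendental k z)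
    (hw : IsIntegral (Algebra.adjoin k {z}) w) {g : Ω}
    (hgE : g ∈ IntermediateField.adjoin k {z, w})
    (h1 : IsIntegral (Algebra.adjoin k {z}) g)
    (h2 : IsIntegral (Algebra.adjoin k {z⁻¹}) g) : IsAlgebraic k g := by
  by_contra hg
  have hg' : Transcendental k g := hg
  have hz0 : z ≠ 0 := by
    rintro rfl
    exact hz (isAlgebraic_zero)
  obtain ⟨c, hc⟩ := exists_scale hz0 hw
  obtain ⟨P, hP, hPw⟩ := hw
  have hind : LinearIndependent k
      (fun i : Fin (P.natDegree * (0 + c * P.natDegree + 1) + 1) => g ^ (i : ℕ)) := by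
    have h3 : LinearIndependent k (fun i : ℕ => g ^ i) := by
      have h4 := (Polynomial.basisMonomials k).linearIndependent.map'
        ((Polynomial.aeval g : Polynomial k →ₐ[k] Ω).toLinearMap)
        (LinearMap.ker_eq_bot.mpr (transcendental_iff_injective.mp hg'))
      convert! h4 using 1
      funext i
      simp
    exact h3.comp _ Fin.val_injective
  have := lemFD' hz hP hPw (hc c le_rfl) (n := 0) _ (fun i => pow_mem hgE _) hind
    (fun i => h1.pow _)
    (fun i => by rw [pow_zero, one_mul]; exact h2.pow _)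
  omega

end

end Pool.Agent.H1.Ample
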