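import Mathlib
import Pool.Agent.H1.Ample.Acl
import Pool.Agent.H1.Ample.Ambient

set_option autoImplicit false
set_option linter.unusedSectionVars false

namespace Pool.Agent.H1.Ample

open scoped IntermediateField.algebraAdjoinAdjoin
open scoped IntermediateField

section

variable {M Ω : Type*} [Field M] [Field Ω] [Algebra M Ω]

theorem der_aeval (δ : Derivation ℤ Ω Ω) (x : Ω) (P : Polynomial M) :
    δ (Polynomial.aeval x P) = P.sum (fun i a => δ (algebraMap M Ω a) * x ^ i) +
      Polynomial.aeval x (Polynomial.derivative P) * δ x := by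
  induction P using Polynomial.induction_on' with
  | add p q hp hq =>
    rw [map_add, map_add, hp, hq, Polynomial.sum_add_index, Polynomial.derivative_add, map_add]
    · ring
    · intro i; simp
    · intro i a b; rw [map_add, map_add, add_mul]
  | monomial n a =>
    rw [Polynomial.sum_monomial_index _ _ (by simp), Polynomial.aeval_monomial,
      Polynomial.derivative_monomial, Polynomial.aeval_monomial, Derivation.leibniz,
      Derivation.leibniz_pow]
    simp only [smul_eq_mul, nsmul_eq_mul, map_mul, map_natCast]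
    ring

theorem aeval_derivative_minpoly_ne_zero [CharZero M] {x : Ω} (hx : IsIntegral M x) :
    Polynomial.aeval x (Polynomial.derivative (minpoly M x)) ≠ 0 :=
  (minpoly.irreducible hx).separable.aeval_derivative_ne_zero (minpoly.aeval M x)

/-- a derivation vanishing on a subfield vanishes on algebraic elements -/
theorem der_eq_zero_of_isAlgebraic [CharZero M] (δ : Derivation ℤ Ω Ω)
    (h : ∀ a : M, δ (algebraMap M Ω a) = 0) {x : Ω} (hx : IsAlgebraic M x) : δ x = 0 := by
  have hx' := hx.isIntegral
  have h1 := der_aeval δ x (minpoly M x)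
  rw [minpoly.aeval, map_zero] at h1
  have h2 : (minpoly M x).sum (fun i a => δ (algebraMap M Ω a) * x ^ i) = 0 := by
    rw [Polynomial.sum_def]
    apply Finset.sum_eq_zero
    intro i _
    rw [h, zero_mul]
  rw [h2, zero_add] at h1
  rcases mul_eq_zero.mp h1.symm with h3 | h3
  · exact absurd h3 (aeval_derivative_minpoly_ne_zero hx')
  · exact h3

end

section

variable {k Ω : Type*} [Field k] [Field Ω] [Algebra k Ω] [CharZero k]

/-- stability of the algebraic closure under a derivation -/
theorem der_stable_acl {M : IntermediateField k Ω} (δ : Derivation ℤ Ω Ω)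
    (h : ∀ a ∈ M, δ a ∈ M) {x : Ω} (hx : x ∈ acl M) : δ x ∈ acl M := by
  rw [mem_acl] at hx
  have hx' := hx.isIntegral
  have h1 := der_aeval δ x (minpoly M x)
  rw [minpoly.aeval, map_zero] at h1
  have hne := aeval_derivative_minpoly_ne_zero hx'
  have hxm : x ∈ acl M := mem_acl.mpr hx
  have h2 : δ x = - ((minpoly M x).sum (fun i a => δ (algebraMap M Ω a) * x ^ i)) /
      Polynomial.aeval x (Polynomial.derivative (minpoly M x)) := by
    field_simp
    linear_combination -h1
  have h3 : ∀ P : Polynomial M, Polynomial.aeval x P ∈ acl M := by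
    intro P
    rw [Polynomial.aeval_eq_sum_range]
    apply sum_mem
    intro i _
    rw [Algebra.smul_def]
    exact mul_mem (le_acl M (P.coeff i).2) (pow_mem hxm _)
  rw [h2]
  apply div_mem _ (h3 _)
  apply neg_mem
  rw [Polynomial.sum_def]
  apply sum_mem
  intro i _
  exact mul_mem (le_acl M (h _ ((minpoly M x).coeff i).2)) (pow_mem hxm _)

/-- the kernel of a derivation -/
theorem mem_acl_of_der_eq_zero {L : IntermediateField k Ω} (D : Derivation ℤ Ω Ω)
    (hL : ∀ a ∈ L, D a = 0) {u x : Ω} (hu : D u ≠ 0) (hx : x ∈ acl (L ⊔ k⟮u⟯)) (hDx : D x = 0) :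
    x ∈ acl L := by
  by_contra hxL
  have h1 : u ∈ acl (L ⊔ k⟮x⟯) := exchange hx hxL
  apply hu
  -- `D` vanishes on `L ⊔ k⟮x⟯`
  have h2 : ∀ a ∈ L ⊔ k⟮x⟯, D a = 0 := by
    intro a ha
    rw [acl_sup_adjoin] at ha
    induction ha using IntermediateField.adjoin_induction with
    | mem x hx =>
      rcases hx with hx | hx
      · exact hL _ hx
      · rw [Set.mem_singleton_iff] at hx; rw [hx]; exact hDx
    | algebraMap r => exact hL _ (L.algebraMap_mem r)
    | add x y _ _ hx hy => rw [map_add, hx, hy, add_zero]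
    | mul x y hxm hym hx hy => rw [Derivation.leibniz, hx, hy, smul_zero, smul_zero, add_zero]
    | inv x hxm hx => rw [Derivation.leibniz_inv, hx, smul_zero]
  exact der_eq_zero_of_isAlgebraic (M := (L ⊔ k⟮x⟯ : IntermediateField k Ω)) D
    (fun a => h2 _ a.2) (mem_acl.mp h1)

/-- exists a derivation killing `L` with `δ u = 1` -/
theorem exists_der {L : IntermediateField k Ω} {u : Ω} (hu : u ∉ acl L) :
    ∃ δ : Derivation ℤ Ω Ω, (∀ a ∈ L, δ a = 0) ∧ δ u = 1 := by
  obtain ⟨δ, hδ⟩ := exists_derivation (L := L) (u := u) (transcendental_iff_notMem_acl.mpr hu)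
  exact ⟨δ.restrictScalars ℤ, fun a ha => δ.map_algebraMap (⟨a, ha⟩ : L), hδ⟩

end

end Pool.Agent.H1.Ample
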