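import Mathlib
import Pool.Agent.H1.Ample.DerExt

set_option autoImplicit false
set_option linter.unusedSectionVars false

namespace Pool.Agent.H1.Ample

open scoped IntermediateField.algebraAdjoinAdjoin
open scoped IntermediateField

section

variable {k Ω : Type*} [Field k] [Field Ω] [Algebra k Ω]

theorem mem_adjoin_over {K : IntermediateField k Ω} {S : Set Ω} {x : Ω} :
    x ∈ IntermediateField.adjoin K S ↔ x ∈ K ⊔ IntermediateField.adjoin k S := by
  rw [← IntermediateField.restrictScalars_adjoin_eq_sup]; rfl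

theorem isIntegral_subring_iff {S : Subring Ω} {w : Ω} :
    IsIntegral S w ↔ ∃ P : Polynomial Ω, P.Monic ∧ (∀ i, P.coeff i ∈ S) ∧ P.eval w = 0 := by
  constructor
  · rintro ⟨P, hP, hPw⟩
    refine ⟨P.map (algebraMap S Ω), hP.map _, fun i => ?_, ?_⟩
    · rw [Polynomial.coeff_map]; exact (P.coeff i).2
    · rw [Polynomial.eval_map]; exact hPw
  · rintro ⟨P, hP, hPc, hPw⟩
    have hGr : (↑P.coeffs : Set Ω) ⊆ S := by
      intro a ha
      rw [Finset.mem_coe, Polynomial.mem_coeffs_iff] at ha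
      obtain ⟨i, _, rfl⟩ := ha
      exact hPc i
    refine ⟨P.toSubring S hGr, (Polynomial.monic_toSubring _ _ hGr).mpr hP, ?_⟩
    rw [← Polynomial.eval_map]
    have : (P.toSubring S hGr).map (algebraMap S Ω) = P := by
      ext i
      rw [Polynomial.coeff_map]
      exact Polynomial.coeff_toSubring' P _ hGr
    rw [this, hPw]

theorem isIntegral_subalgebra_iff {R : Type*} [CommRing R] [Algebra R Ω] {S : Subalgebra R Ω}
    {w : Ω} :
    IsIntegral S w ↔ ∃ P : Polynomial Ω, P.Monic ∧ (∀ i, P.coeff i ∈ S) ∧ P.eval w = 0 :=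
  isIntegral_subring_iff (S := S.toSubring)

theorem adjoin_mono_base {F K : IntermediateField k Ω} (h : F ≤ K) {S : Set Ω} {a : Ω}
    (ha : a ∈ Algebra.adjoin F S) : a ∈ Algebra.adjoin K S := by
  induction ha using Algebra.adjoin_induction with
  | mem x hx => exact Algebra.subset_adjoin hx
  | algebraMap r => exact (Algebra.adjoin K S).algebraMap_mem (⟨r, h r.2⟩ : K)
  | add x y _ _ hx hy => exact add_mem hx hy
  | mul x y _ _ hx hy => exact mul_mem hx hy

theorem isIntegral_adjoin_mono {F K : IntermediateField k Ω} (h : F ≤ K) {z w : Ω}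
    (hw : IsIntegral (Algebra.adjoin F {z}) w) : IsIntegral (Algebra.adjoin K {z}) w := by
  rw [isIntegral_subalgebra_iff] at hw ⊢
  obtain ⟨P, hP, hPc, hPw⟩ := hw
  exact ⟨P, hP, fun i => adjoin_mono_base h (hPc i), hPw⟩

theorem mem_acl_of_isIntegral {F : IntermediateField k Ω} {z w : Ω}
    (hw : IsIntegral (Algebra.adjoin F {z}) w) : w ∈ acl (F ⊔ k⟮z⟯) := by
  rw [mem_acl]
  rw [isIntegral_subalgebra_iff] at hw
  obtain ⟨P, hP, hPc, hPw⟩ := hw
  have hle : ∀ a ∈ Algebra.adjoin F {z}, a ∈ F ⊔ k⟮z⟯ := by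
    intro a ha
    induction ha using Algebra.adjoin_induction with
    | mem x hx =>
      rw [Set.mem_singleton_iff] at hx
      rw [hx]
      exact le_sup_right (a := F) (IntermediateField.mem_adjoin_simple_self k z)
    | algebraMap r => exact le_sup_left (b := k⟮z⟯) r.2
    | add x y _ _ hx hy => exact add_mem hx hy
    | mul x y _ _ hx hy => exact mul_mem hx hy
  apply IsIntegral.isAlgebraic
  exact isIntegral_subalgebra_iff (S := (F ⊔ k⟮z⟯ : IntermediateField k Ω).toSubalgebra) |>.mpr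
    ⟨P, hP, fun i => hle _ (hPc i), hPw⟩

theorem adjoin_inv_pair {K : Type*} [Field K] [Algebra K Ω] {z : Ω} (hz : z ≠ 0) (w : Ω) (c : ℕ) :
    IntermediateField.adjoin K {z⁻¹, (z⁻¹) ^ c * w} = IntermediateField.adjoin K {z, w} := by
  apply le_antisymm
  · rw [IntermediateField.adjoin_le_iff]
    have h1 : z ∈ IntermediateField.adjoin K {z, w} :=
      IntermediateField.subset_adjoin _ _ (by simp)
    have h2 : w ∈ IntermediateField.adjoin K {z, w} :=
      IntermediateField.subset_adjoin _ _ (by simp)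
    rintro s (rfl | hs)
    · exact inv_mem h1
    · rw [Set.mem_singleton_iff] at hs; rw [hs]
      exact mul_mem (pow_mem (inv_mem h1) _) h2
  · rw [IntermediateField.adjoin_le_iff]
    have h1 : z⁻¹ ∈ IntermediateField.adjoin K {z⁻¹, (z⁻¹) ^ c * w} :=
      IntermediateField.subset_adjoin _ _ (by simp)
    have h2 : (z⁻¹) ^ c * w ∈ IntermediateField.adjoin K {z⁻¹, (z⁻¹) ^ c * w} :=
      IntermediateField.subset_adjoin _ _ (by simp)
    rintro s (rfl | hs)
    · have := inv_mem h1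
      rwa [inv_inv] at this
    · rw [Set.mem_singleton_iff] at hs; rw [hs]
      have h3 : w = ((z⁻¹) ^ c)⁻¹ * ((z⁻¹) ^ c * w) := by
        rw [← mul_assoc, inv_mul_cancel₀ (pow_ne_zero _ (inv_ne_zero hz)), one_mul]
      have h4 := mul_mem (inv_mem (pow_mem h1 c)) h2
      rwa [← h3] at h4

end

section

variable {k Ω : Type*} [Field k] [Field Ω] [Algebra k Ω] [CharZero k]

/-- **Lemma A** (rigidity): a point of `x^(2m) + y^2 = 1` over `cl(F(u))(z,w)`, with
`w` algebraic over `F(z)`, has `x` in `cl(F(z))` or in `cl(F(u))`. -/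
theorem lemA {F : IntermediateField k Ω} {u z w : Ω} (hu : u ∉ acl F)
    (hz : z ∉ acl (F ⊔ k⟮u⟯)) (hw : IsIntegral (Algebra.adjoin F {z}) w) {m : ℕ} (hm : 3 ≤ m)
    {x y : Ω} (hx : x ∈ IntermediateField.adjoin (acl (F ⊔ k⟮u⟯)) {z, w})
    (hy : y ∈ IntermediateField.adjoin (acl (F ⊔ k⟮u⟯)) {z, w})
    (h : x ^ (2 * m) + y ^ 2 = 1) : x ∈ acl (F ⊔ k⟮z⟯) ∨ x ∈ acl (F ⊔ k⟮u⟯) := by
  set K₁ := acl (F ⊔ k⟮u⟯) with hK₁
  set L := acl (F ⊔ k⟮z⟯) with hL
  have hFK : F ≤ K₁ := le_sup_left.trans (le_acl _)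
  have hFL : F ≤ L := le_sup_left.trans (le_acl _)
  have hzL : z ∈ L := le_acl _ (le_sup_right (a := F) (IntermediateField.mem_adjoin_simple_self k z))
  have hwL : w ∈ L := mem_acl_of_isIntegral hw
  have huK : u ∈ K₁ := le_acl _ (le_sup_right (a := F) (IntermediateField.mem_adjoin_simple_self k u))
  have huL : u ∉ acl L := by
    rw [hL, acl_acl]
    exact indep_symm hu hz
  have hz0 : z ≠ 0 := by
    rintro rfl
    exact hz (zero_mem _)
  have hzT : Transcendental K₁ z := transcendental_iff_notMem_acl.mpr (by rwa [hK₁, acl_acl])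
  obtain ⟨δ, hδL, hδu⟩ := exists_der huL
  -- trivial case
  by_cases hy0 : y = 0
  · right
    rw [hy0] at h
    have h1 : x ^ (2 * m) = 1 := by linear_combination h
    rw [hK₁]
    apply acl_mono (bot_le (a := F ⊔ k⟮u⟯))
    rw [mem_acl]
    refine IsIntegral.isAlgebraic ⟨Polynomial.X ^ (2 * m) - 1, ?_, ?_⟩
    · exact Polynomial.monic_X_pow_sub_C (1 : (⊥ : IntermediateField k Ω)) (by omega)
    · simp [h1]
  -- stability of `K₁`
  have hst0 : ∀ a ∈ F ⊔ k⟮u⟯, δ a ∈ F ⊔ k⟮u⟯ := by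
    intro a ha
    rw [acl_sup_adjoin] at ha ⊢
    refine stable_adjoin_field δ (fun c => ?_) ?_ ha
    · rw [hδL _ (L.algebraMap_mem c)]; exact zero_mem _
    · rintro s (hs | hs)
      · rw [hδL _ (hFL hs)]; exact zero_mem _
      · rw [Set.mem_singleton_iff] at hs
        rw [hs, hδu]; exact one_mem _
  have hstK : ∀ a : K₁, δ (algebraMap K₁ Ω a) ∈ K₁ := fun a => der_stable_acl δ hst0 a.2
  have hδz : δ z = 0 := hδL _ hzL
  have hδw : δ w = 0 := hδL _ hwL
  have hw1 : IsIntegral (Algebra.adjoin K₁ {z}) w := isIntegral_adjoin_mono hFK hw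
  obtain ⟨c, hc⟩ := exists_scale hz0 hw1
  have hc' := hc c le_rfl
  have hzi : Transcendental K₁ z⁻¹ := fun h => hzT (by
    have := h.inv; rwa [inv_inv] at this)
  have hδzi : δ z⁻¹ = 0 := by rw [Derivation.leibniz_inv, hδz, smul_zero]
  have hδwi : δ ((z⁻¹) ^ c * w) = 0 := by
    rw [Derivation.leibniz, hδw, Derivation.leibniz_pow, hδzi]; simp
  have hE := adjoin_inv_pair (K := K₁) hz0 w c
  have hδx : δ x ∈ IntermediateField.adjoin K₁ {z, w} := by
    refine stable_adjoin_field δ (fun c => ?_) ?_ hx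
    · exact (IntermediateField.adjoin K₁ {z, w}).algebraMap_mem (⟨_, hstK c⟩ : K₁)
    · rintro s (rfl | hs)
      · rw [hδz]; exact zero_mem _
      · rw [Set.mem_singleton_iff] at hs
        rw [hs, hδw]; exact zero_mem _
  have key : ∀ i, i + 2 ≤ m → x ^ i * (δ x / y) ∈ K₁ := by
    intro i hi
    have h1 : IsIntegral (Algebra.adjoin K₁ {z}) (x ^ i * (δ x / y)) := by
      refine lemDG' hzT hw1 δ (fun c => ?_) ?_ ?_ (by omega) hx hy h hy0 hi
      · exact (Algebra.adjoin K₁ {z, w}).algebraMap_mem (⟨_, hstK c⟩ : K₁)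
      · rw [hδz]; exact zero_mem _
      · rw [hδw]; exact zero_mem _
    have h2 : IsIntegral (Algebra.adjoin K₁ {z⁻¹}) (x ^ i * (δ x / y)) := by
      refine lemDG' hzi hc' δ (fun c => ?_) ?_ ?_ (by omega) (by rw [hE]; exact hx)
        (by rw [hE]; exact hy) h hy0 hi
      · exact Subalgebra.algebraMap_mem _ (⟨_, hstK c⟩ : K₁)
      · rw [hδzi]; exact zero_mem _
      · rw [hδwi]; exact zero_mem _
    have h3 := algebraic_of_integral_both' hzT hw1
      (mul_mem (pow_mem hx i) (div_mem hδx hy)) h1 h2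
    exact mem_of_isAlgebraic_acl h3
  by_cases h0 : δ x = 0
  · left
    have h4 : x ∈ acl (L ⊔ k⟮u⟯) := by
      have h5 : x ∈ K₁ ⊔ IntermediateField.adjoin k {z, w} := mem_adjoin_over.mp hx
      have h6 : K₁ ⊔ IntermediateField.adjoin k {z, w} ≤ acl (L ⊔ k⟮u⟯) := by
        apply sup_le
        · exact acl_mono (sup_le_sup_right hFL _)
        · rw [IntermediateField.adjoin_le_iff]
          rintro s (rfl | hs)
          · exact le_acl _ (le_sup_left (b := k⟮u⟯) hzL)
          · rw [Set.mem_singleton_iff] at hs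
            rw [hs]
            exact le_acl _ (le_sup_left (b := k⟮u⟯) hwL)
      exact h6 h5
    have h5 := mem_acl_of_der_eq_zero δ hδL (by rw [hδu]; exact one_ne_zero) h4 h0
    rwa [hL, acl_acl] at h5
  · right
    have h1 := key 0 (by omega)
    have h2 := key 1 (by omega)
    rw [pow_zero, one_mul] at h1
    rw [pow_one] at h2
    have h3 : x = (x * (δ x / y)) / (δ x / y) := by
      have : δ x / y ≠ 0 := div_ne_zero h0 hy0
      field_simp
    rw [h3]
    exact div_mem h2 h1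

end

end Pool.Agent.H1.Ample
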