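import Mathlib
import Pool.Agent.H1.Ample.LemmaA

set_option autoImplicit false
set_option linter.unusedSectionVars false

namespace Pool.Agent.H1.Ample

open scoped IntermediateField.algebraAdjoinAdjoin
open scoped IntermediateField

section

variable {k Ω : Type*} [Field k] [Field Ω] [Algebra k Ω] [CharZero k]

theorem lemFD'' {z w : Ω} (hz : Transcendental k z) {P : Polynomial Ω}
    (hP : P.Monic) (hPc : ∀ i, P.coeff i ∈ Algebra.adjoin k {z}) (hPw : P.eval w = 0) {c : ℕ}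
    (hw2 : IsIntegral (Algebra.adjoin k {z⁻¹}) ((z⁻¹) ^ c * w)) {M n : ℕ}
    (g : Fin M → Ω) (hgE : ∀ i, g i ∈ IntermediateField.adjoin k {z, w})
    (hg : LinearIndependent k g)
    (hg1 : ∀ i, IsIntegral (Algebra.adjoin k {z}) (g i))
    (hg2 : ∀ i, IsIntegral (Algebra.adjoin k {z⁻¹}) ((z⁻¹) ^ n * g i)) :
    M ≤ P.natDegree * (n + c * P.natDegree + 1) := by
  have hGr : (↑P.coeffs : Set Ω) ⊆ (Algebra.adjoin k {z}).toSubring := by
    intro a ha
    rw [Finset.mem_coe, Polynomial.mem_coeffs_iff] at ha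
    obtain ⟨i, _, rfl⟩ := ha
    exact hPc i
  have h1 : (P.toSubring (Algebra.adjoin k {z}).toSubring hGr).map
      (algebraMap (Algebra.adjoin k {z}) Ω) = P := by
    ext i
    rw [Polynomial.coeff_map]
    exact Polynomial.coeff_toSubring' P _ hGr
  have h2 : (P.toSubring (Algebra.adjoin k {z}).toSubring hGr).natDegree = P.natDegree :=
    Polynomial.natDegree_toSubring _ _ hGr
  have key := lemFD' hz (P := P.toSubring (Algebra.adjoin k {z}).toSubring hGr)
    ((Polynomial.monic_toSubring _ _ hGr).mpr hP)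
    (by rw [Polynomial.aeval_def, ← Polynomial.eval_map, h1, hPw]) hw2 g hgE hg hg1 hg2
  rw [h2] at key
  exact key

end

section

variable {K₀ Q₀ Ω : Type*} [Field K₀] [CharZero K₀] [Field Q₀] [Algebra K₀ Q₀] [Field Ω]
  [Algebra K₀ Ω]

/-- two derivations which agree on `z₀` agree on everything algebraic over `K₀(z₀)` -/
theorem der_compat (ι : Q₀ →ₐ[K₀] Ω) (δ₀ : Derivation K₀ Q₀ Q₀) (δ₁ : Derivation K₀ Ω Ω)
    {z₀ : Q₀} (hz : δ₁ (ι z₀) = ι (δ₀ z₀)) [Algebra.IsAlgebraic K₀⟮z₀⟯ Q₀] (q : Q₀) :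
    δ₁ (ι q) = ι (δ₀ q) := by
  let D : Q₀ → Ω := fun q => δ₁ (ι q) - ι (δ₀ q)
  have hDmul : ∀ a b, D (a * b) = ι a * D b + ι b * D a := by
    intro a b
    simp only [D, map_mul, Derivation.leibniz, smul_eq_mul, map_add]
    ring
  have hDadd : ∀ a b, D (a + b) = D a + D b := by
    intro a b
    simp only [D, map_add]
    ring
  have hDalg : ∀ c : K₀, D (algebraMap K₀ Q₀ c) = 0 := by
    intro c
    simp only [D, AlgHom.commutes, Derivation.map_algebraMap, map_zero, sub_zero]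
  have hDz : D z₀ = 0 := by simp only [D, hz, sub_self]
  have hD1 : ∀ a ∈ K₀⟮z₀⟯, D a = 0 := by
    intro a ha
    induction ha using IntermediateField.adjoin_induction with
    | mem x hx => rw [Set.mem_singleton_iff] at hx; rw [hx]; exact hDz
    | algebraMap r => exact hDalg r
    | add x y _ _ hx hy => rw [hDadd, hx, hy, add_zero]
    | mul x y hxm hym hx hy => rw [hDmul, hx, hy, mul_zero, mul_zero, add_zero]
    | inv x hxm hx =>
      by_cases hx0 : x = 0
      · rw [hx0, inv_zero]; rw [hx0] at hx; exact hx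
      have h1 := hDmul x x⁻¹
      rw [mul_inv_cancel₀ hx0, hx, mul_zero, add_zero] at h1
      have h2 : D 1 = 0 := by rw [← map_one (algebraMap K₀ Q₀)]; exact hDalg 1
      rw [h2] at h1
      rcases mul_eq_zero.mp h1.symm with h3 | h3
      · exact absurd h3 (fun h => hx0 ((map_eq_zero ι).mp h))
      · exact h3
  have : CharZero K₀⟮z₀⟯ := charZero_of_injective_algebraMap (algebraMap K₀ K₀⟮z₀⟯).injective
  let _ : Algebra Q₀ Ω := ι.toRingHom.toAlgebra
  let _ : Module K₀⟮z₀⟯ Ω := Module.compHom Ω (algebraMap K₀⟮z₀⟯ Q₀)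
  let D' : Derivation K₀⟮z₀⟯ Q₀ Ω := Derivation.mk'
    { toFun := D
      map_add' := hDadd
      map_smul' := fun c q => by
        rw [RingHom.id_apply]
        change D ((c : Q₀) * q) = ι (c : Q₀) * D q
        rw [hDmul, hD1 _ c.2, mul_zero, add_zero] }
    (fun a b => hDmul a b)
  have hq : IsIntegral K₀⟮z₀⟯ q := Algebra.IsIntegral.isIntegral q
  have h1 := Derivation.map_aeval D' (minpoly K₀⟮z₀⟯ q) q
  rw [minpoly.aeval, map_zero] at h1
  have h2 : Polynomial.aeval q (Polynomial.derivative (minpoly K₀⟮z₀⟯ q)) ≠ 0 :=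
    aeval_derivative_minpoly_ne_zero hq
  have h3 : D' q = 0 := by
    change 0 = ι (Polynomial.aeval q (Polynomial.derivative (minpoly K₀⟮z₀⟯ q))) * D' q at h1
    rcases mul_eq_zero.mp h1.symm with h4 | h4
    · exact absurd h4 (fun h => h2 ((map_eq_zero ι).mp h))
    · exact h4
  exact sub_eq_zero.mp h3

omit [CharZero K₀] in
theorem exists_pow_mul_mem {z₀ : Q₀} (hz : z₀ ≠ 0) (w₀ : Q₀) (c : ℕ) {h : Q₀}
    (hh : h ∈ Algebra.adjoin K₀ {z₀, w₀}) :
    ∃ n₀ : ℕ, ∀ n ≥ n₀, (z₀⁻¹) ^ n * h ∈ Algebra.adjoin K₀ {z₀⁻¹, (z₀⁻¹) ^ c * w₀} := by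
  have hzi : z₀⁻¹ ∈ Algebra.adjoin K₀ {z₀⁻¹, (z₀⁻¹) ^ c * w₀} :=
    Algebra.subset_adjoin (by simp)
  have hwi : (z₀⁻¹) ^ c * w₀ ∈ Algebra.adjoin K₀ {z₀⁻¹, (z₀⁻¹) ^ c * w₀} :=
    Algebra.subset_adjoin (by simp)
  induction hh using Algebra.adjoin_induction with
  | mem x hx =>
    rcases hx with rfl | hx
    · refine ⟨1, fun n hn => ?_⟩
      obtain ⟨j, rfl⟩ : ∃ j, n = j + 1 := ⟨n - 1, by omega⟩
      rw [pow_succ, mul_assoc, inv_mul_cancel₀ hz, mul_one]
      exact pow_mem hzi _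
    · rw [Set.mem_singleton_iff] at hx
      rw [hx]
      refine ⟨c, fun n hn => ?_⟩
      obtain ⟨j, rfl⟩ : ∃ j, n = j + c := ⟨n - c, by omega⟩
      rw [pow_add, mul_assoc]
      exact mul_mem (pow_mem hzi _) hwi
  | algebraMap r =>
    exact ⟨0, fun n _ => mul_mem (pow_mem hzi _) (Subalgebra.algebraMap_mem _ r)⟩
  | add x y _ _ hx hy =>
    obtain ⟨n1, h1⟩ := hx
    obtain ⟨n2, h2⟩ := hy
    refine ⟨max n1 n2, fun n hn => ?_⟩
    rw [mul_add]
    exact add_mem (h1 n (le_trans (le_max_left _ _) hn)) (h2 n (le_trans (le_max_right _ _) hn))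
  | mul x y _ _ hx hy =>
    obtain ⟨n1, h1⟩ := hx
    obtain ⟨n2, h2⟩ := hy
    refine ⟨n1 + n2, fun n hn => ?_⟩
    obtain ⟨j, rfl⟩ : ∃ j, n = j + n1 + n2 := ⟨n - n1 - n2, by omega⟩
    have : (z₀⁻¹) ^ (j + n1 + n2) * (x * y) =
        ((z₀⁻¹) ^ (j + n1) * x) * ((z₀⁻¹) ^ n2 * y) := by ring
    rw [this]
    exact mul_mem (h1 _ (by omega)) (h2 _ le_rfl)

omit [CharZero K₀] in
theorem map_mem_adjoin (ι : Q₀ →ₐ[K₀] Ω) (K₁ : IntermediateField K₀ Ω) {S : Set Q₀} {r : Q₀}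
    (hr : r ∈ Algebra.adjoin K₀ S) {T : Set Ω} (hT : ∀ s ∈ S, ι s ∈ T) :
    ι r ∈ Algebra.adjoin K₁ T := by
  induction hr using Algebra.adjoin_induction with
  | mem x hx => exact Algebra.subset_adjoin (hT x hx)
  | algebraMap r =>
    rw [AlgHom.commutes, IsScalarTower.algebraMap_apply K₀ K₁ Ω]
    exact Subalgebra.algebraMap_mem _ _
  | add x y _ _ hx hy => rw [map_add]; exact add_mem hx hy
  | mul x y _ _ hx hy => rw [map_mul]; exact mul_mem hx hy

/-- primitive element, ambient version -/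
theorem exists_prim {K Ω : Type*} [Field K] [CharZero K] [Field Ω] [Algebra K Ω] (z : Ω)
    {S : Set Ω} (hS : S.Finite) (halg : ∀ s ∈ S, IsAlgebraic K⟮z⟯ s) :
    ∃ w : Ω, IsIntegral (Algebra.adjoin K {z}) w ∧
      IntermediateField.adjoin K {z, w} = IntermediateField.adjoin K (insert z S) := by
  have : CharZero K⟮z⟯ := charZero_of_injective_algebraMap (algebraMap K K⟮z⟯).injective
  have hfin : FiniteDimensional K⟮z⟯ (IntermediateField.adjoin K⟮z⟯ S) := by
    have : Finite S := hS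
    exact IntermediateField.finiteDimensional_adjoin (fun s hs => (halg s hs).isIntegral)
  obtain ⟨w', hw'⟩ := Field.exists_primitive_element K⟮z⟯ (IntermediateField.adjoin K⟮z⟯ S)
  set w₁ : Ω := (w' : Ω) with hw₁
  have hE0 : IntermediateField.adjoin K⟮z⟯ {w₁} = IntermediateField.adjoin K⟮z⟯ S := by
    have h1 := congrArg (IntermediateField.map (IntermediateField.adjoin K⟮z⟯ S).val) hw'
    rw [IntermediateField.adjoin_map, Set.image_singleton, ← AlgHom.fieldRange_eq_map,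
      IntermediateField.fieldRange_val] at h1
    exact h1
  have halg1 : IsAlgebraic K⟮z⟯ w₁ := by
    have : IsAlgebraic K⟮z⟯ w' := Algebra.IsAlgebraic.isAlgebraic w'
    exact this.algHom (IntermediateField.adjoin K⟮z⟯ S).val
  rw [← IsFractionRing.isAlgebraic_iff (Algebra.adjoin K {z}) K⟮z⟯ Ω] at halg1
  obtain ⟨y, hy0, hy⟩ := halg1.exists_integral_multiple
  refine ⟨y • w₁, hy, ?_⟩
  have hy0' : (y : Ω) ≠ 0 := fun h => hy0 (Subtype.ext h)
  have hE : IntermediateField.adjoin K {z, w₁} = IntermediateField.adjoin K (insert z S) := by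
    rw [← IntermediateField.adjoin_simple_adjoin_simple, hE0]
    have := IntermediateField.adjoin_adjoin_left K ({z} : Set Ω) S
    rw [this, Set.singleton_union]
  have hyle : ∀ E : IntermediateField K Ω, z ∈ E → (y : Ω) ∈ E := by
    intro E hzE
    have hle : Algebra.adjoin K {z} ≤ E.toSubalgebra := by
      rw [Algebra.adjoin_le_iff]
      rintro x hx
      rw [Set.mem_singleton_iff] at hx
      rw [hx]; exact hzE
    exact hle y.2
  rw [← hE]
  apply le_antisymm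
  · rw [IntermediateField.adjoin_le_iff]
    have hz1 : z ∈ IntermediateField.adjoin K {z, w₁} :=
      IntermediateField.subset_adjoin _ _ (by simp)
    have hw2 : w₁ ∈ IntermediateField.adjoin K {z, w₁} :=
      IntermediateField.subset_adjoin _ _ (by simp)
    rintro s (rfl | hs)
    · exact hz1
    · rw [Set.mem_singleton_iff] at hs
      rw [hs, Subalgebra.smul_def, smul_eq_mul]
      exact mul_mem (hyle _ hz1) hw2
  · rw [IntermediateField.adjoin_le_iff]
    have hz1 : z ∈ IntermediateField.adjoin K {z, y • w₁} :=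
      IntermediateField.subset_adjoin _ _ (by simp)
    have hw2 : y • w₁ ∈ IntermediateField.adjoin K {z, y • w₁} :=
      IntermediateField.subset_adjoin _ _ (by simp)
    rintro s (rfl | hs)
    · exact hz1
    · rw [Set.mem_singleton_iff] at hs
      rw [hs]
      have h3 : w₁ = (y : Ω)⁻¹ * (y • w₁) := by
        rw [Subalgebra.smul_def, smul_eq_mul, ← mul_assoc, inv_mul_cancel₀ hy0', one_mul]
      have h4 := mul_mem (inv_mem (hyle _ hz1)) hw2
      rwa [← h3] at h4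

theorem lemB {z₀ w₀ : Q₀} (hz : Transcendental K₀ z₀)
    (hw₀ : IsIntegral (Algebra.adjoin K₀ {z₀}) w₀)
    (htop : IntermediateField.adjoin K₀ {z₀, w₀} = ⊤) :
    ∃ M₀ : ℕ, ∀ m ≥ M₀, ∀ (ι : Q₀ →ₐ[K₀] Ω) (K₁ : IntermediateField K₀ Ω), acl K₁ = K₁ →
      ι z₀ ∉ K₁ → ∀ x ∈ K₁ ⊔ ι.fieldRange, ∀ y ∈ K₁ ⊔ ι.fieldRange,
      x ^ (2 * m) + y ^ 2 = 1 → x ∈ K₁ := by
  have hz0 : z₀ ≠ 0 := by
    rintro rfl
    exact hz (isAlgebraic_zero)
  have hfd : FiniteDimensional K₀⟮z₀⟯ Q₀ := finiteDimensional_of_integral hw₀ htop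
  obtain ⟨δ₀, hδ₀⟩ := exists_derivation (L := K₀) hz
  have hfrac : IsFractionRing (Algebra.adjoin K₀ {z₀, w₀}) Q₀ := isFractionRing_adjoin _ htop
  obtain ⟨a, g, hg, hag⟩ := IsFractionRing.div_surjective (A := Algebra.adjoin K₀ {z₀, w₀}) (δ₀ w₀)
  have hg0 : ((g : Algebra.adjoin K₀ {z₀, w₀}) : Q₀) ≠ 0 := by
    intro h
    exact nonZeroDivisors.ne_zero hg (Subtype.ext h)
  have hag' : (g : Q₀) * δ₀ w₀ = (a : Q₀) := by
    rw [← hag]
    change (g : Q₀) * ((a : Q₀) / (g : Q₀)) = a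
    field_simp
  obtain ⟨c, hc⟩ := exists_scale hz0 hw₀
  have hc' := hc c le_rfl
  obtain ⟨P₀, hP₀, hPc₀, hPw₀⟩ := isIntegral_subalgebra_iff.mp hw₀
  have hwR : w₀ ∈ Algebra.adjoin K₀ {z₀, w₀} := Algebra.subset_adjoin (by simp)
  obtain ⟨n1, hn1⟩ := exists_pow_mul_mem hz0 w₀ c g.2
  obtain ⟨n2, hn2⟩ := exists_pow_mul_mem hz0 w₀ c a.2
  obtain ⟨n3, hn3⟩ := exists_pow_mul_mem hz0 w₀ c (mul_mem g.2 hwR)
  set n := max n1 (max n2 n3) with hn
  set d := P₀.natDegree with hd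
  refine ⟨d * (n + c * d + 1) + 3, fun m hm ι K₁ hK₁ hzK₁ x hx y hy h => ?_⟩
  set z := ι z₀ with hzdef
  set w := ι w₀ with hwdef
  have hzT : Transcendental K₁ z := transcendental_iff_notMem_acl.mpr (by rwa [hK₁])
  have hz0' : z ≠ 0 := by rw [hzdef, Ne, map_eq_zero]; exact hz0
  by_contra hxK
  have hxT : Transcendental K₁ x := transcendental_iff_notMem_acl.mpr (by rwa [hK₁])
  have hy0 : y ≠ 0 := by
    intro hy0
    rw [hy0] at h
    have h1 : x ^ (2 * m) = 1 := by linear_combination h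
    apply hxT
    refine IsIntegral.isAlgebraic ⟨Polynomial.X ^ (2 * m) - 1, ?_, ?_⟩
    · exact Polynomial.monic_X_pow_sub_C (1 : K₁) (by omega)
    · simp [h1]
  have : CharZero K₁ := charZero_of_injective_algebraMap (algebraMap K₀ K₁).injective
  obtain ⟨δ₁, hδ₁⟩ := exists_derivation (L := K₁) hzT
  have hcompat : ∀ q : Q₀, δ₁ (ι q) = ι (δ₀ q) := by
    intro q
    exact der_compat ι δ₀ (δ₁.restrictScalars K₀) (z₀ := z₀) (by
      change δ₁ (ι z₀) = _
      rw [hδ₀, map_one]; exact hδ₁) q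
  have hrange : ι.fieldRange = IntermediateField.adjoin K₀ {z, w} := by
    rw [AlgHom.fieldRange_eq_map, ← htop, IntermediateField.adjoin_map, Set.image_pair]
  have hxE : x ∈ IntermediateField.adjoin K₁ {z, w} := by
    rw [mem_adjoin_over, ← hrange]; exact hx
  have hyE : y ∈ IntermediateField.adjoin K₁ {z, w} := by
    rw [mem_adjoin_over, ← hrange]; exact hy
  have hmemR : ∀ r ∈ Algebra.adjoin K₀ {z₀, w₀}, ι r ∈ Algebra.adjoin K₁ {z, w} := by
    intro r hr
    refine map_mem_adjoin ι K₁ hr ?_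
    rintro s (rfl | hs)
    · left; rfl
    · rw [Set.mem_singleton_iff] at hs; rw [hs]; right; rfl
  have hmemR' : ∀ r ∈ Algebra.adjoin K₀ {z₀⁻¹, (z₀⁻¹) ^ c * w₀},
      ι r ∈ Algebra.adjoin K₁ {z⁻¹, (z⁻¹) ^ c * w} := by
    intro r hr
    refine map_mem_adjoin ι K₁ hr ?_
    rintro s (rfl | hs)
    · left; rw [map_inv₀]
    · rw [Set.mem_singleton_iff] at hs; rw [hs]; right
      rw [Set.mem_singleton_iff, map_mul, map_pow, map_inv₀]
  have hw : IsIntegral (Algebra.adjoin K₁ {z}) w := by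
    rw [isIntegral_subalgebra_iff]
    refine ⟨P₀.map (ι : Q₀ →+* Ω), hP₀.map _, fun i => ?_, ?_⟩
    · rw [Polynomial.coeff_map]
      refine map_mem_adjoin ι K₁ (hPc₀ i) ?_
      intro s hs
      rw [Set.mem_singleton_iff] at hs; rw [hs]; rfl
    · rw [Polynomial.eval_map]
      have := Polynomial.hom_eval₂ P₀ (RingHom.id Q₀) (ι : Q₀ →+* Ω) w₀
      rw [RingHom.comp_id] at this
      rw [hwdef]
      refine this.symm.trans ?_
      rw [Polynomial.eval₂_id, hPw₀, map_zero]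
  have hwi : IsIntegral (Algebra.adjoin K₁ {z⁻¹}) ((z⁻¹) ^ c * w) := by
    rw [isIntegral_subalgebra_iff] at hc' ⊢
    obtain ⟨P₁, hP₁, hPc₁, hPw₁⟩ := hc'
    refine ⟨P₁.map (ι : Q₀ →+* Ω), hP₁.map _, fun i => ?_, ?_⟩
    · rw [Polynomial.coeff_map]
      refine map_mem_adjoin ι K₁ (hPc₁ i) ?_
      intro s hs
      rw [Set.mem_singleton_iff] at hs; rw [hs, map_inv₀]; rfl
    · rw [Polynomial.eval_map]
      have h1 : (z⁻¹) ^ c * w = ι ((z₀⁻¹) ^ c * w₀) := by
        rw [map_mul, map_pow, map_inv₀]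
      have := Polynomial.hom_eval₂ P₁ (RingHom.id Q₀) (ι : Q₀ →+* Ω) ((z₀⁻¹) ^ c * w₀)
      rw [RingHom.comp_id] at this
      rw [h1]
      refine this.symm.trans ?_
      rw [Polynomial.eval₂_id, hPw₁, map_zero]
  let δ : Derivation ℤ Ω Ω := (ι g) • (δ₁.restrictScalars ℤ)
  have hδ : ∀ q, δ q = ι g * δ₁ q := fun q => rfl
  have hδK : ∀ c : K₁, δ (algebraMap K₁ Ω c) = 0 := by
    intro c; rw [hδ, δ₁.map_algebraMap, mul_zero]
  have hδz : δ z = ι g := by rw [hδ, hδ₁, mul_one]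
  have hδw : δ w = ι a := by rw [hδ, hwdef, hcompat, ← map_mul, hag']
  let δ' : Derivation ℤ Ω Ω := ((z⁻¹) ^ n) • δ
  have hδ' : ∀ q, δ' q = (z⁻¹) ^ n * δ q := fun q => rfl
  have hδK' : ∀ c : K₁, δ' (algebraMap K₁ Ω c) = 0 := by
    intro c; rw [hδ', hδK, mul_zero]
  have hδzi : δ' z⁻¹ = - ι ((z₀⁻¹) ^ (n + 2) * g) := by
    rw [hδ', Derivation.leibniz_inv, hδz, smul_eq_mul, map_mul, map_pow, map_inv₀]
    ring
  have hδwi : δ' ((z⁻¹) ^ c * w) =
      ι ((z₀⁻¹) ^ (n + c) * a) - c • ι ((z₀⁻¹) ^ (n + c + 1) * (g * w₀)) := by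
    rw [hδ', Derivation.leibniz, Derivation.leibniz_pow, Derivation.leibniz_inv, hδz, hδw]
    simp only [smul_eq_mul, nsmul_eq_mul, map_mul, map_pow, map_inv₀]
    rcases Nat.eq_zero_or_pos c with hc0 | hc0
    · rw [hc0]; push_cast; ring
    · obtain ⟨c1, rfl⟩ : ∃ c1, c = c1 + 1 := ⟨c - 1, by omega⟩
      rw [Nat.add_sub_cancel]
      push_cast
      ring
  have hmem1 : (z₀⁻¹) ^ (n + 2) * (g : Q₀) ∈ Algebra.adjoin K₀ {z₀⁻¹, (z₀⁻¹) ^ c * w₀} :=
    hn1 _ (by omega)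
  have hmem2 : (z₀⁻¹) ^ (n + c) * (a : Q₀) ∈ Algebra.adjoin K₀ {z₀⁻¹, (z₀⁻¹) ^ c * w₀} :=
    hn2 _ (by omega)
  have hmem3 : (z₀⁻¹) ^ (n + c + 1) * ((g : Q₀) * w₀) ∈
      Algebra.adjoin K₀ {z₀⁻¹, (z₀⁻¹) ^ c * w₀} := hn3 _ (by omega)
  have hzi : Transcendental K₁ z⁻¹ := fun h => hzT (by
    have := h.inv; rwa [inv_inv] at this)
  have hE := adjoin_inv_pair (K := K₁) hz0' w c
  have key1 : ∀ i, i + 2 ≤ m → IsIntegral (Algebra.adjoin K₁ {z}) (x ^ i * (δ x / y)) := by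
    intro i hi
    refine lemDG' hzT hw δ (fun c => ?_) ?_ ?_ (by omega) hxE hyE h hy0 hi
    · rw [hδK]; exact zero_mem _
    · rw [hδz]; exact hmemR _ g.2
    · rw [hδw]; exact hmemR _ a.2
  have key2 : ∀ i, i + 2 ≤ m → IsIntegral (Algebra.adjoin K₁ {z⁻¹})
      ((z⁻¹) ^ n * (x ^ i * (δ x / y))) := by
    intro i hi
    have h1 : (z⁻¹) ^ n * (x ^ i * (δ x / y)) = x ^ i * (δ' x / y) := by
      rw [hδ']; ring
    rw [h1]
    refine lemDG' hzi hwi δ' (fun c => ?_) ?_ ?_ (by omega) (by rw [hE]; exact hxE)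
      (by rw [hE]; exact hyE) h hy0 hi
    · rw [hδK']; exact zero_mem _
    · rw [hδzi]; exact neg_mem (hmemR' _ hmem1)
    · rw [hδwi]; exact sub_mem (hmemR' _ hmem2) (nsmul_mem (hmemR' _ hmem3) _)
  -- `δ x ≠ 0`
  have hδx : δ x ≠ 0 := by
    intro h0
    rw [hδ] at h0
    rcases mul_eq_zero.mp h0 with h1 | h1
    · exact hg0 (by rwa [map_eq_zero] at h1)
    · apply hxK
      rw [← hK₁]
      refine mem_acl_of_der_eq_zero (u := z) (δ₁.restrictScalars ℤ)
        (fun a ha => δ₁.map_algebraMap (⟨a, ha⟩ : K₁)) ?_ ?_ h1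
      · change δ₁ z ≠ 0
        rw [hδ₁]; exact one_ne_zero
      · have h2 : K₁ ⊔ IntermediateField.adjoin K₀ {z, w} ≤ acl (K₁ ⊔ K₀⟮z⟯) := by
          apply sup_le (le_sup_left.trans (le_acl _))
          rw [IntermediateField.adjoin_le_iff]
          rintro s (rfl | hs)
          · exact le_acl _ (le_sup_right (a := K₁) (IntermediateField.mem_adjoin_simple_self K₀ z))
          · rw [Set.mem_singleton_iff] at hs
            rw [hs]
            exact mem_acl_of_isIntegral hw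
        exact h2 (mem_adjoin_over.mp hxE)
  have hδxE : δ x ∈ IntermediateField.adjoin K₁ {z, w} := by
    refine stable_adjoin_field δ (fun c => ?_) ?_ hxE
    · rw [hδK]; exact zero_mem _
    · have hle : Algebra.adjoin K₁ {z, w} ≤ (IntermediateField.adjoin K₁ {z, w}).toSubalgebra := by
        rw [Algebra.adjoin_le_iff]
        exact IntermediateField.subset_adjoin _ _
      rintro s (rfl | hs)
      · rw [hδz]; exact hle (hmemR _ g.2)
      · rw [Set.mem_singleton_iff] at hs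
        rw [hs, hδw]; exact hle (hmemR _ a.2)
  -- linear independence
  have hind : LinearIndependent K₁ (fun i : Fin (m - 1) => x ^ (i : ℕ) * (δ x / y)) := by
    have h3 : LinearIndependent K₁ (fun i : ℕ => x ^ i) := by
      have h4 := (Polynomial.basisMonomials K₁).linearIndependent.map'
        ((Polynomial.aeval x : Polynomial K₁ →ₐ[K₁] Ω).toLinearMap)
        (LinearMap.ker_eq_bot.mpr (transcendental_iff_injective.mp hxT))
      convert! h4 using 1
      funext i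
      simp
    have h5 : LinearIndependent K₁ (fun i : Fin (m - 1) => x ^ (i : ℕ)) :=
      h3.comp _ Fin.val_injective
    have hne : δ x / y ≠ 0 := div_ne_zero hδx hy0
    exact h5.map' (LinearMap.mulRight K₁ (δ x / y))
      (LinearMap.ker_eq_bot.mpr (fun a b hab => mul_right_cancel₀ hne hab))
  have hfinal := lemFD'' (k := K₁) hzT (P := P₀.map (ι : Q₀ →+* Ω)) (hP₀.map _)
    (fun i => by
      rw [Polynomial.coeff_map]
      refine map_mem_adjoin ι K₁ (hPc₀ i) ?_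
      intro s hs
      rw [Set.mem_singleton_iff] at hs; rw [hs]; rfl)
    (by
      rw [Polynomial.eval_map]
      have := Polynomial.hom_eval₂ P₀ (RingHom.id Q₀) (ι : Q₀ →+* Ω) w₀
      rw [RingHom.comp_id] at this
      refine (Eq.trans ?_ this.symm).trans ?_
      · rfl
      · rw [Polynomial.eval₂_id, hPw₀, map_zero])
    hwi (n := n) _ (fun i => mul_mem (pow_mem hxE _) (div_mem hδxE hyE)) hind
    (fun i => key1 i (by have := i.2; omega)) (fun i => key2 i (by have := i.2; omega))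
  rw [hP₀.natDegree_map, ← hd] at hfinal
  omega

end

end Pool.Agent.H1.Ample
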