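import Mathlib
import Pool.Agent.H1.Ample.LemmaB

set_option autoImplicit false
set_option linter.unusedSectionVars false

namespace Pool.Agent.H1.Ample

open scoped IntermediateField.algebraAdjoinAdjoin
open scoped IntermediateField

section

variable {k Ω : Type*} [Field k] [Field Ω] [Algebra k Ω]

theorem mem_acl_bot {x : Ω} : x ∈ acl (⊥ : IntermediateField k Ω) ↔ IsAlgebraic k x := by
  rw [mem_acl]
  constructor
  · intro h
    have : Algebra.IsAlgebraic k (⊥ : IntermediateField k Ω) := by infer_instance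
    exact h.restrictScalars k
  · intro h
    exact h.tower_top (L := (⊥ : IntermediateField k Ω))

/-- every solution of `x^(2N) + y^2 = 1` in `L` is constant -/
def Pr (N : ℕ) (L : IntermediateField k Ω) : Prop :=
  ∀ x ∈ L, ∀ y ∈ L, x ^ (2 * N) + y ^ 2 = 1 → x ∈ (⊥ : IntermediateField k Ω)

theorem acl_bot [IsAlgClosed k] : acl (⊥ : IntermediateField k Ω) = ⊥ := by
  apply le_antisymm _ (le_acl _)
  intro x hx
  rw [mem_acl_bot] at hx
  rw [IntermediateField.mem_bot]
  have h1 : (minpoly k x).degree = 1 :=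
    IsAlgClosed.degree_eq_one_of_irreducible k (minpoly.irreducible hx.isIntegral)
  exact minpoly.mem_range_of_degree_eq_one k x h1

end

section

variable {k Ω : Type*} [Field k] [Field Ω] [Algebra k Ω] [CharZero k]

theorem exists_bound_one {S : Set Ω} (hS : S.Finite) {B : Set Ω}
    (hB : (AlgebraicIndependent.matroid k Ω).IsBasis B S) {j : Ω} (hj : j ∈ B) :
    ∃ M₀ : ℕ, ∀ m ≥ M₀, ∀ x ∈ IntermediateField.adjoin k S, ∀ y ∈ IntermediateField.adjoin k S,
      x ^ (2 * m) + y ^ 2 = 1 → x ∈ acl (IntermediateField.adjoin k (B \ {j})) := by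
  set K₀ := IntermediateField.adjoin k (B \ {j}) with hK₀
  have : CharZero K₀ := charZero_of_injective_algebraMap (algebraMap k K₀).injective
  have hBS : B ⊆ S := hB.subset
  have hjS : j ∈ S := hBS hj
  have hle : IntermediateField.adjoin k B ≤ K₀ ⊔ k⟮j⟯ := by
    rw [IntermediateField.adjoin_le_iff]
    intro b hb
    by_cases hbj : b = j
    · rw [hbj]
      exact le_sup_right (a := K₀) (IntermediateField.mem_adjoin_simple_self k j)
    · exact le_sup_left (b := k⟮j⟯) (IntermediateField.subset_adjoin _ _ ⟨hb, hbj⟩)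
  have halg : ∀ s ∈ S, IsAlgebraic (IntermediateField.adjoin K₀ {j}) s := by
    intro s hs
    have h1 : s ∈ (AlgebraicIndependent.matroid k Ω).closure B := by
      rw [hB.closure_eq_closure]
      exact (AlgebraicIndependent.matroid k Ω).mem_closure_of_mem hs
    rw [mem_matroid_closure] at h1
    have h2 : s ∈ acl (K₀ ⊔ k⟮j⟯) := acl_mono hle h1
    rw [← IntermediateField.restrictScalars_adjoin_eq_sup] at h2
    exact mem_acl.mp h2
  obtain ⟨w, hw, hE⟩ := exists_prim (K := K₀) j hS halg
  set E := IntermediateField.adjoin K₀ {j, w} with hEdef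
  have hjE : j ∈ E := IntermediateField.subset_adjoin _ _ (by simp)
  have hwE : w ∈ E := IntermediateField.subset_adjoin _ _ (by simp)
  have hjB : j ∉ acl K₀ := by
    have h1 := hB.indep.notMem_closure_sdiff_of_mem hj
    rw [mem_matroid_closure] at h1
    exact h1
  have hjB' : j ∉ acl (⊥ : IntermediateField K₀ Ω) := by
    rw [mem_acl_bot]
    intro h
    exact hjB (mem_acl.mpr h)
  obtain ⟨M₀, hM₀⟩ := lemB (K₀ := K₀) (Q₀ := E) (Ω := Ω) (z₀ := ⟨j, hjE⟩) (w₀ := ⟨w, hwE⟩)
    (by
      intro h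
      apply hjB'
      rw [mem_acl_bot]
      exact h.algHom E.val)
    (by
      rw [isIntegral_adjoin_iff, Set.image_singleton]; exact hw)
    (adjoin_pair_top j w hjE hwE)
  refine ⟨M₀, fun m hm x hx y hy h => ?_⟩
  have hmem : ∀ x ∈ IntermediateField.adjoin k S, x ∈ E := by
    intro x hx
    rw [hE, mem_adjoin_over]
    exact le_sup_right (a := K₀) (IntermediateField.adjoin.mono k _ _ (Set.subset_insert _ _) hx)
  have h1 := hM₀ m hm E.val (acl (⊥ : IntermediateField K₀ Ω)) (acl_acl _) hjB' x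
    (le_sup_right (a := acl (⊥ : IntermediateField K₀ Ω)) ⟨⟨x, hmem x hx⟩, rfl⟩) y
    (le_sup_right (a := acl (⊥ : IntermediateField K₀ Ω)) ⟨⟨y, hmem y hy⟩, rfl⟩) h
  rw [mem_acl_bot] at h1
  exact mem_acl.mpr h1

/-- **Corollary B**: finitely generated extensions of an algebraically closed field have only
constant points on `x^(2N) + y^2 = 1` for `N` large. -/
theorem exists_Pr [IsAlgClosed k] {S : Set Ω} (hS : S.Finite) :
    ∃ N₀ : ℕ, ∀ N ≥ N₀, Pr N (IntermediateField.adjoin k S) := by
  classical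
  obtain ⟨B, hB⟩ := (AlgebraicIndependent.matroid k Ω).exists_isBasis S
  have hBfin : B.Finite := hS.subset hB.subset
  have hex : ∀ j : Ω, ∃ M₀ : ℕ, j ∈ B → ∀ m ≥ M₀, ∀ x ∈ IntermediateField.adjoin k S,
      ∀ y ∈ IntermediateField.adjoin k S, x ^ (2 * m) + y ^ 2 = 1 →
      x ∈ acl (IntermediateField.adjoin k (B \ {j})) := by
    intro j
    by_cases hj : j ∈ B
    · obtain ⟨M₀, hM₀⟩ := exists_bound_one hS hB hj
      exact ⟨M₀, fun _ => hM₀⟩
    · exact ⟨0, fun h => absurd h hj⟩
  choose M₀ hM₀ using hex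
  refine ⟨∑ j ∈ hBfin.toFinset, M₀ j, fun N hN x hx y hy h => ?_⟩
  have hall : ∀ j ∈ B, x ∈ acl (IntermediateField.adjoin k (B \ {j})) := by
    intro j hj
    refine hM₀ j hj N (le_trans ?_ hN) x hx y hy h
    exact Finset.single_le_sum (f := M₀) (fun _ _ => Nat.zero_le _)
      (hBfin.mem_toFinset.mpr hj)
  rw [← acl_bot]
  have hbot : (⊥ : IntermediateField k Ω) = IntermediateField.adjoin k ∅ := by simp
  rw [hbot, ← mem_matroid_closure]
  rcases B.eq_empty_or_nonempty with hBe | hBne
  · have h1 : x ∈ acl (IntermediateField.adjoin k B) := by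
      have h2 : IntermediateField.adjoin k S ≤ acl (IntermediateField.adjoin k B) := by
        rw [IntermediateField.adjoin_le_iff]
        intro s hs
        rw [SetLike.mem_coe, ← mem_matroid_closure, hB.closure_eq_closure]
        exact (AlgebraicIndependent.matroid k Ω).mem_closure_of_mem hs
      exact h2 hx
    rw [← mem_matroid_closure, hBe] at h1
    exact h1
  · have hJ := Matroid.Indep.closure_sInter_eq_biInter_closure_of_forall_subset hB.indep
      (Js := (fun j => B \ {j}) '' B) (hBne.image _) (by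
        rintro _ ⟨j, _, rfl⟩
        exact Set.sdiff_subset)
    have hempty : ⋂₀ ((fun j => B \ {j}) '' B) = ∅ := by
      rw [Set.eq_empty_iff_forall_notMem]
      intro a ha
      rw [Set.mem_sInter] at ha
      obtain ⟨j, hj⟩ := hBne
      have h1 : a ∈ B := (ha _ ⟨j, hj, rfl⟩).1
      exact (ha _ ⟨a, h1, rfl⟩).2 rfl
    rw [hempty] at hJ
    rw [hJ, Set.mem_iInter₂]
    rintro _ ⟨j, hj, rfl⟩
    rw [mem_matroid_closure]
    exact hall j hj

end

end Pool.Agent.H1.Ample
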