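import Mathlib

set_option autoImplicit false
set_option linter.unusedSectionVars false

namespace Pool.Agent.H1.Ample

open TensorProduct

section

variable {K Ω A : Type*} [Field K] [Field Ω] [Algebra K Ω] [CommRing A] [Algebra K A]

/-- base change of algebraic independence -/
theorem algebraicIndependent_baseChange {ι : Type*} {x : ι → A} (hx : AlgebraicIndependent K x) :
    AlgebraicIndependent Ω (fun i => (1 : Ω) ⊗ₜ[K] x i) := by
  have h1 : ∀ p : Ω ⊗[K] MvPolynomial ι K,
      MvPolynomial.aeval (fun i => (1 : Ω) ⊗ₜ[K] x i) (MvPolynomial.algebraTensorAlgEquiv K Ω p) =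
      LinearMap.lTensor Ω (MvPolynomial.aeval x : MvPolynomial ι K →ₐ[K] A).toLinearMap p := by
    intro p
    induction p using TensorProduct.induction_on with
    | zero => simp
    | add a b ha hb => rw [map_add, map_add, map_add, ha, hb]
    | tmul a f =>
      rw [MvPolynomial.algebraTensorAlgEquiv_tmul, map_smul, LinearMap.lTensor_tmul]
      have h2 : ∀ f : MvPolynomial ι K, MvPolynomial.aeval (fun i => (1 : Ω) ⊗ₜ[K] x i)
          (MvPolynomial.map (algebraMap K Ω) f) = (1 : Ω) ⊗ₜ[K] (MvPolynomial.aeval x f) := by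
        intro f
        induction f using MvPolynomial.induction_on with
        | C c =>
          rw [MvPolynomial.map_C, MvPolynomial.aeval_C, MvPolynomial.aeval_C,
            Algebra.TensorProduct.algebraMap_apply, Algebra.algebraMap_self, RingHom.id_apply,
            Algebra.algebraMap_eq_smul_one, Algebra.algebraMap_eq_smul_one,
            TensorProduct.smul_tmul]
        | add p q hp hq => rw [map_add, map_add, map_add, hp, hq, TensorProduct.tmul_add]
        | mul_X p i hp =>
          rw [map_mul, map_mul, map_mul, hp, MvPolynomial.map_X, MvPolynomial.aeval_X,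
            MvPolynomial.aeval_X, Algebra.TensorProduct.tmul_mul_tmul, one_mul]
      rw [h2, TensorProduct.smul_tmul', smul_eq_mul, mul_one]
      rfl
  have h3 : Function.Injective
      (LinearMap.lTensor Ω (MvPolynomial.aeval x : MvPolynomial ι K →ₐ[K] A).toLinearMap) :=
    Module.Flat.lTensor_preserves_injective_linearMap _ hx
  intro p q hpq
  obtain ⟨p', rfl⟩ := (MvPolynomial.algebraTensorAlgEquiv K Ω).surjective p
  obtain ⟨q', rfl⟩ := (MvPolynomial.algebraTensorAlgEquiv K Ω).surjective q
  rw [h1, h1] at hpq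
  rw [h3 hpq]

theorem transcendental_baseChange {x : A} (hx : Transcendental K x) :
    Transcendental Ω ((1 : Ω) ⊗ₜ[K] x) := by
  have h1 : AlgebraicIndependent K (fun _ : Unit => x) :=
    algebraicIndependent_unique_type_iff.mpr hx
  exact algebraicIndependent_unique_type_iff.mp (algebraicIndependent_baseChange (Ω := Ω) h1)

/-- descent of algebraicity -/
theorem algebraic_descent {z x : A} (hz : Transcendental K z)
    (h : IsAlgebraic (Algebra.adjoin Ω {(1 : Ω) ⊗ₜ[K] z}) ((1 : Ω) ⊗ₜ[K] x)) :
    IsAlgebraic (Algebra.adjoin K {z}) x := by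
  by_contra hx
  have hx' : Transcendental (Algebra.adjoin K {z}) x := hx
  have h1 : AlgebraicIndependent K (fun _ : Unit => z) :=
    algebraicIndependent_unique_type_iff.mpr hz
  have hr : Set.range (fun _ : Unit => z) = {z} := by simp
  have h2 := (AlgebraicIndependent.option_iff_transcendental h1 x).mpr (by rw [hr]; exact hx')
  have h3 := algebraicIndependent_baseChange (Ω := Ω) h2
  have h4 : AlgebraicIndependent Ω (fun _ : Unit => (1 : Ω) ⊗ₜ[K] z) :=
    algebraicIndependent_baseChange (Ω := Ω) h1
  have h5 := (AlgebraicIndependent.option_iff_transcendental h4 ((1 : Ω) ⊗ₜ[K] x)).mp (by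
    convert! h3 using 1
    funext o
    cases o <;> rfl)
  have hr2 : Set.range (fun _ : Unit => (1 : Ω) ⊗ₜ[K] z) = {(1 : Ω) ⊗ₜ[K] z} := by simp
  rw [hr2] at h5
  exact h5 h

end

section LemmaG

variable {K F Ω A : Type*} [Field K] [Field F] [Field Ω] [Algebra K Ω] [Algebra K F] [Algebra F Ω]
  [IsScalarTower K F Ω] [CommRing A] [Algebra K A]

theorem map_tensor_injective :
    Function.Injective (Algebra.TensorProduct.map (IsScalarTower.toAlgHom K F Ω)
      (AlgHom.id K A) : F ⊗[K] A →ₐ[K] Ω ⊗[K] A) := by
  have h1 : Function.Injective (LinearMap.rTensor A (IsScalarTower.toAlgHom K F Ω).toLinearMap) :=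
    Module.Flat.rTensor_preserves_injective_linearMap _ (algebraMap F Ω).injective
  exact h1

theorem isDomain_tensor (hdom : IsDomain (Ω ⊗[K] A)) : IsDomain (F ⊗[K] A) :=
  Function.Injective.isDomain
    (Algebra.TensorProduct.map (IsScalarTower.toAlgHom K F Ω)
      (AlgHom.id K A) : F ⊗[K] A →ₐ[K] Ω ⊗[K] A).toRingHom map_tensor_injective

theorem includeRight_injective' :
    Function.Injective (Algebra.TensorProduct.includeRight : A →ₐ[K] F ⊗[K] A) :=
  Algebra.TensorProduct.includeRight_injective (algebraMap K F).injective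

/-- **Lemma G**: generic homomorphisms are injective after scalar extension -/
theorem lift_injective (hdom : IsDomain (Ω ⊗[K] A)) {z : A}
    (halg : ∀ a : A, IsAlgebraic (Algebra.adjoin K {z}) a) (φ : A →ₐ[K] Ω)
    (hz : Transcendental F (φ z)) :
    Function.Injective (Algebra.TensorProduct.lift (Algebra.ofId F Ω) φ
      (fun _ _ => Commute.all _ _) : F ⊗[K] A →ₐ[F] Ω) := by
  have hB : IsDomain (F ⊗[K] A) := isDomain_tensor (Ω := Ω) hdom
  set g : F ⊗[K] A →ₐ[F] Ω := Algebra.TensorProduct.lift (Algebra.ofId F Ω) φ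
      (fun _ _ => Commute.all _ _) with hg
  set z' : F ⊗[K] A := (1 : F) ⊗ₜ[K] z with hz'
  have hgz : g z' = φ z := by
    rw [hg, hz', Algebra.TensorProduct.lift_tmul, map_one, one_mul]
  let R := Algebra.adjoin F {z'}
  -- the homomorphism between the base rings
  let incl : A →ₐ[K] F ⊗[K] A := Algebra.TensorProduct.includeRight
  have hle : ∀ a ∈ Algebra.adjoin K {z}, incl a ∈ R := by
    intro a ha
    induction ha using Algebra.adjoin_induction with
    | mem x hx => rw [Set.mem_singleton_iff] at hx; rw [hx]; exact Algebra.subset_adjoin rfl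
    | algebraMap r =>
      rw [AlgHom.commutes, IsScalarTower.algebraMap_apply K F (F ⊗[K] A)]
      exact R.algebraMap_mem _
    | add x y _ _ hx hy => rw [map_add]; exact add_mem hx hy
    | mul x y _ _ hx hy => rw [map_mul]; exact mul_mem hx hy
  let f : Algebra.adjoin K {z} →+* R :=
    { toFun := fun a => ⟨incl a, hle a a.2⟩
      map_one' := Subtype.ext (map_one incl)
      map_mul' := fun a b => Subtype.ext (map_mul incl _ _)
      map_zero' := Subtype.ext (map_zero incl)
      map_add' := fun a b => Subtype.ext (map_add incl _ _) }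
  have hf : Function.Injective f := by
    intro a b hab
    have h1 : incl a = incl b := congrArg Subtype.val hab
    exact Subtype.ext (includeRight_injective' h1)
  have hAalg : ∀ a : A, IsAlgebraic R (incl a) := fun a =>
    IsAlgebraic.ringHom_of_comp_eq f (incl : A →+* F ⊗[K] A) (halg a) hf (RingHom.ext fun _ => rfl)
  have hall : ∀ b : F ⊗[K] A, IsAlgebraic R b := by
    intro b
    induction b using TensorProduct.induction_on with
    | zero => exact isAlgebraic_zero
    | add a b ha hb => exact ha.add hb
    | tmul a x =>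
      have h1 : a ⊗ₜ[K] x = (algebraMap R (F ⊗[K] A) (algebraMap F R a)) * incl x := by
        have h2 : (algebraMap R (F ⊗[K] A) (algebraMap F R a)) = a ⊗ₜ[K] (1 : A) := rfl
        rw [h2]
        change a ⊗ₜ[K] x = (a ⊗ₜ[K] (1 : A)) * ((1 : F) ⊗ₜ[K] x)
        rw [Algebra.TensorProduct.tmul_mul_tmul, one_mul, mul_one]
      rw [h1]
      exact (isAlgebraic_algebraMap _).mul (hAalg x)
  rw [injective_iff_map_eq_zero]
  intro b hb
  by_contra hb0
  obtain ⟨r, hr0, hdvd⟩ := (hall b).exists_nonzero_dvd (mem_nonZeroDivisors_of_ne_zero hb0)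
  obtain ⟨c, hc⟩ := hdvd
  have h1 : g (r : F ⊗[K] A) = 0 := by
    have : (algebraMap R (F ⊗[K] A) r) = (r : F ⊗[K] A) := rfl
    rw [← this, hc, map_mul, hb, zero_mul]
  have h2 := r.2
  change (r : F ⊗[K] A) ∈ Algebra.adjoin F {z'} at h2
  rw [Algebra.adjoin_singleton_eq_range_aeval] at h2
  obtain ⟨p, hp⟩ := h2
  change Polynomial.aeval z' p = (r : F ⊗[K] A) at hp
  rw [← hp] at h1
  have h3 : g (Polynomial.aeval z' p) = Polynomial.aeval (φ z) p := by
    rw [← hgz, Polynomial.aeval_algHom_apply]
  rw [h3] at h1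
  have hp0 := (transcendental_iff.mp hz) p h1
  rw [hp0, map_zero] at hp
  exact hr0 (Subtype.ext hp.symm)

end LemmaG

end Pool.Agent.H1.Ample
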