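import Mathlib
import Pool.Agent.H1.Ample.LemmaB
import Pool.Agent.H1.Ample.TensorAux

set_option autoImplicit false
set_option linter.unusedSectionVars false

namespace Pool.Agent.H1.Ample

open scoped IntermediateField.algebraAdjoinAdjoin
open scoped IntermediateField
open TensorProduct

section

variable {K Ω A : Type*} [Field K] [Field Ω] [Algebra K Ω] [CommRing A] [Algebra K A]

/-- the evaluation map `f ⊗ (x ⊗ y) ↦ f φ(x) ψ(y)` -/
noncomputable def Psi (F : Type*) [Field F] [Algebra K F] [Algebra F Ω] [IsScalarTower K F Ω]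
    (φa φb : A →ₐ[K] Ω) : F ⊗[K] (A ⊗[K] A) →ₐ[F] Ω :=
  Algebra.TensorProduct.lift (Algebra.ofId F Ω)
    (Algebra.TensorProduct.lift φa φb (fun _ _ => Commute.all _ _)) (fun _ _ => Commute.all _ _)

theorem Psi_tmul (F : Type*) [Field F] [Algebra K F] [Algebra F Ω] [IsScalarTower K F Ω]
    (φa φb : A →ₐ[K] Ω) (f : F) (x y : A) :
    Psi F φa φb (f ⊗ₜ (x ⊗ₜ y)) = algebraMap F Ω f * (φa x * φb y) := rfl

theorem Psi_injective (F : Type*) [Field F] [Algebra K F] [Algebra F Ω] [IsScalarTower K F Ω]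
    (F₁ : IntermediateField K Ω) (hle : ∀ f : F, algebraMap F Ω f ∈ F₁) (φa φb : A →ₐ[K] Ω)
    (hdom : IsDomain (Ω ⊗[K] A)) {z : A}
    (halg : ∀ a : A, IsAlgebraic (Algebra.adjoin K {z}) a)
    (hφa : ∀ x, φa x ∈ F₁) (ha : Transcendental F (φa z)) (hb : Transcendental F₁ (φb z)) :
    Function.Injective (Psi F φa φb) := by
  set l₁ : F ⊗[K] A →ₐ[F] Ω := Algebra.TensorProduct.lift (Algebra.ofId F Ω) φa
      (fun _ _ => Commute.all _ _) with hl₁
  have hl₁inj : Function.Injective l₁ := lift_injective hdom halg φa ha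
  set l₂ : F₁ ⊗[K] A →ₐ[F₁] Ω := Algebra.TensorProduct.lift (Algebra.ofId F₁ Ω) φb
      (fun _ _ => Commute.all _ _) with hl₂
  have hl₂inj : Function.Injective l₂ := lift_injective hdom halg φb hb
  have hmem : ∀ t, l₁ t ∈ F₁ := by
    intro t
    induction t using TensorProduct.induction_on with
    | zero => rw [map_zero]; exact zero_mem _
    | add a b ha hb => rw [map_add]; exact add_mem ha hb
    | tmul f x => exact mul_mem (hle f) (hφa x)
  let g₁ : F ⊗[K] A →ₗ[K] F₁ :=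
    { toFun := fun t => ⟨l₁ t, hmem t⟩
      map_add' := fun a b => Subtype.ext (map_add l₁ a b)
      map_smul' := fun c a => Subtype.ext (by
        have h1 : l₁ (c • a) = c • l₁ a := map_smul (l₁.restrictScalars K) c a
        exact h1) }
  have hg₁ : Function.Injective g₁ := by
    intro a b hab
    exact hl₁inj (congrArg Subtype.val hab)
  have hm : Function.Injective (LinearMap.rTensor A g₁) :=
    Module.Flat.rTensor_preserves_injective_linearMap _ hg₁
  have key : ∀ t : (F ⊗[K] A) ⊗[K] A, l₂ (LinearMap.rTensor A g₁ t) =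
      Psi F φa φb (TensorProduct.assoc K F A A t) := by
    intro t
    induction t using TensorProduct.induction_on with
    | zero => simp
    | add a b ha hb => rw [map_add, map_add, map_add, map_add, ha, hb]
    | tmul s y =>
      induction s using TensorProduct.induction_on with
      | zero => simp
      | add a b ha hb =>
        rw [TensorProduct.add_tmul, map_add, map_add, map_add, map_add, ha, hb]
      | tmul f x =>
        rw [TensorProduct.assoc_tmul, Psi_tmul, LinearMap.rTensor_tmul]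
        change (algebraMap F Ω f) * φa x * φb y = _
        ring
  intro s t hst
  have h1 := key ((TensorProduct.assoc K F A A).symm s)
  have h2 := key ((TensorProduct.assoc K F A A).symm t)
  rw [LinearEquiv.apply_symm_apply] at h1 h2
  have h3 : (TensorProduct.assoc K F A A).symm s = (TensorProduct.assoc K F A A).symm t :=
    hm (hl₂inj (by rw [h1, h2, hst]))
  exact (TensorProduct.assoc K F A A).symm.injective h3

theorem mem_acl_iff_poly {u x : Ω} (hu : Transcendental K u) :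
    x ∈ acl K⟮u⟯ ↔ ∃ P : Polynomial (Polynomial K), P ≠ 0 ∧
      P.eval₂ ((Polynomial.aeval u : Polynomial K →ₐ[K] Ω) : Polynomial K →+* Ω) x = 0 := by
  rw [mem_acl, ← IsFractionRing.isAlgebraic_iff (Algebra.adjoin K {u}) K⟮u⟯ Ω]
  obtain ⟨e, he⟩ : ∃ e : Polynomial K ≃ₐ[K] Algebra.adjoin K {u},
      ∀ p, ((e p : Algebra.adjoin K {u}) : Ω) = Polynomial.aeval u p := by
    refine ⟨Polynomial.algEquivOfTranscendental K u hu, fun p => ?_⟩
    rw [Polynomial.algEquivOfTranscendental_apply K u hu p]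
    exact (Polynomial.aeval_algHom_apply (Algebra.adjoin K {u}).val _ p).symm
  constructor
  · rintro ⟨P, hP, hPx⟩
    refine ⟨P.map (e.symm : Algebra.adjoin K {u} →+* Polynomial K), ?_, ?_⟩
    · rw [Ne, Polynomial.map_eq_zero_iff (e.symm.injective)]
      exact hP
    · rw [Polynomial.eval₂_map]
      rw [Polynomial.aeval_def] at hPx
      convert! hPx using 2
      ext a
      change Polynomial.aeval u (e.symm a) = (a : Ω)
      rw [← he, AlgEquiv.apply_symm_apply]
  · rintro ⟨P, hP, hPx⟩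
    refine ⟨P.map (e : Polynomial K →+* Algebra.adjoin K {u}), ?_, ?_⟩
    · rw [Ne, Polynomial.map_eq_zero_iff (e.injective)]
      exact hP
    · rw [Polynomial.aeval_def, Polynomial.eval₂_map]
      convert! hPx using 2
      ext a
      · change ((e (Polynomial.C a) : Algebra.adjoin K {u}) : Ω) = Polynomial.aeval u (Polynomial.C a)
        rw [he]
      · change ((e (Polynomial.X) : Algebra.adjoin K {u}) : Ω) = Polynomial.aeval u (Polynomial.X)
        rw [he]

/-- images of elements algebraic over `K[z]` -/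
theorem mem_acl_of_hom (φ : A →ₐ[K] Ω) (hφ : Function.Injective φ) {z a : A}
    (h : IsAlgebraic (Algebra.adjoin K {z}) a) : φ a ∈ acl K⟮φ z⟯ := by
  rw [mem_acl, ← IsFractionRing.isAlgebraic_iff (Algebra.adjoin K {φ z}) K⟮φ z⟯ Ω]
  have hle : ∀ a ∈ Algebra.adjoin K {z}, φ a ∈ Algebra.adjoin K {φ z} := by
    intro a ha
    induction ha using Algebra.adjoin_induction with
    | mem x hx => rw [Set.mem_singleton_iff] at hx; rw [hx]; exact Algebra.subset_adjoin rfl
    | algebraMap r => rw [AlgHom.commutes]; exact Subalgebra.algebraMap_mem _ _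
    | add x y _ _ hx hy => rw [map_add]; exact add_mem hx hy
    | mul x y _ _ hx hy => rw [map_mul]; exact mul_mem hx hy
  let f : Algebra.adjoin K {z} →+* Algebra.adjoin K {φ z} :=
    { toFun := fun a => ⟨φ a, hle a a.2⟩
      map_one' := Subtype.ext (map_one φ)
      map_mul' := fun a b => Subtype.ext (map_mul φ _ _)
      map_zero' := Subtype.ext (map_zero φ)
      map_add' := fun a b => Subtype.ext (map_add φ _ _) }
  exact IsAlgebraic.ringHom_of_comp_eq f (φ : A →+* Ω) h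
    (fun a b hab => Subtype.ext (hφ (congrArg Subtype.val hab))) (RingHom.ext fun _ => rfl)

end

section Galois

universe u v w

variable {K : Type*} {F : Type w} {Ω : Type u} {A : Type v} [Field K] [Field F] [Field Ω]
  [Algebra K F] [Algebra F Ω] [Algebra K Ω] [IsScalarTower K F Ω] [CommRing A] [Algebra K A]

/-- The twisted automorphisms. -/
theorem exists_twist (φa φb : A →ₐ[K] Ω)
    (hinj : Function.Injective (Psi F φa φb)) (γ : F ≃ₐ[K] F)
    (τ : (A ⊗[K] A) ≃ₐ[K] (A ⊗[K] A)) :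
    ∃ (Q : Type (max w v)) (_ : Field Q) (ι : F ⊗[K] (A ⊗[K] A) →+* Q) (Θ : Q →+* Ω) (Sg : Q →+* Q),
      (∀ t, Θ (ι t) = Psi F φa φb t) ∧
      (∀ t, Sg (ι t) = ι (Algebra.TensorProduct.congr γ τ t)) := by
  have hdom : IsDomain (F ⊗[K] (A ⊗[K] A)) :=
    Function.Injective.isDomain (Psi F φa φb).toRingHom hinj
  have hinj' : Function.Injective (Psi F φa φb).toRingHom := hinj
  refine ⟨FractionRing (F ⊗[K] (A ⊗[K] A)), inferInstance,
    algebraMap (F ⊗[K] (A ⊗[K] A)) (FractionRing (F ⊗[K] (A ⊗[K] A))),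
    IsFractionRing.lift (A := F ⊗[K] (A ⊗[K] A)) (K := FractionRing (F ⊗[K] (A ⊗[K] A)))
      (L := Ω) (g := (Psi F φa φb).toRingHom) hinj', (IsFractionRing.ringEquivOfRingEquiv
      (K := FractionRing (F ⊗[K] (A ⊗[K] A)))
      (L := FractionRing (F ⊗[K] (A ⊗[K] A)))
      (Algebra.TensorProduct.congr γ τ).toRingEquiv).toRingHom, ?_, ?_⟩
  · intro t
    exact IsFractionRing.lift_algebraMap hinj' t
  · intro t
    exact IsFractionRing.ringEquivOfRingEquiv_algebraMap _ t

/-- elements of the fixed field -/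
theorem exists_fixed {φa φb : A →ₐ[K] Ω}
    {γ : F ≃ₐ[K] F} {τ : (A ⊗[K] A) ≃ₐ[K] (A ⊗[K] A)}
    {Q : Type*} [Field Q] (ι : F ⊗[K] (A ⊗[K] A) →+* Q) (Θ : Q →+* Ω) (Sg : Q →+* Q)
    (hΘ : ∀ t, Θ (ι t) = Psi F φa φb t)
    (hSg : ∀ t, Sg (ι t) = ι (Algebra.TensorProduct.congr γ τ t))
    {S : Set Ω} (hS : ∀ s ∈ S, ∃ t, Psi F φa φb t = s ∧ Algebra.TensorProduct.congr γ τ t = t)
    {x : Ω} (hx : x ∈ IntermediateField.adjoin K S) : ∃ q : Q, Sg q = q ∧ Θ q = x := by
  induction hx using IntermediateField.adjoin_induction with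
  | mem x hx =>
    obtain ⟨t, ht1, ht2⟩ := hS x hx
    exact ⟨ι t, by rw [hSg, ht2], by rw [hΘ, ht1]⟩
  | algebraMap r =>
    refine ⟨ι ((algebraMap K F r) ⊗ₜ[K] ((1 : A) ⊗ₜ[K] (1 : A))), ?_, ?_⟩
    · rw [hSg, Algebra.TensorProduct.congr_apply, Algebra.TensorProduct.map_tmul]
      change ι ((γ (algebraMap K F r)) ⊗ₜ[K] (τ (1 : A ⊗[K] A))) = _
      rw [AlgEquiv.commutes, map_one]
      rfl
    · rw [hΘ, Psi_tmul, map_one, map_one, mul_one, mul_one, ← IsScalarTower.algebraMap_apply]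
  | add x y _ _ hx hy =>
    obtain ⟨p, hp1, hp2⟩ := hx
    obtain ⟨q, hq1, hq2⟩ := hy
    exact ⟨p + q, by rw [map_add, hp1, hq1], by rw [map_add, hp2, hq2]⟩
  | mul x y _ _ hx hy =>
    obtain ⟨p, hp1, hp2⟩ := hx
    obtain ⟨q, hq1, hq2⟩ := hy
    exact ⟨p * q, by rw [map_mul, hp1, hq1], by rw [map_mul, hp2, hq2]⟩
  | inv x _ hx =>
    obtain ⟨p, hp1, hp2⟩ := hx
    exact ⟨p⁻¹, by rw [map_inv₀, hp1], by rw [map_inv₀, hp2]⟩

/-- algebraic elements of the fixed field are fixed by `γ` -/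
theorem fixed_of_mem {φa φb : A →ₐ[K] Ω}
    (hinj : Function.Injective (Psi F φa φb)) {γ : F ≃ₐ[K] F}
    {τ : (A ⊗[K] A) ≃ₐ[K] (A ⊗[K] A)}
    {S : Set Ω} (hS : ∀ s ∈ S, ∃ t, Psi F φa φb t = s ∧ Algebra.TensorProduct.congr γ τ t = t)
    (f : F) (hx : algebraMap F Ω f ∈ IntermediateField.adjoin K S) :
    γ f = f := by
  obtain ⟨Q, iQ, ι, Θ, Sg, hΘ, hSg⟩ := exists_twist φa φb hinj γ τ
  obtain ⟨q, hq1, hq2⟩ := exists_fixed ι Θ Sg hΘ hSg hS hx
  have h0 : ∀ g : F, Θ (ι (g ⊗ₜ[K] (1 : A ⊗[K] A))) = algebraMap F Ω g := by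
    intro g
    rw [hΘ, Algebra.TensorProduct.one_def, Psi_tmul, map_one, map_one, mul_one, mul_one]
  have h2 : q = ι (f ⊗ₜ[K] (1 : A ⊗[K] A)) := Θ.injective (by rw [h0, hq2])
  have h3 := hq1
  rw [h2, hSg, Algebra.TensorProduct.congr_apply, Algebra.TensorProduct.map_tmul] at h3
  change ι ((γ f) ⊗ₜ[K] (τ (1 : A ⊗[K] A))) = _ at h3
  rw [map_one] at h3
  have h4 := congrArg Θ h3
  rw [h0, h0] at h4
  exact (algebraMap F Ω).injective h4

/-- the swap moves `cl(K(φa z))` to `cl(K(φb z))` -/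
theorem swap_mem {φa φb : A →ₐ[K] Ω}
    (hinj : Function.Injective (Psi F φa φb)) {γ : F ≃ₐ[K] F} {z : A}
    (ha : Transcendental K (φa z)) (hb : Transcendental K (φb z))
    {S : Set Ω} (hS : ∀ s ∈ S, ∃ t, Psi F φa φb t = s ∧
      Algebra.TensorProduct.congr γ (Algebra.TensorProduct.comm K A A) t = t)
    {x : Ω} (hx : x ∈ IntermediateField.adjoin K S) (hxa : x ∈ acl K⟮φa z⟯) :
    x ∈ acl K⟮φb z⟯ := by
  obtain ⟨Q, iQ, ι, Θ, Sg, hΘ, hSg⟩ := exists_twist φa φb hinj γ
    (Algebra.TensorProduct.comm K A A)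
  obtain ⟨q, hq1, hq2⟩ := exists_fixed ι Θ Sg hΘ hSg hS hx
  rw [mem_acl_iff_poly ha] at hxa
  obtain ⟨P, hP, hPx⟩ := hxa
  rw [mem_acl_iff_poly hb]
  refine ⟨P, hP, ?_⟩
  let j : Polynomial K →+* Q := ι.comp
    (Polynomial.aeval ((1 : F) ⊗ₜ[K] (z ⊗ₜ[K] (1 : A))) :
      Polynomial K →ₐ[K] F ⊗[K] (A ⊗[K] A)).toRingHom
  have h1 : ((Polynomial.aeval (φa z) : Polynomial K →ₐ[K] Ω) : Polynomial K →+* Ω) =
      Θ.comp j := by
    ext a
    · change Polynomial.aeval (φa z) (Polynomial.C a) =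
        Θ (ι (Polynomial.aeval _ (Polynomial.C a)))
      rw [hΘ, Polynomial.aeval_C, Polynomial.aeval_C]
      exact (((Psi F φa φb).restrictScalars K).commutes a).symm
    · change Polynomial.aeval (φa z) Polynomial.X = Θ (ι (Polynomial.aeval _ Polynomial.X))
      rw [hΘ, Polynomial.aeval_X, Polynomial.aeval_X, Psi_tmul, map_one, map_one, mul_one, one_mul]
  have h2 : ((Polynomial.aeval (φb z) : Polynomial K →ₐ[K] Ω) : Polynomial K →+* Ω) =
      Θ.comp (Sg.comp j) := by
    ext a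
    · change Polynomial.aeval (φb z) (Polynomial.C a) =
        Θ (Sg (ι (Polynomial.aeval _ (Polynomial.C a))))
      rw [hSg, hΘ, Polynomial.aeval_C, Polynomial.aeval_C, AlgEquiv.commutes]
      exact (((Psi F φa φb).restrictScalars K).commutes a).symm
    · change Polynomial.aeval (φb z) Polynomial.X =
        Θ (Sg (ι (Polynomial.aeval _ Polynomial.X)))
      rw [hSg, hΘ, Polynomial.aeval_X, Polynomial.aeval_X]
      change φb z = Psi F φa φb ((γ 1 : F) ⊗ₜ[K] ((1 : A) ⊗ₜ[K] z))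
      rw [Psi_tmul, map_one, map_one, map_one, one_mul, one_mul]
  rw [h1, ← hq2, ← Polynomial.hom_eval₂] at hPx
  have h3 : P.eval₂ j q = 0 := by
    apply Θ.injective
    rw [hPx, map_zero]
  have h4 : P.eval₂ (Sg.comp j) q = 0 := by
    have := congrArg Sg h3
    rw [Polynomial.hom_eval₂, hq1, map_zero] at this
    exact this
  rw [h2, ← hq2, ← Polynomial.hom_eval₂, h4, map_zero]

end Galois

end Pool.Agent.H1.Ample
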