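import Mathlib
import Pool.Agent.H1.Ample.Step
import Pool.Agent.H1.Ample.PrFG

set_option autoImplicit false
set_option linter.unusedSectionVars false

namespace Pool.Agent.H1.Ample

open scoped IntermediateField.algebraAdjoinAdjoin
open scoped IntermediateField
open TensorProduct

section

universe u v w

variable {K : Type*} {F : Type w} {Ω : Type u} {A : Type v} [Field K] [Field F] [Field Ω]
  [Algebra K F] [Algebra F Ω] [Algebra K Ω] [IsScalarTower K F Ω] [CommRing A] [Algebra K A]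

/-- generators of the new field -/
def stepGens {r : ℕ} (x : Fin r → A) (φa φb : A →ₐ[K] Ω) (ρ : Ω) : Set Ω :=
  (Set.range fun l => φa (x l) + φb (x l)) ∪ Set.range fun l => ρ * (φa (x l) - φb (x l))

theorem gens_fixed {r : ℕ} (x : Fin r → A) (φa φb : A →ₐ[K] Ω) (ρF : F)
    (L : IntermediateField K Ω) (hL : ∀ s ∈ L, ∃ f : F, algebraMap F Ω f = s)
    (γ : F ≃ₐ[K] F) (hγ : γ ∈ (L.comap (IsScalarTower.toAlgHom K F Ω)).fixingSubgroup)
    (τ : (A ⊗[K] A) ≃ₐ[K] (A ⊗[K] A))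
    (hτ : (γ ρF = ρF ∧ τ = AlgEquiv.refl) ∨
      (γ ρF = -ρF ∧ τ = Algebra.TensorProduct.comm K A A)) :
    ∀ s ∈ (L : Set Ω) ∪ stepGens x φa φb (algebraMap F Ω ρF),
      ∃ t, Psi F φa φb t = s ∧ Algebra.TensorProduct.congr γ τ t = t := by
  have hcongr : ∀ (f : F) (a : A ⊗[K] A), Algebra.TensorProduct.congr γ τ (f ⊗ₜ[K] a) =
      (γ f) ⊗ₜ[K] (τ a) := fun f a => rfl
  rintro s (hs | ⟨l, rfl⟩ | ⟨l, rfl⟩)
  · obtain ⟨f, rfl⟩ := hL s hs
    refine ⟨f ⊗ₜ[K] ((1 : A) ⊗ₜ[K] (1 : A)), ?_, ?_⟩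
    · rw [Psi_tmul, map_one, map_one, mul_one, mul_one]
    · rw [hcongr]
      have h1 : γ f = f := by
        rw [IntermediateField.mem_fixingSubgroup_iff] at hγ
        exact hγ f hs
      have h2 : τ ((1 : A) ⊗ₜ[K] (1 : A)) = (1 : A) ⊗ₜ[K] (1 : A) := by
        rw [← Algebra.TensorProduct.one_def, map_one]
      rw [h1, h2]
  · refine ⟨(1 : F) ⊗ₜ[K] (x l ⊗ₜ[K] (1 : A)) + (1 : F) ⊗ₜ[K] ((1 : A) ⊗ₜ[K] x l), ?_, ?_⟩
    · rw [map_add, Psi_tmul, Psi_tmul, map_one, map_one, map_one, one_mul, one_mul, mul_one,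
        one_mul]
    · rw [map_add, hcongr, hcongr, map_one]
      rcases hτ with ⟨_, rfl⟩ | ⟨_, rfl⟩
      · rfl
      · rw [Algebra.TensorProduct.comm_tmul, Algebra.TensorProduct.comm_tmul, add_comm]
  · refine ⟨ρF ⊗ₜ[K] (x l ⊗ₜ[K] (1 : A)) - ρF ⊗ₜ[K] ((1 : A) ⊗ₜ[K] x l), ?_, ?_⟩
    · rw [map_sub, Psi_tmul, Psi_tmul, map_one, map_one]
      ring
    · rw [map_sub, hcongr, hcongr]
      rcases hτ with ⟨h, rfl⟩ | ⟨h, rfl⟩
      · rw [h]; rfl
      · rw [h, Algebra.TensorProduct.comm_tmul, Algebra.TensorProduct.comm_tmul,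
          TensorProduct.neg_tmul, TensorProduct.neg_tmul]
        abel

/-- first half of the step: no new algebraic elements -/
theorem step_alg [IsGalois K F] (hF : ∀ x : Ω, IsAlgebraic K x → ∃ f : F, algebraMap F Ω f = x)
    {r : ℕ} (x : Fin r → A) (φa φb : A →ₐ[K] Ω)
    (hinj : Function.Injective (Psi F φa φb)) (ρ : Ω) (hρ2 : ρ ^ 2 ∈ (⊥ : IntermediateField K Ω))
    (L : IntermediateField K Ω) (hL : L ≤ acl ⊥) {s : Ω} (hs : s ∈ acl (⊥ : IntermediateField K Ω))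
    (hsL : s ∈ L ⊔ IntermediateField.adjoin K (stepGens x φa φb ρ)) : s ∈ L := by
  have hL' : ∀ s ∈ L, ∃ f : F, algebraMap F Ω f = s := fun s hs => hF s (mem_acl_bot.mp (hL hs))
  have hρalg : IsAlgebraic K ρ := by
    rw [← mem_acl_bot, mem_acl]
    refine IsIntegral.isAlgebraic ⟨Polynomial.X ^ 2 - Polynomial.C ⟨ρ ^ 2, hρ2⟩, ?_, ?_⟩
    · exact Polynomial.monic_X_pow_sub_C _ (by norm_num)
    · rw [Polynomial.eval₂_sub, Polynomial.eval₂_X_pow, Polynomial.eval₂_C]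
      exact sub_self _
  obtain ⟨ρF, rfl⟩ := hF ρ hρalg
  obtain ⟨f, rfl⟩ := hF s (mem_acl_bot.mp hs)
  have hsL' : algebraMap F Ω f ∈ IntermediateField.adjoin K
      ((L : Set Ω) ∪ stepGens x φa φb (algebraMap F Ω ρF)) := by
    rw [← acl_sup_adjoin]; exact hsL
  change f ∈ L.comap (IsScalarTower.toAlgHom K F Ω)
  rw [← InfiniteGalois.fixedField_fixingSubgroup (L.comap (IsScalarTower.toAlgHom K F Ω)),
    IntermediateField.mem_fixedField_iff]
  intro γ hγ
  obtain ⟨c, hc⟩ := IntermediateField.mem_bot.mp hρ2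
  have hγρ : γ ρF = ρF ∨ γ ρF = -ρF := by
    have h1 : ρF ^ 2 = algebraMap K F c := by
      apply (algebraMap F Ω).injective
      rw [map_pow, ← hc, ← IsScalarTower.algebraMap_apply]
    have h2 : (γ ρF) ^ 2 = ρF ^ 2 := by rw [← map_pow, h1, AlgEquiv.commutes]
    exact sq_eq_sq_iff_eq_or_eq_neg.mp h2
  rcases hγρ with h | h
  · exact fixed_of_mem hinj (gens_fixed x φa φb ρF L hL' γ hγ AlgEquiv.refl (Or.inl ⟨h, rfl⟩)) f hsL'
  · exact fixed_of_mem hinj (gens_fixed x φa φb ρF L hL' γ hγ _ (Or.inr ⟨h, rfl⟩)) f hsL'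

/-- the swap is available when `ρ ∉ L` -/
theorem step_swap [IsGalois K F] (hF : ∀ x : Ω, IsAlgebraic K x → ∃ f : F, algebraMap F Ω f = x)
    {r : ℕ} (x : Fin r → A) (φa φb : A →ₐ[K] Ω)
    (hinj : Function.Injective (Psi F φa φb)) (ρ : Ω) (hρ2 : ρ ^ 2 ∈ (⊥ : IntermediateField K Ω))
    (L : IntermediateField K Ω) (hL : L ≤ acl ⊥) (hρL : ρ ∉ L) {z : A}
    (ha : Transcendental K (φa z)) (hb : Transcendental K (φb z)) {s : Ω}
    (hsL : s ∈ L ⊔ IntermediateField.adjoin K (stepGens x φa φb ρ))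
    (hsa : s ∈ acl K⟮φa z⟯ ∨ s ∈ acl K⟮φb z⟯) : s ∈ acl K⟮φa z⟯ ∧ s ∈ acl K⟮φb z⟯ := by
  have hL' : ∀ s ∈ L, ∃ f : F, algebraMap F Ω f = s := fun s hs => hF s (mem_acl_bot.mp (hL hs))
  have hρalg : IsAlgebraic K ρ := by
    rw [← mem_acl_bot, mem_acl]
    refine IsIntegral.isAlgebraic ⟨Polynomial.X ^ 2 - Polynomial.C ⟨ρ ^ 2, hρ2⟩, ?_, ?_⟩
    · exact Polynomial.monic_X_pow_sub_C _ (by norm_num)
    · rw [Polynomial.eval₂_sub, Polynomial.eval₂_X_pow, Polynomial.eval₂_C]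
      exact sub_self _
  obtain ⟨ρF, rfl⟩ := hF ρ hρalg
  obtain ⟨c, hc⟩ := IntermediateField.mem_bot.mp hρ2
  have hγρ : ∀ γ : F ≃ₐ[K] F, γ ρF = ρF ∨ γ ρF = -ρF := by
    intro γ
    have h1 : ρF ^ 2 = algebraMap K F c := by
      apply (algebraMap F Ω).injective
      rw [map_pow, ← hc, ← IsScalarTower.algebraMap_apply]
    have h2 : (γ ρF) ^ 2 = ρF ^ 2 := by rw [← map_pow, h1, AlgEquiv.commutes]
    exact sq_eq_sq_iff_eq_or_eq_neg.mp h2
  -- find the automorphism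
  obtain ⟨γ, hγ, hγn⟩ : ∃ γ ∈ (L.comap (IsScalarTower.toAlgHom K F Ω)).fixingSubgroup,
      γ ρF = -ρF := by
    by_contra hcon
    push Not at hcon
    apply hρL
    change ρF ∈ L.comap (IsScalarTower.toAlgHom K F Ω)
    rw [← InfiniteGalois.fixedField_fixingSubgroup (L.comap (IsScalarTower.toAlgHom K F Ω)),
      IntermediateField.mem_fixedField_iff]
    intro γ hγ
    rcases hγρ γ with h | h
    · exact h
    · exact absurd h (hcon γ hγ)
  have hS := gens_fixed x φa φb ρF L hL' γ hγ _ (Or.inr ⟨hγn, rfl⟩)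
  have hsL' : s ∈ IntermediateField.adjoin K
      ((L : Set Ω) ∪ stepGens x φa φb (algebraMap F Ω ρF)) := by
    rw [← acl_sup_adjoin]; exact hsL
  rcases hsa with h | h
  · exact ⟨h, swap_mem hinj ha hb hS hsL' h⟩
  · refine ⟨?_, h⟩
    -- use the symmetric situation
    have hinj' : Function.Injective (Psi F φb φa) := by
      have h1 : ∀ t, Psi F φb φa t = Psi F φa φb
          (Algebra.TensorProduct.congr (AlgEquiv.refl : F ≃ₐ[K] F)
            (Algebra.TensorProduct.comm K A A) t) := by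
        intro t
        induction t using TensorProduct.induction_on with
        | zero => rw [map_zero, map_zero, map_zero]
        | add a b ha hb => rw [map_add, map_add, map_add, ha, hb]
        | tmul f y =>
          induction y using TensorProduct.induction_on with
          | zero => rw [TensorProduct.tmul_zero, map_zero, map_zero, map_zero]
          | add a b ha hb => rw [TensorProduct.tmul_add, map_add, map_add, map_add, ha, hb]
          | tmul y z =>
            rw [Psi_tmul]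
            change _ = Psi F φa φb (f ⊗ₜ[K] (z ⊗ₜ[K] y))
            rw [Psi_tmul]
            ring
      intro s t hst
      rw [h1, h1] at hst
      exact (Algebra.TensorProduct.congr (AlgEquiv.refl : F ≃ₐ[K] F)
            (Algebra.TensorProduct.comm K A A)).injective (hinj hst)
    have hS' : ∀ s ∈ (L : Set Ω) ∪ stepGens x φa φb (algebraMap F Ω ρF),
        ∃ t, Psi F φb φa t = s ∧
          Algebra.TensorProduct.congr γ (Algebra.TensorProduct.comm K A A) t = t := by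
      intro s hs
      have hS2 := gens_fixed x φb φa ρF L hL' γ hγ _ (Or.inr ⟨hγn, rfl⟩)
      rcases hs with hs | ⟨l, rfl⟩ | ⟨l, rfl⟩
      · exact hS2 _ (Or.inl hs)
      · have := hS2 _ (Or.inr (Or.inl ⟨l, rfl⟩))
        dsimp only at this ⊢
        rwa [add_comm] at this
      · obtain ⟨t, ht1, ht2⟩ := hS2 _ (Or.inr (Or.inr ⟨l, rfl⟩))
        refine ⟨-t, ?_, ?_⟩
        · rw [map_neg, ht1]
          dsimp only
          ring
        · rw [map_neg, ht2]
    exact swap_mem hinj' hb ha hS' hsL' h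

end

end Pool.Agent.H1.Ample
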