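import Mathlib
import Pool.Agent.H1.Ample.StepMain

set_option autoImplicit false
set_option linter.unusedSectionVars false

namespace Pool.Agent.H1.Ample

open scoped IntermediateField.algebraAdjoinAdjoin
open scoped IntermediateField
open TensorProduct

section

variable {K Ω A : Type*} [Field K] [Field Ω] [Algebra K Ω] [CommRing A] [Algebra K A]

theorem isDomain_of_tensor (hdom : IsDomain (Ω ⊗[K] A)) : IsDomain A :=
  Function.Injective.isDomain
    (Algebra.TensorProduct.includeRight : A →ₐ[K] Ω ⊗[K] A).toRingHom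
    (Algebra.TensorProduct.includeRight_injective (algebraMap K Ω).injective)

theorem halg_all [IsDomain A] {ι : Type*} (x : ι → A) (hgen : Algebra.adjoin K (Set.range x) = ⊤)
    {z : A} (halg : ∀ l, IsAlgebraic (Algebra.adjoin K {z}) (x l)) (a : A) :
    IsAlgebraic (Algebra.adjoin K {z}) a := by
  have ha : a ∈ Algebra.adjoin K (Set.range x) := by rw [hgen]; trivial
  induction ha using Algebra.adjoin_induction with
  | mem x hx => obtain ⟨l, rfl⟩ := hx; exact halg l
  | algebraMap r => exact isAlgebraic_algebraMap (algebraMap K (Algebra.adjoin K {z}) r)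
  | add x y _ _ hx hy => exact hx.add hy
  | mul x y _ _ hx hy => exact hx.mul hy

/-- existence of homomorphisms -/
theorem exists_hom [IsAlgClosed Ω] [IsDomain A] {z : A} (hz : Transcendental K z)
    (halg : ∀ a : A, IsAlgebraic (Algebra.adjoin K {z}) a) {u : Ω} (hu : Transcendental K u) :
    ∃ φ : A →ₐ[K] Ω, φ z = u := by
  let e := Polynomial.algEquivOfTranscendental K z hz
  let f : Algebra.adjoin K {z} →ₐ[K] Ω := (Polynomial.aeval u).comp (e.symm : _ →ₐ[K] _)
  have hf : Function.Injective f := by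
    intro a b hab
    exact e.symm.injective ((transcendental_iff_injective.mp hu) hab)
  let iR : Algebra (Algebra.adjoin K {z}) Ω := f.toRingHom.toAlgebra
  have tow : IsScalarTower K (Algebra.adjoin K {z}) Ω :=
    IsScalarTower.of_algebraMap_eq (fun c => (f.commutes c).symm)
  have hfs : FaithfulSMul (Algebra.adjoin K {z}) Ω :=
    (faithfulSMul_iff_algebraMap_injective _ _).mpr hf
  have h1 : Module.IsTorsionFree (Algebra.adjoin K {z}) Ω := inferInstance
  have h2 : Module.IsTorsionFree (Algebra.adjoin K {z}) A := inferInstance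
  have h3 : Algebra.IsAlgebraic (Algebra.adjoin K {z}) A := ⟨halg⟩
  let φ : A →ₐ[Algebra.adjoin K {z}] Ω := IsAlgClosed.lift
  refine ⟨φ.restrictScalars K, ?_⟩
  change φ z = u
  have h4 : φ (algebraMap (Algebra.adjoin K {z}) A
    ⟨z, Algebra.self_mem_adjoin_singleton K z⟩) = algebraMap (Algebra.adjoin K {z}) Ω
    ⟨z, Algebra.self_mem_adjoin_singleton K z⟩ := φ.commutes _
  have h5 : f ⟨z, Algebra.self_mem_adjoin_singleton K z⟩ = u := by
    change Polynomial.aeval u (e.symm ⟨z, Algebra.self_mem_adjoin_singleton K z⟩) = u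
    have h6 : e Polynomial.X = ⟨z, Algebra.self_mem_adjoin_singleton K z⟩ := by
      rw [Polynomial.algEquivOfTranscendental_apply, Polynomial.aeval_X]
    rw [← h6, AlgEquiv.symm_apply_apply, Polynomial.aeval_X]
  exact h4.trans h5

end

section

variable {K Ω A : Type*} [Field K] [CharZero K] [Field Ω] [IsAlgClosed Ω] [Algebra K Ω]
  [CommRing A] [Algebra K A]

theorem step_thm {r : ℕ} (x : Fin r → A) (hgen : Algebra.adjoin K (Set.range x) = ⊤)
    (l₀ : Fin r) (hdom : IsDomain (Ω ⊗[K] A)) (htr : Transcendental K (x l₀))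
    (halg : ∀ l, IsAlgebraic (Algebra.adjoin K {x l₀}) (x l))
    (hΩ : ∃ u v : Ω, u ∉ acl (⊥ : IntermediateField K Ω) ∧ v ∉ acl K⟮u⟯)
    (ρ : Ω) (hρ2 : ρ ^ 2 ∈ (⊥ : IntermediateField K Ω)) (hρ0 : ρ ≠ 0) :
    ∃ T : Set Ω, T.Finite ∧
      (∀ L : IntermediateField K Ω, L ≤ acl ⊥ → ∀ s ∈ acl (⊥ : IntermediateField K Ω),
        s ∈ L ⊔ IntermediateField.adjoin K T → s ∈ L) ∧
      (∀ L : IntermediateField K Ω, L ≤ acl ⊥ → ∀ N ≥ 3,
        (ρ ∉ L ∨ ∀ F₁ : IntermediateField K Ω, acl F₁ = F₁ → ∀ φ : A →ₐ[K] Ω, φ (x l₀) ∉ F₁ →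
          ∀ X ∈ F₁ ⊔ IntermediateField.adjoin K (Set.range fun l => φ (x l)),
          ∀ Y ∈ F₁ ⊔ IntermediateField.adjoin K (Set.range fun l => φ (x l)),
          X ^ (2 * N) + Y ^ 2 = 1 → X ∈ F₁) →
        ∀ X ∈ L ⊔ IntermediateField.adjoin K T, ∀ Y ∈ L ⊔ IntermediateField.adjoin K T,
          X ^ (2 * N) + Y ^ 2 = 1 → X ∈ L ∧ Y ∈ L) ∧
      (∃ φ : A →ₐ[K] Ω, φ (x l₀) ∉ acl (⊥ : IntermediateField K Ω) ∧
        ∀ l, φ (x l) ∈ IntermediateField.adjoin K T ⊔ K⟮ρ⟯) := by
  have hA : IsDomain A := isDomain_of_tensor hdom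
  have halg' := halg_all x hgen halg
  obtain ⟨u, v, hu, hv⟩ := hΩ
  have huT : Transcendental K u := fun h => hu (mem_acl_bot.mpr h)
  have hvT : Transcendental K v := fun h => hv (acl_mono bot_le (mem_acl_bot.mpr h))
  obtain ⟨φa, hφa⟩ := exists_hom htr halg' huT
  obtain ⟨φb, hφb⟩ := exists_hom htr halg' hvT
  -- the algebraic closure
  have hFgal : IsGalois K (algebraicClosure K Ω) := inferInstance
  have hF : ∀ x : Ω, IsAlgebraic K x → ∃ f : algebraicClosure K Ω,
      algebraMap (algebraicClosure K Ω) Ω f = x := fun x hx => ⟨⟨x, mem_algebraicClosure_iff.mpr hx⟩, rfl⟩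
  have hinjK : ∀ φ : A →ₐ[K] Ω, Transcendental K (φ (x l₀)) → Function.Injective φ := by
    intro φ hφ
    have h1 := lift_injective (F := K) (Ω := Ω) (A := A) hdom halg' φ hφ
    intro a b hab
    have h2 := h1 (a₁ := (1 : K) ⊗ₜ[K] a) (a₂ := (1 : K) ⊗ₜ[K] b) (by
      rw [Algebra.TensorProduct.lift_tmul, Algebra.TensorProduct.lift_tmul, hab])
    exact Algebra.TensorProduct.includeRight_injective (algebraMap K K).injective h2
  have hφainj := hinjK φa (by rw [hφa]; exact huT)
  have hφbinj := hinjK φb (by rw [hφb]; exact hvT)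
  have hφamem : ∀ a, φa a ∈ acl K⟮u⟯ := by
    intro a; rw [← hφa]; exact mem_acl_of_hom φa hφainj (halg' a)
  have hφbmem : ∀ a, φb a ∈ acl K⟮v⟯ := by
    intro a; rw [← hφb]; exact mem_acl_of_hom φb hφbinj (halg' a)
  have hinj : Function.Injective (Psi (algebraicClosure K Ω) φa φb) := by
    apply Psi_injective (algebraicClosure K Ω) (acl K⟮u⟯) ?_ φa φb hdom halg' hφamem
    · rw [hφa]
      intro h
      apply hu
      rw [mem_acl_bot]
      exact h.restrictScalars K
    · rw [hφb, transcendental_iff_notMem_acl, acl_acl]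
      exact hv
    · intro f
      exact acl_mono bot_le (mem_acl_bot.mpr (mem_algebraicClosure_iff.mp f.2))
  have hvu : u ∉ acl K⟮v⟯ := by
    have := indep_symm (M := (⊥ : IntermediateField K Ω)) hu (by rwa [bot_sup_eq])
    rwa [bot_sup_eq] at this
  have hinter : ∀ s : Ω, s ∈ acl K⟮u⟯ → s ∈ acl K⟮v⟯ → s ∈ acl (⊥ : IntermediateField K Ω) := by
    intro s h1 h2
    refine acl_inter (M := (⊥ : IntermediateField K Ω)) hu (by rwa [bot_sup_eq])
      (by rwa [bot_sup_eq]) (by rwa [bot_sup_eq])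
  have hρalg : ρ ∈ acl (⊥ : IntermediateField K Ω) := by
    rw [mem_acl]
    refine IsIntegral.isAlgebraic ⟨Polynomial.X ^ 2 - Polynomial.C ⟨ρ ^ 2, hρ2⟩, ?_, ?_⟩
    · exact Polynomial.monic_X_pow_sub_C _ (by norm_num)
    · rw [Polynomial.eval₂_sub, Polynomial.eval₂_X_pow, Polynomial.eval₂_C]
      exact sub_self _
  have hT1 : ∀ L : IntermediateField K Ω, L ≤ acl ⊥ → ∀ s ∈ acl (⊥ : IntermediateField K Ω),
        s ∈ L ⊔ IntermediateField.adjoin K (stepGens x φa φb ρ) → s ∈ L :=
    fun L hL s hs hsL => step_alg hF x φa φb hinj ρ hρ2 L hL hs hsL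
  refine ⟨stepGens x φa φb ρ, (Set.finite_range _).union (Set.finite_range _), hT1, ?_, ?_⟩
  · intro L hL N hN hcase X hX Y hY h
    -- it suffices that `X` is algebraic over `K`
    suffices hXalg : X ∈ acl (⊥ : IntermediateField K Ω) by
      have hXL := hT1 L hL X hXalg hX
      refine ⟨hXL, hT1 L hL Y ?_ hY⟩
      have hY2 : Y ^ 2 ∈ acl (⊥ : IntermediateField K Ω) := by
        have : Y ^ 2 = 1 - X ^ (2 * N) := by linear_combination h
        rw [this]
        exact sub_mem (one_mem _) (pow_mem hXalg _)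
      apply mem_of_isAlgebraic_acl
      refine IsIntegral.isAlgebraic ⟨Polynomial.X ^ 2 - Polynomial.C ⟨Y ^ 2, hY2⟩, ?_, ?_⟩
      · exact Polynomial.monic_X_pow_sub_C _ (by norm_num)
      · rw [Polynomial.eval₂_sub, Polynomial.eval₂_X_pow, Polynomial.eval₂_C]
        exact sub_self _
    have hgens : ∀ M : IntermediateField K Ω, acl (⊥ : IntermediateField K Ω) ≤ M →
        (∀ l, φa (x l) ∈ M) → (∀ l, φb (x l) ∈ M) →
        L ⊔ IntermediateField.adjoin K (stepGens x φa φb ρ) ≤ M := by
      intro M hM h1 h2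
      apply sup_le (hL.trans hM)
      rw [IntermediateField.adjoin_le_iff]
      rintro s (⟨l, rfl⟩ | ⟨l, rfl⟩)
      · exact add_mem (h1 l) (h2 l)
      · exact mul_mem (hM hρalg) (sub_mem (h1 l) (h2 l))
    rcases hcase with hρL | hPhi
    · -- rigidity
      have hw : ∃ w : Ω, IsIntegral (Algebra.adjoin (⊥ : IntermediateField K Ω) {v}) w ∧
          IntermediateField.adjoin (⊥ : IntermediateField K Ω) {v, w} =
          IntermediateField.adjoin (⊥ : IntermediateField K Ω)
            (insert v (Set.range fun l => φb (x l))) := by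
        apply exists_prim v (Set.finite_range _)
        rintro s ⟨l, rfl⟩
        have h2 : φb (x l) ∈ acl ((⊥ : IntermediateField K Ω) ⊔ K⟮v⟯) := by
          rw [bot_sup_eq]; exact hφbmem _
        rw [← IntermediateField.restrictScalars_adjoin_eq_sup] at h2
        exact mem_acl.mp h2
      obtain ⟨w, hw, hwE⟩ := hw
      have hmemE : ∀ s ∈ L ⊔ IntermediateField.adjoin K (stepGens x φa φb ρ),
          s ∈ IntermediateField.adjoin (acl ((⊥ : IntermediateField K Ω) ⊔ K⟮u⟯)) {v, w} := by
        intro s hs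
        rw [mem_adjoin_over]
        refine hgens _ ?_ ?_ ?_ hs
        · exact le_sup_of_le_left (acl_mono bot_le)
        · intro l
          exact le_sup_left (b := IntermediateField.adjoin K {v, w}) (by
            rw [bot_sup_eq]; exact hφamem _)
        · intro l
          have h3 : φb (x l) ∈ IntermediateField.adjoin (⊥ : IntermediateField K Ω) {v, w} := by
            rw [hwE]
            exact IntermediateField.subset_adjoin _ _ (Or.inr ⟨l, rfl⟩)
          rw [mem_adjoin_over] at h3
          have h4 : (⊥ : IntermediateField K Ω) ⊔ IntermediateField.adjoin K {v, w} ≤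
              acl ((⊥ : IntermediateField K Ω) ⊔ K⟮u⟯) ⊔ IntermediateField.adjoin K {v, w} :=
            sup_le_sup_right bot_le _
          exact h4 h3
      have h4 := lemA (F := (⊥ : IntermediateField K Ω)) hu (by rwa [bot_sup_eq]) hw hN
        (hmemE X hX) (hmemE Y hY) h
      rw [bot_sup_eq, bot_sup_eq] at h4
      have h5 := step_swap hF x φa φb hinj ρ hρ2 L hL hρL (z := x l₀)
        (by rw [hφa]; exact huT) (by rw [hφb]; exact hvT) hX (by
          rw [hφa, hφb]; exact h4.symm)
      rw [hφa, hφb] at h5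
      exact hinter X h5.1 h5.2
    · -- use the hypothesis on `N`
      apply hinter
      · refine hPhi (acl K⟮u⟯) (acl_acl _) φb (by rw [hφb]; exact hv) X ?_ Y ?_ h
        · refine hgens _ (le_sup_of_le_left (acl_mono bot_le)) ?_ ?_ hX
          · intro l; exact le_sup_left (b := IntermediateField.adjoin K _) (hφamem _)
          · intro l
            exact le_sup_right (a := acl K⟮u⟯) (IntermediateField.subset_adjoin _ _ ⟨l, rfl⟩)
        · refine hgens _ (le_sup_of_le_left (acl_mono bot_le)) ?_ ?_ hY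
          · intro l; exact le_sup_left (b := IntermediateField.adjoin K _) (hφamem _)
          · intro l
            exact le_sup_right (a := acl K⟮u⟯) (IntermediateField.subset_adjoin _ _ ⟨l, rfl⟩)
      · refine hPhi (acl K⟮v⟯) (acl_acl _) φa (by rw [hφa]; exact hvu) X ?_ Y ?_ h
        · refine hgens _ (le_sup_of_le_left (acl_mono bot_le)) ?_ ?_ hX
          · intro l
            exact le_sup_right (a := acl K⟮v⟯) (IntermediateField.subset_adjoin _ _ ⟨l, rfl⟩)
          · intro l; exact le_sup_left (b := IntermediateField.adjoin K _) (hφbmem _)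
        · refine hgens _ (le_sup_of_le_left (acl_mono bot_le)) ?_ ?_ hY
          · intro l
            exact le_sup_right (a := acl K⟮v⟯) (IntermediateField.subset_adjoin _ _ ⟨l, rfl⟩)
          · intro l; exact le_sup_left (b := IntermediateField.adjoin K _) (hφbmem _)
  · refine ⟨φa, by rw [hφa]; exact hu, fun l => ?_⟩
    set E := IntermediateField.adjoin K (stepGens x φa φb ρ) ⊔ K⟮ρ⟯ with hE
    have h1 : φa (x l) + φb (x l) ∈ E :=
      le_sup_left (b := K⟮ρ⟯) (IntermediateField.subset_adjoin _ _ (Or.inl ⟨l, rfl⟩))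
    have h2 : ρ * (φa (x l) - φb (x l)) ∈ E :=
      le_sup_left (b := K⟮ρ⟯) (IntermediateField.subset_adjoin _ _ (Or.inr ⟨l, rfl⟩))
    have h3 : ρ ∈ E := le_sup_right (a := IntermediateField.adjoin K (stepGens x φa φb ρ))
      (IntermediateField.mem_adjoin_simple_self K ρ)
    have hc0 : CharZero Ω := charZero_of_injective_algebraMap (algebraMap K Ω).injective
    have h4 : φa (x l) = ((φa (x l) + φb (x l)) + ρ⁻¹ * (ρ * (φa (x l) - φb (x l)))) / 2 := by
      field_simp
      ring
    have h5 : ((φa (x l) + φb (x l)) + ρ⁻¹ * (ρ * (φa (x l) - φb (x l)))) / 2 ∈ E := by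
      refine div_mem (add_mem h1 (mul_mem (inv_mem h3) h2)) ?_
      have := E.algebraMap_mem (2 : K)
      rwa [map_ofNat] at this
    rw [← h4] at h5
    exact h5

end

end Pool.Agent.H1.Ample
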