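import Mathlib
import Pool.Agent.H1.Ample.StepThm

set_option autoImplicit false
set_option linter.unusedSectionVars false

namespace Pool.Agent.H1.Ample

open scoped IntermediateField.algebraAdjoinAdjoin
open scoped IntermediateField
open TensorProduct

section

variable {K Ω A : Type*} [Field K] [CharZero K] [Field Ω] [Algebra K Ω]
  [CommRing A] [Algebra K A]

theorem exists_Phi {r : ℕ} (x : Fin r → A) (hgen : Algebra.adjoin K (Set.range x) = ⊤)
    (l₀ : Fin r) (hdom : IsDomain (Ω ⊗[K] A)) (htr : Transcendental K (x l₀))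
    (halg : ∀ l, IsAlgebraic (Algebra.adjoin K {x l₀}) (x l)) :
    ∃ N₀ : ℕ, ∀ N ≥ N₀, ∀ F₁ : IntermediateField K Ω, acl F₁ = F₁ → ∀ φ : A →ₐ[K] Ω,
      φ (x l₀) ∉ F₁ →
          ∀ X ∈ F₁ ⊔ IntermediateField.adjoin K (Set.range fun l => φ (x l)),
          ∀ Y ∈ F₁ ⊔ IntermediateField.adjoin K (Set.range fun l => φ (x l)),
          X ^ (2 * N) + Y ^ 2 = 1 → X ∈ F₁ := by
  have hA : IsDomain A := isDomain_of_tensor hdom
  have halg' := halg_all x hgen halg
  let Q := FractionRing A
  let j : A →ₐ[K] Q := IsScalarTower.toAlgHom K A Q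
  have hj : Function.Injective j := IsFractionRing.injective A Q
  have hzT : Transcendental K (j (x l₀)) := by
    rw [transcendental_iff_injective] at htr ⊢
    have h1 : (Polynomial.aeval (j (x l₀)) : Polynomial K →ₐ[K] Q) =
        j.comp (Polynomial.aeval (x l₀)) := by
      ext; simp
    rw [h1]
    exact hj.comp htr
  obtain ⟨w, hw, hwE⟩ := exists_prim (K := K) (Ω := Q) (j (x l₀))
    (S := Set.range fun l => j (x l)) (Set.finite_range _) (by
      rintro s ⟨l, rfl⟩
      exact mem_acl.mp (mem_acl_of_hom j hj (halg l)))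
  have htop : IntermediateField.adjoin K {j (x l₀), w} = ⊤ := by
    rw [hwE, eq_top_iff]
    intro q _
    obtain ⟨a, b, hb, rfl⟩ := IsFractionRing.div_surjective (A := A) q
    have hmem : ∀ a : A, j a ∈ IntermediateField.adjoin K
        (insert (j (x l₀)) (Set.range fun l => j (x l))) := by
      intro a
      have ha : a ∈ Algebra.adjoin K (Set.range x) := by rw [hgen]; trivial
      induction ha using Algebra.adjoin_induction with
      | mem x hx =>
        obtain ⟨l, rfl⟩ := hx
        exact IntermediateField.subset_adjoin _ _ (Or.inr ⟨l, rfl⟩)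
      | algebraMap r => rw [AlgHom.commutes]; exact IntermediateField.algebraMap_mem _ _
      | add x y _ _ hx hy => rw [map_add]; exact add_mem hx hy
      | mul x y _ _ hx hy => rw [map_mul]; exact mul_mem hx hy
    exact div_mem (hmem a) (hmem b)
  obtain ⟨M₀, hM₀⟩ := lemB (Ω := Ω) hzT hw htop
  refine ⟨M₀, fun N hN F₁ hF₁ φ hφ X hX Y hY h => ?_⟩
  have hφT : Transcendental K (φ (x l₀)) := by
    intro h
    apply hφ
    rw [← hF₁]
    exact acl_mono bot_le (mem_acl_bot.mpr h)
  have hφinj : Function.Injective φ := by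
    have h1 := lift_injective (F := K) (Ω := Ω) (A := A) hdom halg' φ hφT
    intro a b hab
    have h2 := h1 (a₁ := (1 : K) ⊗ₜ[K] a) (a₂ := (1 : K) ⊗ₜ[K] b) (by
      rw [Algebra.TensorProduct.lift_tmul, Algebra.TensorProduct.lift_tmul, hab])
    exact Algebra.TensorProduct.includeRight_injective (algebraMap K K).injective h2
  let ι : Q →ₐ[K] Ω := IsFractionRing.liftAlgHom (g := φ) hφinj
  have hι : ∀ a : A, ι (j a) = φ a := by
    intro a
    exact IsFractionRing.lift_algebraMap hφinj a
  have hle : F₁ ⊔ IntermediateField.adjoin K (Set.range fun l => φ (x l)) ≤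
      F₁ ⊔ ι.fieldRange := by
    apply sup_le_sup_left
    rw [IntermediateField.adjoin_le_iff]
    rintro s ⟨l, rfl⟩
    exact ⟨j (x l), hι _⟩
  exact hM₀ N hN ι F₁ hF₁ (by rw [hι]; exact hφ) X (hle hX) Y (hle hY) h

end

end Pool.Agent.H1.Ample
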