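import Mathlib
import Pool.Agent.H1.Ample.Phi

set_option autoImplicit false
set_option linter.unusedSectionVars false

namespace Pool.Agent.H1.Ample

open scoped IntermediateField.algebraAdjoinAdjoin
open scoped IntermediateField
open TensorProduct

section

theorem alg_map_adjoin {K A B : Type*} [Field K] [CommRing A] [Algebra K A] [CommRing B]
    [Algebra K B] (φ : A →ₐ[K] B) (hφ : Function.Injective φ) {z a : A}
    (h : IsAlgebraic (Algebra.adjoin K {z}) a) : IsAlgebraic (Algebra.adjoin K {φ z}) (φ a) := by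
  have hle : ∀ a ∈ Algebra.adjoin K {z}, φ a ∈ Algebra.adjoin K {φ z} := by
    intro a ha
    induction ha using Algebra.adjoin_induction with
    | mem x hx => rw [Set.mem_singleton_iff] at hx; rw [hx]; exact Algebra.subset_adjoin rfl
    | algebraMap r => rw [AlgHom.commutes]; exact Subalgebra.algebraMap_mem _ _
    | add x y _ _ hx hy => rw [map_add]; exact add_mem hx hy
    | mul x y _ _ hx hy => rw [map_mul]; exact mul_mem hx hy
  let f : Algebra.adjoin K {z} →+* Algebra.adjoin K {φ z} :=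
    { toFun := fun a => ⟨φ a, hle a a.2⟩
      map_one' := Subtype.ext (map_one φ)
      map_mul' := fun a b => Subtype.ext (map_mul φ _ _)
      map_zero' := Subtype.ext (map_zero φ)
      map_add' := fun a b => Subtype.ext (map_add φ _ _) }
  exact IsAlgebraic.ringHom_of_comp_eq f (φ : A →+* B) h
    (fun a b hab => Subtype.ext (hφ (congrArg Subtype.val hab))) (RingHom.ext fun _ => rfl)

theorem transc_equiv {K A B : Type*} [Field K] [CommRing A] [Algebra K A] [CommRing B]
    [Algebra K B] (e : A ≃ₐ[K] B) {a : A} {b : B} (hab : e a = b) (h : Transcendental K a) :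
    Transcendental K b := by
  intro hb
  apply h
  have h1 := hb.algHom e.symm.toAlgHom
  have h2 : e.symm.toAlgHom b = a := by
    rw [← hab]; exact e.symm_apply_apply a
  rw [h2] at h1
  exact h1

theorem alg_equiv {K A B : Type*} [Field K] [CommRing A] [Algebra K A] [CommRing B]
    [Algebra K B] (e : A ≃ₐ[K] B) {z a : A} {w b : B} (hzw : e z = w) (hab : e a = b)
    (h : IsAlgebraic (Algebra.adjoin K {z}) a) : IsAlgebraic (Algebra.adjoin K {w}) b := by
  subst hzw hab
  exact alg_map_adjoin e.toAlgHom e.injective h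

theorem alg_equiv_symm {K A B : Type*} [Field K] [CommRing A] [Algebra K A] [CommRing B]
    [Algebra K B] (e : A ≃ₐ[K] B) {z a : A} {w b : B} (hzw : e z = w) (hab : e a = b)
    (h : IsAlgebraic (Algebra.adjoin K {w}) b) : IsAlgebraic (Algebra.adjoin K {z}) a :=
  alg_equiv e.symm (by rw [← hzw, AlgEquiv.symm_apply_apply])
    (by rw [← hab, AlgEquiv.symm_apply_apply]) h

theorem transc_descent {K Ω A : Type*} [Field K] [Field Ω] [Algebra K Ω] [CommRing A]
    [Algebra K A] {z : A} (h : Transcendental Ω ((1 : Ω) ⊗ₜ[K] z)) : Transcendental K z := by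
  intro hz
  apply h
  have h1 : IsAlgebraic K ((1 : Ω) ⊗ₜ[K] z) :=
    hz.algHom (Algebra.TensorProduct.includeRight : A →ₐ[K] Ω ⊗[K] A)
  exact h1.tower_top (L := Ω)

/-- base change of algebraicity over `K[z]` -/
theorem alg_baseChange {K Ω A : Type*} [Field K] [Field Ω] [Algebra K Ω] [CommRing A]
    [Algebra K A] {z a : A} (h : IsAlgebraic (Algebra.adjoin K {z}) a) :
    IsAlgebraic (Algebra.adjoin Ω {(1 : Ω) ⊗ₜ[K] z}) ((1 : Ω) ⊗ₜ[K] a) := by
  let incl : A →ₐ[K] Ω ⊗[K] A := Algebra.TensorProduct.includeRight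
  have hincl : Function.Injective incl :=
    Algebra.TensorProduct.includeRight_injective (algebraMap K Ω).injective
  have hle : ∀ a ∈ Algebra.adjoin K {z}, incl a ∈ Algebra.adjoin Ω {(1 : Ω) ⊗ₜ[K] z} := by
    intro a ha
    induction ha using Algebra.adjoin_induction with
    | mem x hx => rw [Set.mem_singleton_iff] at hx; rw [hx]; exact Algebra.subset_adjoin rfl
    | algebraMap r =>
      rw [AlgHom.commutes, IsScalarTower.algebraMap_apply K Ω (Ω ⊗[K] A)]
      exact Subalgebra.algebraMap_mem _ _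
    | add x y _ _ hx hy => rw [map_add]; exact add_mem hx hy
    | mul x y _ _ hx hy => rw [map_mul]; exact mul_mem hx hy
  let f : Algebra.adjoin K {z} →+* Algebra.adjoin Ω {(1 : Ω) ⊗ₜ[K] z} :=
    { toFun := fun a => ⟨incl a, hle a a.2⟩
      map_one' := Subtype.ext (map_one incl)
      map_mul' := fun a b => Subtype.ext (map_mul incl _ _)
      map_zero' := Subtype.ext (map_zero incl)
      map_add' := fun a b => Subtype.ext (map_add incl _ _) }
  exact IsAlgebraic.ringHom_of_comp_eq f (incl : A →+* Ω ⊗[K] A) h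
    (fun a b hab => Subtype.ext (hincl (congrArg Subtype.val hab))) (RingHom.ext fun _ => rfl)

variable {Ω : Type*} [Field Ω] {r : ℕ}

/-- A plane-like description of an affine curve over `Ω`. -/
structure Valid (G : Set (MvPolynomial (Fin r) Ω)) (l₀ : Fin r) : Prop where
  dom : IsDomain (MvPolynomial (Fin r) Ω ⧸ Ideal.span G)
  tr : Transcendental Ω (Ideal.Quotient.mk (Ideal.span G) (MvPolynomial.X l₀))
  alg : ∀ l, IsAlgebraic (Algebra.adjoin Ω
    {Ideal.Quotient.mk (Ideal.span G) (MvPolynomial.X l₀)})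
      (Ideal.Quotient.mk (Ideal.span G) (MvPolynomial.X l))

/-- the coordinate ring over a subfield -/
abbrev Coord (M : Type*) [Field M] [Algebra M Ω] (G : Set (MvPolynomial (Fin r) Ω)) : Type _ :=
  MvPolynomial (Fin r) M ⧸ Ideal.span ((MvPolynomial.map (algebraMap M Ω)) ⁻¹' G)

theorem exists_equiv (M : Type*) [Field M] [Algebra M Ω] (G : Set (MvPolynomial (Fin r) Ω))
    (hG : ∀ g ∈ G, g ∈ Set.range (MvPolynomial.map (σ := Fin r) (algebraMap M Ω))) :
    ∃ e : Ω ⊗[M] (Coord M G) ≃ₐ[Ω] (MvPolynomial (Fin r) Ω ⧸ Ideal.span G),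
      ∀ p : MvPolynomial (Fin r) M, e ((1 : Ω) ⊗ₜ[M] (Ideal.Quotient.mk _ p)) =
        Ideal.Quotient.mk _ (MvPolynomial.map (algebraMap M Ω) p) := by
  set I : Ideal (MvPolynomial (Fin r) M) :=
    Ideal.span ((MvPolynomial.map (algebraMap M Ω)) ⁻¹' G) with hI
  have h : Ideal.span G = Ideal.map
      ((MvPolynomial.algebraTensorAlgEquiv M Ω : Ω ⊗[M] MvPolynomial (Fin r) M ≃ₐ[Ω] _) :
        Ω ⊗[M] MvPolynomial (Fin r) M →+* MvPolynomial (Fin r) Ω)
      (Ideal.map (Algebra.TensorProduct.includeRight :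
        MvPolynomial (Fin r) M →ₐ[M] Ω ⊗[M] MvPolynomial (Fin r) M) I) := by
    have h1 : Ideal.map (Algebra.TensorProduct.includeRight :
        MvPolynomial (Fin r) M →ₐ[M] Ω ⊗[M] MvPolynomial (Fin r) M) I = Ideal.map
        (Algebra.TensorProduct.includeRight :
        MvPolynomial (Fin r) M →ₐ[M] Ω ⊗[M] MvPolynomial (Fin r) M).toRingHom I := rfl
    rw [h1, Ideal.map_map, hI, Ideal.map_span]
    congr 1
    ext g
    constructor
    · intro hg
      obtain ⟨p, rfl⟩ := hG g hg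
      refine ⟨p, hg, ?_⟩
      change MvPolynomial.algebraTensorAlgEquiv M Ω ((1 : Ω) ⊗ₜ[M] p) = _
      rw [MvPolynomial.algebraTensorAlgEquiv_tmul, one_smul]
    · rintro ⟨p, hp, rfl⟩
      change MvPolynomial.algebraTensorAlgEquiv M Ω ((1 : Ω) ⊗ₜ[M] p) ∈ G
      rw [MvPolynomial.algebraTensorAlgEquiv_tmul, one_smul]
      exact hp
  refine ⟨(Algebra.TensorProduct.tensorQuotientEquiv Ω (MvPolynomial (Fin r) M) Ω I).trans
    (Ideal.quotientEquivAlg _ _ (MvPolynomial.algebraTensorAlgEquiv M Ω) h), fun p => ?_⟩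
  rw [AlgEquiv.trans_apply]
  have h2 : Algebra.TensorProduct.tensorQuotientEquiv Ω (MvPolynomial (Fin r) M) Ω I
      ((1 : Ω) ⊗ₜ[M] (Ideal.Quotient.mk _ p)) = Ideal.Quotient.mk _ ((1 : Ω) ⊗ₜ[M] p) := rfl
  rw [h2]
  change Ideal.Quotient.mk _ (MvPolynomial.algebraTensorAlgEquiv M Ω ((1 : Ω) ⊗ₜ[M] p)) = _
  rw [MvPolynomial.algebraTensorAlgEquiv_tmul, one_smul]

theorem valid_descent {M : Type*} [Field M] [Algebra M Ω] {G : Set (MvPolynomial (Fin r) Ω)}
    (hG : ∀ g ∈ G, g ∈ Set.range (MvPolynomial.map (σ := Fin r) (algebraMap M Ω))) {l₀ : Fin r}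
    (hV : Valid G l₀) :
    IsDomain (Ω ⊗[M] (Coord M G)) ∧
    Transcendental M (Ideal.Quotient.mk _ (MvPolynomial.X l₀) : Coord M G) ∧
    ∀ l, IsAlgebraic (Algebra.adjoin M {(Ideal.Quotient.mk _ (MvPolynomial.X l₀) : Coord M G)})
      (Ideal.Quotient.mk _ (MvPolynomial.X l) : Coord M G) := by
  obtain ⟨e, he⟩ := exists_equiv M G hG
  have heX : ∀ l, e ((1 : Ω) ⊗ₜ[M] (Ideal.Quotient.mk _ (MvPolynomial.X l) : Coord M G)) =
      Ideal.Quotient.mk _ (MvPolynomial.X l) := by
    intro l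
    rw [he, MvPolynomial.map_X]
  have hdomB := hV.dom
  have hdom : IsDomain (Ω ⊗[M] (Coord M G)) := e.toRingEquiv.toMulEquiv.isDomain _
  have htr : Transcendental M (Ideal.Quotient.mk _ (MvPolynomial.X l₀) : Coord M G) := by
    apply transc_descent (Ω := Ω)
    exact transc_equiv e.symm (by rw [← heX, AlgEquiv.symm_apply_apply]) hV.tr
  exact ⟨hdom, htr, fun l => algebraic_descent (Ω := Ω) htr
    (alg_equiv_symm e (heX l₀) (heX l) (hV.alg l))⟩

/-- an abstract curve algebra gives a valid requirement -/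
theorem valid_of {K A : Type*} [Field K] [Algebra K Ω] [CommRing A] [Algebra K A]
    (π : MvPolynomial (Fin r) K →ₐ[K] A) (hπ : Function.Surjective π)
    {G₀ : Set (MvPolynomial (Fin r) K)} (hG₀ : RingHom.ker π = Ideal.span G₀) {l₀ : Fin r}
    (hdom : IsDomain (Ω ⊗[K] A)) (htr : Transcendental K (π (MvPolynomial.X l₀)))
    (halg : ∀ l, IsAlgebraic (Algebra.adjoin K {π (MvPolynomial.X l₀)}) (π (MvPolynomial.X l))) :
    Valid (MvPolynomial.map (algebraMap K Ω) '' G₀) l₀ := by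
  set G := MvPolynomial.map (σ := Fin r) (algebraMap K Ω) '' G₀ with hG
  obtain ⟨e, he⟩ := exists_equiv K G (by rintro g ⟨p, _, rfl⟩; exact ⟨p, rfl⟩)
  have hpre : (MvPolynomial.map (algebraMap K Ω)) ⁻¹' G = G₀ :=
    Set.preimage_image_eq _ (MvPolynomial.map_injective _ (algebraMap K Ω).injective)
  have hker : Ideal.span ((MvPolynomial.map (algebraMap K Ω)) ⁻¹' G) = RingHom.ker π := by
    rw [hpre, hG₀]
  let e₁ : Coord K G ≃ₐ[K] A := (Ideal.quotientEquivAlgOfEq K hker).trans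
    (Ideal.quotientKerAlgEquivOfSurjective hπ)
  have he₁ : ∀ p, e₁ (Ideal.Quotient.mk _ p) = π p := fun p => rfl
  let e₂ : Ω ⊗[K] (Coord K G) ≃ₐ[Ω] Ω ⊗[K] A :=
    Algebra.TensorProduct.congr AlgEquiv.refl e₁
  have he₂ : ∀ p, e₂ ((1 : Ω) ⊗ₜ[K] (Ideal.Quotient.mk _ p)) = (1 : Ω) ⊗ₜ[K] π p := fun p => rfl
  let e₃ : Ω ⊗[K] A ≃ₐ[Ω] (MvPolynomial (Fin r) Ω ⧸ Ideal.span G) := e₂.symm.trans e
  have he₃ : ∀ l, e₃ ((1 : Ω) ⊗ₜ[K] π (MvPolynomial.X l)) =
      Ideal.Quotient.mk _ (MvPolynomial.X l) := by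
    intro l
    have h4 := he (MvPolynomial.X l)
    rw [MvPolynomial.map_X] at h4
    rw [← h4]
    change e (e₂.symm _) = _
    rw [← he₂, AlgEquiv.symm_apply_apply]
  refine ⟨?_, ?_, ?_⟩
  · exact e₃.symm.toRingEquiv.toMulEquiv.isDomain _
  · exact transc_equiv e₃ (he₃ l₀) (transcendental_baseChange (Ω := Ω) htr)
  · intro l
    exact alg_equiv e₃ (he₃ l₀) (he₃ l) (alg_baseChange (halg l))

end

end Pool.Agent.H1.Ample
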