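import Mathlib
import Pool.Agent.H1.Ample.Req

set_option autoImplicit false
set_option linter.unusedSectionVars false

namespace Pool.Agent.H1.Ample

open scoped IntermediateField
open TensorProduct

section

variable {M Ω : Type*} [Field M] [Field Ω] [Algebra M Ω] {r : ℕ}

theorem hgen_coord (G : Set (MvPolynomial (Fin r) Ω)) :
    Algebra.adjoin M (Set.range fun l => (Ideal.Quotient.mk _ (MvPolynomial.X l) : Coord M G)) =
      ⊤ := by
  have h1 : (Set.range fun l => (Ideal.Quotient.mk _ (MvPolynomial.X l) : Coord M G)) =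
      (Ideal.Quotient.mkₐ M _) '' (Set.range MvPolynomial.X) := by
    rw [← Set.range_comp]; rfl
  rw [h1, ← AlgHom.map_adjoin, MvPolynomial.adjoin_range_X, Algebra.map_top,
    AlgHom.range_eq_top]
  exact Ideal.Quotient.mkₐ_surjective _ _

/-- zeros and homomorphisms -/
theorem exists_hom_of_zero {G : Set (MvPolynomial (Fin r) Ω)} {a : Fin r → Ω}
    (ha : ∀ g ∈ G, MvPolynomial.eval a g = 0) :
    ∃ φ : Coord M G →ₐ[M] Ω, ∀ l, φ (Ideal.Quotient.mk _ (MvPolynomial.X l)) = a l := by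
  refine ⟨Ideal.Quotient.liftₐ _ (MvPolynomial.aeval a) ?_, fun l => ?_⟩
  · intro p hp
    have h1 : Ideal.span ((MvPolynomial.map (algebraMap M Ω)) ⁻¹' G) ≤
        RingHom.ker (MvPolynomial.aeval a : MvPolynomial (Fin r) M →ₐ[M] Ω) := by
      rw [Ideal.span_le]
      intro p hp
      rw [SetLike.mem_coe, RingHom.mem_ker]
      have := ha _ hp
      rw [MvPolynomial.eval_map] at this
      exact this
    exact h1 hp
  · change MvPolynomial.aeval a (MvPolynomial.X l) = a l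
    rw [MvPolynomial.aeval_X]

theorem zero_of_hom {G : Set (MvPolynomial (Fin r) Ω)}
    (hG : ∀ g ∈ G, g ∈ Set.range (MvPolynomial.map (σ := Fin r) (algebraMap M Ω)))
    (φ : Coord M G →ₐ[M] Ω) {g : MvPolynomial (Fin r) Ω} (hg : g ∈ G) :
    MvPolynomial.eval (fun l => φ (Ideal.Quotient.mk _ (MvPolynomial.X l))) g = 0 := by
  obtain ⟨p, rfl⟩ := hG g hg
  have h1 : φ (Ideal.Quotient.mk _ p) = 0 := by
    have : (Ideal.Quotient.mk _ p : Coord M G) = 0 := by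
      rw [Ideal.Quotient.eq_zero_iff_mem]
      exact Ideal.subset_span hg
    rw [this, map_zero]
  rw [MvPolynomial.eval_map]
  have h2 : MvPolynomial.aeval (fun l => φ (Ideal.Quotient.mk _ (MvPolynomial.X l))) p =
      φ (Ideal.Quotient.mk _ p) := by
    have h3 : (MvPolynomial.aeval (fun l => φ (Ideal.Quotient.mk _ (MvPolynomial.X l))) :
        MvPolynomial (Fin r) M →ₐ[M] Ω) = φ.comp (Ideal.Quotient.mkₐ M _) := by
      ext l
      simp
    rw [h3]; rfl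
  rw [← h1, ← h2]
  rfl

end

section

variable {M Ω : Type*} [Field M] [CharZero M] [Field Ω] [Algebra M Ω] {r : ℕ}

theorem exists_Phi_coord {G : Set (MvPolynomial (Fin r) Ω)}
    (hG : ∀ g ∈ G, g ∈ Set.range (MvPolynomial.map (σ := Fin r) (algebraMap M Ω))) {l₀ : Fin r}
    (hV : Valid G l₀) :
    ∃ N₀ : ℕ, ∀ N ≥ N₀, ∀ F₁ : IntermediateField M Ω, acl F₁ = F₁ → ∀ a : Fin r → Ω,
      (∀ g ∈ G, MvPolynomial.eval a g = 0) → a l₀ ∉ F₁ →
      ∀ X ∈ F₁ ⊔ IntermediateField.adjoin M (Set.range a),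
      ∀ Y ∈ F₁ ⊔ IntermediateField.adjoin M (Set.range a),
      X ^ (2 * N) + Y ^ 2 = 1 → X ∈ F₁ := by
  obtain ⟨h1, h2, h3⟩ := valid_descent (M := M) hG hV
  obtain ⟨N₀, hN₀⟩ := exists_Phi (K := M) (Ω := Ω)
    (fun l => (Ideal.Quotient.mk _ (MvPolynomial.X l) : Coord M G)) (hgen_coord G) l₀ h1 h2 h3
  refine ⟨N₀, fun N hN F₁ hF₁ a ha haF X hX Y hY h => ?_⟩
  obtain ⟨φ, hφ⟩ := exists_hom_of_zero (M := M) (G := G) (a := a) ha
  have hr : (Set.range fun l => φ (Ideal.Quotient.mk _ (MvPolynomial.X l))) = Set.range a := by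
    congr 1
    funext l
    exact hφ l
  exact hN₀ N hN F₁ hF₁ φ (by rw [hφ]; exact haF) X (by rw [hr]; exact hX) Y
    (by rw [hr]; exact hY) h

theorem step_coord [IsAlgClosed Ω] {G : Set (MvPolynomial (Fin r) Ω)}
    (hG : ∀ g ∈ G, g ∈ Set.range (MvPolynomial.map (σ := Fin r) (algebraMap M Ω))) {l₀ : Fin r}
    (hV : Valid G l₀) (hΩ : ∃ u v : Ω, u ∉ acl (⊥ : IntermediateField M Ω) ∧ v ∉ acl M⟮u⟯)
    (ρ : Ω) (hρ2 : ρ ^ 2 ∈ (⊥ : IntermediateField M Ω)) (hρ0 : ρ ≠ 0) :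
    ∃ T : Set Ω, T.Finite ∧
      (∀ L : IntermediateField M Ω, L ≤ acl ⊥ → ∀ s ∈ acl (⊥ : IntermediateField M Ω),
        s ∈ L ⊔ IntermediateField.adjoin M T → s ∈ L) ∧
      (∀ L : IntermediateField M Ω, L ≤ acl ⊥ → ∀ N ≥ 3,
        (ρ ∉ L ∨ ∀ F₁ : IntermediateField M Ω, acl F₁ = F₁ → ∀ a : Fin r → Ω,
          (∀ g ∈ G, MvPolynomial.eval a g = 0) → a l₀ ∉ F₁ →
          ∀ X ∈ F₁ ⊔ IntermediateField.adjoin M (Set.range a),
          ∀ Y ∈ F₁ ⊔ IntermediateField.adjoin M (Set.range a),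
          X ^ (2 * N) + Y ^ 2 = 1 → X ∈ F₁) →
        ∀ X ∈ L ⊔ IntermediateField.adjoin M T, ∀ Y ∈ L ⊔ IntermediateField.adjoin M T,
          X ^ (2 * N) + Y ^ 2 = 1 → X ∈ L ∧ Y ∈ L) ∧
      (∃ a : Fin r → Ω, a l₀ ∉ acl (⊥ : IntermediateField M Ω) ∧
        (∀ g ∈ G, MvPolynomial.eval a g = 0) ∧
        ∀ l, a l ∈ IntermediateField.adjoin M T ⊔ M⟮ρ⟯) := by
  obtain ⟨h1, h2, h3⟩ := valid_descent (M := M) hG hV
  obtain ⟨T, hTf, hT1, hT2, φ, hφ1, hφ2⟩ := step_thm (K := M) (Ω := Ω)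
      (fun l => (Ideal.Quotient.mk _ (MvPolynomial.X l) : Coord M G))
      (hgen_coord _) l₀ h1 h2 h3 hΩ ρ hρ2 hρ0
  refine ⟨T, hTf, hT1, ?_, fun l => φ (Ideal.Quotient.mk _ (MvPolynomial.X l)), hφ1,
    fun g hg => zero_of_hom hG φ hg, hφ2⟩
  intro L hL N hN hcase
  refine hT2 L hL N hN ?_
  rcases hcase with h | h
  · exact Or.inl h
  · right
    intro F₁ hF₁ φ hφ
    exact h F₁ hF₁ (fun l => φ (Ideal.Quotient.mk _ (MvPolynomial.X l)))
      (fun g hg => zero_of_hom hG φ hg) hφ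

end

end Pool.Agent.H1.Ample
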