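import Mathlib
import Pool.Agent.H1.Ample.Coord

set_option autoImplicit false
set_option linter.unusedSectionVars false

namespace Pool.Agent.H1.Ample

open scoped IntermediateField

/-- requirements -/
structure Rq (Ω : Type*) [Field Ω] where
  r : ℕ
  G : Finset (MvPolynomial (Fin r) Ω)
  l₀ : Fin r

section

variable {k Ω : Type*} [Field k] [Field Ω] [Algebra k Ω]

def Rq.valid (R : Rq Ω) : Prop := Valid (R.G : Set (MvPolynomial (Fin R.r) Ω)) R.l₀

def Rq.defOver (R : Rq Ω) (M : IntermediateField k Ω) : Prop :=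
  ∀ g ∈ (R.G : Set (MvPolynomial (Fin R.r) Ω)),
    g ∈ Set.range (MvPolynomial.map (σ := Fin R.r) (algebraMap M Ω))

theorem Rq.defOver_iff {R : Rq Ω} {M : IntermediateField k Ω} :
    R.defOver M ↔ ∀ g ∈ R.G, (g.coeffs : Set Ω) ⊆ M := by
  unfold Rq.defOver
  constructor
  · intro h g hg
    have := h g hg
    rw [MvPolynomial.mem_range_map_iff_coeffs_subset] at this
    intro c hc
    obtain ⟨d, rfl⟩ := this hc
    exact d.2
  · intro h g hg
    rw [MvPolynomial.mem_range_map_iff_coeffs_subset]
    intro c hc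
    exact ⟨⟨c, h g hg hc⟩, rfl⟩

theorem Rq.defOver_mono {R : Rq Ω} {M M' : IntermediateField k Ω} (h : M ≤ M')
    (hR : R.defOver M) : R.defOver M' := by
  rw [Rq.defOver_iff] at hR ⊢
  exact fun g hg => (hR g hg).trans h

/-- the uniform bound -/
def PhiG (k : Type*) [Field k] {Ω : Type*} [Field Ω] [Algebra k Ω] (R : Rq Ω) (N : ℕ) : Prop :=
  ∀ F₁ : IntermediateField k Ω, acl F₁ = F₁ → R.defOver F₁ → ∀ a : Fin R.r → Ω,
    (∀ g ∈ R.G, MvPolynomial.eval a g = 0) → a R.l₀ ∉ F₁ →
    ∀ X ∈ F₁ ⊔ IntermediateField.adjoin k (Set.range a),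
    ∀ Y ∈ F₁ ⊔ IntermediateField.adjoin k (Set.range a),
    X ^ (2 * N) + Y ^ 2 = 1 → X ∈ F₁

theorem ext_sup {K L : IntermediateField k Ω} (h : K ≤ L) (S : Set Ω) {x : Ω} :
    x ∈ (IntermediateField.extendScalars h ⊔ IntermediateField.adjoin K S :
      IntermediateField K Ω) ↔ x ∈ L ⊔ IntermediateField.adjoin k S := by
  have h1 : (IntermediateField.extendScalars h ⊔ IntermediateField.adjoin K S :
      IntermediateField K Ω) = IntermediateField.adjoin K ((L : Set Ω) ∪ S) := by
    rw [IntermediateField.adjoin_union]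
    congr 1
    have h2 : (IntermediateField.extendScalars h : IntermediateField K Ω) =
        IntermediateField.adjoin K ((IntermediateField.extendScalars h :
          IntermediateField K Ω) : Set Ω) := (IntermediateField.adjoin_self _ _).symm
    rw [h2]
    rfl
  rw [h1, mem_adjoin_over, IntermediateField.adjoin_union, IntermediateField.adjoin_self,
    ← sup_assoc, sup_eq_right.mpr h]

theorem mem_acl_ext {K L : IntermediateField k Ω} (h : K ≤ L) {x : Ω} :
    x ∈ acl (IntermediateField.extendScalars h) ↔ x ∈ acl L := by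
  rw [mem_acl, mem_acl]
  exact Iff.rfl

end

section

variable {k Ω : Type*} [Field k] [Field Ω] [Algebra k Ω] [CharZero k]

theorem exists_PhiG {R : Rq Ω} (hV : R.valid) : ∃ N₀ : ℕ, ∀ N ≥ N₀, PhiG k R N := by
  classical
  set K₀ : IntermediateField k Ω := IntermediateField.adjoin k
    (⋃ g ∈ R.G, (g.coeffs : Set Ω)) with hK₀
  have : CharZero K₀ := charZero_of_injective_algebraMap (algebraMap k K₀).injective
  have hdef : R.defOver K₀ := by
    rw [Rq.defOver_iff]
    intro g hg c hc
    apply IntermediateField.subset_adjoin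
    rw [Set.mem_iUnion₂]
    exact ⟨g, hg, hc⟩
  obtain ⟨N₀, hN₀⟩ := exists_Phi_coord (M := K₀) hdef hV
  refine ⟨N₀, fun N hN F₁ hF₁ hdF a ha haF X hX Y hY h => ?_⟩
  have hKF : K₀ ≤ F₁ := by
    rw [hK₀, IntermediateField.adjoin_le_iff]
    rw [Rq.defOver_iff] at hdF
    intro c hc
    rw [Set.mem_iUnion₂] at hc
    obtain ⟨g, hg, hc⟩ := hc
    exact hdF g hg hc
  have hacl : acl (IntermediateField.extendScalars hKF) = IntermediateField.extendScalars hKF := by
    ext x
    rw [mem_acl_ext, hF₁, IntermediateField.mem_extendScalars]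
  have key := hN₀ N hN (IntermediateField.extendScalars hKF) hacl a ha (by
    rw [IntermediateField.mem_extendScalars]; exact haF) X (by
    rw [ext_sup]; exact hX) Y (by rw [ext_sup]; exact hY) h
  rw [IntermediateField.mem_extendScalars] at key
  exact key

/-- one step of the construction -/
structure StepRel (K K' : IntermediateField k Ω) (ρ : Ω) (R : Rq Ω) : Prop where
  le : K ≤ K'
  alg : ∀ L : IntermediateField k Ω, K ≤ L → L ≤ acl K → ∀ s ∈ acl K, s ∈ L ⊔ K' → s ∈ L
  pr : ∀ L : IntermediateField k Ω, K ≤ L → L ≤ acl K → ∀ N ≥ 3,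
    (ρ ∉ L ∨ (R.valid → PhiG k R N)) → Pr N L → Pr N (L ⊔ K')
  pt : R.valid → R.defOver K → ∃ a : Fin R.r → Ω, (∀ l, a l ∈ K' ⊔ k⟮ρ⟯) ∧
    (∀ g ∈ R.G, MvPolynomial.eval a g = 0) ∧ a R.l₀ ∉ acl K

theorem step_exists [IsAlgClosed Ω]
    (hΩ : ∀ S : Set Ω, S.Finite → ∃ u, u ∉ acl (IntermediateField.adjoin k S))
    {K : IntermediateField k Ω} (hK : ∃ S : Set Ω, S.Finite ∧ K = IntermediateField.adjoin k S)
    {ρ : Ω} (hρ2 : ρ ^ 2 ∈ K) (hρ0 : ρ ≠ 0) (R : Rq Ω) :
    ∃ K' : IntermediateField k Ω, StepRel K K' ρ R ∧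
      ∃ S : Set Ω, S.Finite ∧ K' = IntermediateField.adjoin k S := by
  by_cases hR : R.valid ∧ R.defOver K
  · obtain ⟨hV, hdef⟩ := hR
    have : CharZero K := charZero_of_injective_algebraMap (algebraMap k K).injective
    have hbot : ∀ s : Ω, s ∈ acl (⊥ : IntermediateField K Ω) ↔ s ∈ acl K := fun s => by
      rw [mem_acl_bot, mem_acl]
    obtain ⟨S, hSf, hS⟩ := hK
    obtain ⟨u, hu⟩ := hΩ S hSf
    obtain ⟨v, hv⟩ := hΩ (insert u S) (hSf.insert u)
    have huv : ∃ u v : Ω, u ∉ acl (⊥ : IntermediateField K Ω) ∧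
        v ∉ acl (IntermediateField.adjoin K {u}) := by
      refine ⟨u, v, ?_, ?_⟩
      · rw [hbot, hS]; exact hu
      · intro h
        apply hv
        rw [mem_acl] at h
        have h4 : v ∈ acl ((IntermediateField.adjoin K {u}).restrictScalars k) := mem_acl.mpr h
        rw [IntermediateField.restrictScalars_adjoin_eq_sup] at h4
        refine acl_mono ?_ h4
        rw [hS, ← IntermediateField.adjoin_union, Set.union_singleton]
    obtain ⟨T, hTf, hT1, hT2, a, ha1, ha2, ha3⟩ := step_coord (M := K) (Ω := Ω)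
      hdef hV huv ρ (IntermediateField.mem_bot.mpr ⟨⟨ρ ^ 2, hρ2⟩, rfl⟩) hρ0
    have hsup : ∀ {L : IntermediateField k Ω} (hL : K ≤ L), L ⊔ (K ⊔ IntermediateField.adjoin k T) =
        L ⊔ IntermediateField.adjoin k T := by
      intro L hL
      rw [← sup_assoc, sup_eq_left.mpr hL]
    have hle : ∀ {L : IntermediateField k Ω} (hL : K ≤ L), L ≤ acl K →
        (IntermediateField.extendScalars hL : IntermediateField K Ω) ≤ acl ⊥ := by
      intro L hL hLa s hs
      rw [hbot]
      exact hLa hs
    refine ⟨K ⊔ IntermediateField.adjoin k T, ⟨le_sup_left, ?_, ?_, ?_⟩, ?_⟩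
    · intro L hL hLa s hs hsL
      have := hT1 (IntermediateField.extendScalars hL) (hle hL hLa) s ((hbot s).mpr hs)
        (by rw [ext_sup, ← hsup hL]; exact hsL)
      rwa [IntermediateField.mem_extendScalars] at this
    · intro L hL hLa N hN hcase hPr X hX Y hY h
      have key := hT2 (IntermediateField.extendScalars hL) (hle hL hLa) N hN (by
        rcases hcase with h | h
        · left
          rw [IntermediateField.mem_extendScalars]; exact h
        · right
          intro F₁ hF₁ a ha haF X hX Y hY hXY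
          have hP := h hV
          have hKF : K ≤ F₁.restrictScalars k := fun x hx => F₁.algebraMap_mem ⟨x, hx⟩
          have h5 : IntermediateField.extendScalars hKF = F₁ := by
            ext x; rfl
          refine hP (F₁.restrictScalars k) ?_ (Rq.defOver_mono hKF hdef)
            a ha haF X ?_ Y ?_ hXY
          · apply le_antisymm _ (le_acl _)
            intro x hx
            rw [mem_acl] at hx
            have : x ∈ acl F₁ := mem_acl.mpr hx
            rw [hF₁] at this
            exact this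
          · rw [← ext_sup hKF, h5]; exact hX
          · rw [← ext_sup hKF, h5]; exact hY) X
        (by rw [ext_sup, ← hsup hL]; exact hX) Y (by rw [ext_sup, ← hsup hL]; exact hY) h
      rw [IntermediateField.mem_extendScalars, IntermediateField.mem_extendScalars] at key
      exact hPr X key.1 Y key.2 h
    · intro _ _
      refine ⟨a, fun l => ?_, ha2, ?_⟩
      · have h4 := ha3 l
        rw [← IntermediateField.adjoin_union, mem_adjoin_over, IntermediateField.adjoin_union,
          ← sup_assoc] at h4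
        exact h4
      · rw [← hbot]; exact ha1
    · refine ⟨S ∪ T, hSf.union hTf, ?_⟩
      rw [hS, IntermediateField.adjoin_union]
  · refine ⟨K, ⟨le_rfl, ?_, ?_, ?_⟩, hK⟩
    · intro L hL _ s _ hs
      rwa [sup_eq_left.mpr hL] at hs
    · intro L hL _ N _ _ hPr
      rwa [sup_eq_left.mpr hL]
    · intro h1 h2
      exact absurd ⟨h1, h2⟩ hR

end

end Pool.Agent.H1.Ample
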