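import Mathlib
import Pool.Agent.H1.Ample.Tower

set_option autoImplicit false
set_option linter.unusedSectionVars false

namespace Pool.Agent.H1.Ample

open scoped IntermediateField

section Quad

variable {F E : Type*} [Field F] [Field E] [Algebra F E]

theorem quad_mem {r s : E} {c : F} (hr : r ^ 2 = algebraMap F E c) (hs : s ∈ F⟮r⟯) :
    ∃ a b : F, s = algebraMap F E a + algebraMap F E b * r := by
  have halg : IsAlgebraic F r := by
    refine IsIntegral.isAlgebraic ⟨Polynomial.X ^ 2 - Polynomial.C c, ?_, ?_⟩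
    · exact Polynomial.monic_X_pow_sub_C _ (by norm_num)
    · rw [Polynomial.eval₂_sub, Polynomial.eval₂_X_pow, Polynomial.eval₂_C, hr, sub_self]
  have hs2 : s ∈ Algebra.adjoin F {r} := by
    rw [← IntermediateField.adjoin_simple_toSubalgebra_of_isAlgebraic halg]
    exact hs
  induction hs2 using Algebra.adjoin_induction with
  | mem x hx =>
    rw [Set.mem_singleton_iff] at hx
    exact ⟨0, 1, by rw [hx]; simp⟩
  | algebraMap a => exact ⟨a, 0, by simp⟩
  | add x y hxm hym hx hy =>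
    have hx' := hx (by
      have : (Algebra.adjoin F {r}) ≤ F⟮r⟯.toSubalgebra := by
        rw [IntermediateField.adjoin_simple_toSubalgebra_of_isAlgebraic halg]
      exact this hxm)
    have hy' := hy (by
      have : (Algebra.adjoin F {r}) ≤ F⟮r⟯.toSubalgebra := by
        rw [IntermediateField.adjoin_simple_toSubalgebra_of_isAlgebraic halg]
      exact this hym)
    obtain ⟨a, b, h1⟩ := hx'
    obtain ⟨a', b', h2⟩ := hy'
    exact ⟨a + a', b + b', by rw [h1, h2, map_add, map_add]; ring⟩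
  | mul x y hxm hym hx hy =>
    have hx' := hx (by
      have : (Algebra.adjoin F {r}) ≤ F⟮r⟯.toSubalgebra := by
        rw [IntermediateField.adjoin_simple_toSubalgebra_of_isAlgebraic halg]
      exact this hxm)
    have hy' := hy (by
      have : (Algebra.adjoin F {r}) ≤ F⟮r⟯.toSubalgebra := by
        rw [IntermediateField.adjoin_simple_toSubalgebra_of_isAlgebraic halg]
      exact this hym)
    obtain ⟨a, b, h1⟩ := hx'
    obtain ⟨a', b', h2⟩ := hy'
    refine ⟨a * a' + b * b' * c, a * b' + b * a', ?_⟩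
    rw [h1, h2, map_add, map_add, map_mul, map_mul, map_mul, map_mul, map_mul]
    linear_combination (algebraMap F E b * algebraMap F E b') * hr

theorem quad_mem' [CharZero F] {r s : E} {c d : F} (hr : r ^ 2 = algebraMap F E c)
    (hs2 : s ^ 2 = algebraMap F E d) (hrF : ∀ a : F, algebraMap F E a ≠ r) (hs : s ∈ F⟮r⟯) :
    (∃ a : F, algebraMap F E a = s) ∨ (∃ a : F, algebraMap F E a = s * r) := by
  obtain ⟨a, b, hab⟩ := quad_mem hr hs
  have h1 : algebraMap F E (2 * a * b) * r = algebraMap F E (d - a ^ 2 - b ^ 2 * c) := by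
    simp only [map_mul, map_sub, map_pow, map_ofNat]
    rw [← hs2, hab, ← hr]
    ring
  by_cases h0 : 2 * a * b = 0
  · have h2 : a = 0 ∨ b = 0 := by
      rcases mul_eq_zero.mp h0 with h | h
      · left
        rcases mul_eq_zero.mp h with h | h
        · exact absurd h two_ne_zero
        · exact h
      · right; exact h
    rcases h2 with h2 | h2
    · right
      refine ⟨b * c, ?_⟩
      rw [hab, h2, map_zero, zero_add, map_mul, ← hr]
      ring
    · left
      exact ⟨a, by rw [hab, h2, map_zero, zero_mul, add_zero]⟩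
  · exfalso
    apply hrF ((d - a ^ 2 - b ^ 2 * c) / (2 * a * b))
    have h0' : algebraMap F E (2 * a * b) ≠ 0 := by rwa [Ne, map_eq_zero]
    rw [map_div₀, ← h1]
    field_simp

/-- a finite extension contains finitely many square roots from an independent family -/
theorem finite_roots [CharZero F] [FiniteDimensional F E] {ρ : ℕ → E} {I : Set ℕ}
    (h2 : ∀ i ∈ I, ∃ c : F, ρ i ^ 2 = algebraMap F E c)
    (h1 : ∀ i ∈ I, ∀ a : F, algebraMap F E a ≠ ρ i)
    (h12 : ∀ i ∈ I, ∀ j ∈ I, i ≠ j → ∀ a : F, algebraMap F E a ≠ ρ i * ρ j) : I.Finite := by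
  have hfin : Finite (IntermediateField F E) := by
    rw [← Field.exists_primitive_element_iff_finite_intermediateField]
    exact ⟨inferInstance, Field.exists_primitive_element F E⟩
  refine Set.Finite.of_finite_image (f := fun i => F⟮ρ i⟯) (Set.toFinite _) ?_
  intro i hi j hj hij
  by_contra hne
  dsimp only at hij
  obtain ⟨c, hc⟩ := h2 i hi
  obtain ⟨d, hd⟩ := h2 j hj
  have hmem : ρ j ∈ F⟮ρ i⟯ := by
    rw [hij]; exact IntermediateField.mem_adjoin_simple_self F _
  rcases quad_mem' hc hd (h1 i hi) hmem with ⟨a, ha⟩ | ⟨a, ha⟩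
  · exact h1 j hj a ha
  · exact h12 i hi j hj hne a (by rw [ha, mul_comm])

end Quad

section

variable {k Ω : Type*} [Field k] [Field Ω] [Algebra k Ω] [CharZero k]

theorem exists_tower [IsAlgClosed Ω]
    (hΩ : ∀ S : Set Ω, S.Finite → ∃ u, u ∉ acl (IntermediateField.adjoin k S))
    {K₀ : IntermediateField k Ω} (hK₀ : ∃ S : Set Ω, S.Finite ∧ K₀ = IntermediateField.adjoin k S)
    {ρ : ℕ → Ω} (hρ2 : ∀ i, ρ i ^ 2 ∈ K₀) (hρ0 : ∀ i, ρ i ≠ 0) (R : ℕ → Rq Ω) :
    ∃ K : ℕ → IntermediateField k Ω, K 0 = K₀ ∧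
      (∀ n, ∃ S : Set Ω, S.Finite ∧ K n = IntermediateField.adjoin k S) ∧
      ∀ n, StepRel (K n) (K (n + 1)) (ρ (Nat.unpair n).1) (R (Nat.unpair n).1) := by
  let P : IntermediateField k Ω → Prop := fun K =>
    (∃ S : Set Ω, S.Finite ∧ K = IntermediateField.adjoin k S) ∧ K₀ ≤ K
  have hex : ∀ (n : ℕ) (K : {K // P K}), ∃ K' : {K // P K},
      StepRel K.1 K'.1 (ρ (Nat.unpair n).1) (R (Nat.unpair n).1) := by
    intro n K
    obtain ⟨K', h1, h2⟩ := step_exists hΩ K.2.1 (K.2.2 (hρ2 (Nat.unpair n).1))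
      (hρ0 (Nat.unpair n).1) (R (Nat.unpair n).1)
    exact ⟨⟨K', h2, K.2.2.trans h1.le⟩, h1⟩
  choose f hf using hex
  let K : ℕ → {K // P K} := fun n => Nat.rec ⟨K₀, hK₀, le_rfl⟩ (fun n K => f n K) n
  exact ⟨fun n => (K n).1, rfl, fun n => (K n).2.1, fun n => hf n (K n)⟩

variable {K : ℕ → IntermediateField k Ω} {ρ : ℕ → Ω} {R : ℕ → Rq Ω}

theorem tower_mono
    (hstep : ∀ n, StepRel (K n) (K (n + 1)) (ρ (Nat.unpair n).1) (R (Nat.unpair n).1)) :
    Monotone K := monotone_nat_of_le_succ (fun n => (hstep n).le)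

omit [CharZero k] in
theorem mem_iSup_of_mono (hK : Monotone K) {s : Ω} : s ∈ (⨆ n, K n) ↔ ∃ n, s ∈ K n := by
  have h1 : ((⨆ n, K n : IntermediateField k Ω) : Set Ω) = ⋃ n, (K n : Set Ω) :=
    IntermediateField.coe_iSup_of_directed hK.directed_le
  rw [← SetLike.mem_coe, h1, Set.mem_iUnion]
  rfl

omit [CharZero k] in
theorem exists_finite_subset (hK : Monotone K) {S : Set Ω} (hS : S.Finite)
    (h : ∀ s ∈ S, ∃ n, s ∈ K n) : ∃ n, ∀ s ∈ S, s ∈ K n := by
  induction S, hS using Set.Finite.induction_on with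
  | empty => exact ⟨0, fun s hs => absurd hs (Set.notMem_empty s)⟩
  | insert _ _ ih =>
    obtain ⟨n, hn⟩ := ih (fun s hs => h s (Set.mem_insert_of_mem _ hs))
    obtain ⟨m, hm⟩ := h _ (Set.mem_insert _ _)
    refine ⟨max n m, fun s hs => ?_⟩
    rcases hs with rfl | hs
    · exact hK (le_max_right _ _) hm
    · exact hK (le_max_left _ _) (hn s hs)

omit [CharZero k] in
theorem mem_acl_iSup (hK : Monotone K) {s : Ω} (hs : s ∈ acl (⨆ n, K n)) : ∃ n, s ∈ acl (K n) := by
  rw [mem_acl] at hs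
  obtain ⟨P, hP, hPc, hPs⟩ := (isIntegral_subring_iff (S := (⨆ n, K n : IntermediateField k Ω).toSubfield.toSubring)).mp hs.isIntegral
  obtain ⟨n, hn⟩ := exists_finite_subset hK (S := (P.coeffs : Set Ω)) P.coeffs.finite_toSet (by
    intro c hc
    rw [Finset.mem_coe, Polynomial.mem_coeffs_iff] at hc
    obtain ⟨i, _, rfl⟩ := hc
    exact (mem_iSup_of_mono hK).mp (hPc i))
  refine ⟨n, ?_⟩
  rw [mem_acl]
  apply IsIntegral.isAlgebraic
  refine (isIntegral_subring_iff (S := (K n).toSubfield.toSubring)).mpr ⟨P, hP, fun i => ?_, hPs⟩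
  by_cases hi : P.coeff i = 0
  · rw [hi]; exact zero_mem _
  · exact hn _ (Polynomial.coeff_mem_coeffs hi)

theorem tower_alg
    (hstep : ∀ n, StepRel (K n) (K (n + 1)) (ρ (Nat.unpair n).1) (R (Nat.unpair n).1))
    {s : Ω} {n : ℕ} (hs : s ∈ acl (K n)) (hsK : s ∈ (⨆ n, K n)) : s ∈ K n := by
  have hK := tower_mono hstep
  obtain ⟨m, hm⟩ := (mem_iSup_of_mono hK).mp hsK
  have key : ∀ m ≥ n, s ∈ K m → s ∈ K n := by
    intro m hm
    induction m, hm using Nat.le_induction with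
    | base => exact fun h => h
    | succ m hm ih =>
      intro h
      apply ih
      exact (hstep m).alg (K m) le_rfl (le_acl _) s (acl_mono (hK hm) hs)
        (le_sup_right (a := K m) h)
  exact key (max m n) (le_max_right _ _) (hK (le_max_left _ _) hm)

theorem mem_acl_of_sq {M : IntermediateField k Ω} {r : Ω} (h : r ^ 2 ∈ M) : r ∈ acl M := by
  rw [mem_acl]
  refine IsIntegral.isAlgebraic ⟨Polynomial.X ^ 2 - Polynomial.C ⟨r ^ 2, h⟩, ?_, ?_⟩
  · exact Polynomial.monic_X_pow_sub_C _ (by norm_num)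
  · rw [Polynomial.eval₂_sub, Polynomial.eval₂_X_pow, Polynomial.eval₂_C]
    exact sub_self _

/-- infinitely many points over `K(ρ_i)` -/
theorem infinite_points
    (hstep : ∀ n, StepRel (K n) (K (n + 1)) (ρ (Nat.unpair n).1) (R (Nat.unpair n).1))
    (hρ2 : ∀ i, ρ i ^ 2 ∈ K 0) (i : ℕ) (hV : (R i).valid) (hdef : (R i).defOver (⨆ n, K n)) :
    {a : Fin (R i).r → Ω | (∀ l, a l ∈ (⨆ n, K n) ⊔ k⟮ρ i⟯) ∧
      ∀ g ∈ (R i).G, MvPolynomial.eval a g = 0}.Infinite := by
  classical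
  have hK := tower_mono hstep
  intro hfin
  -- all the coordinates are algebraic over some `K m`
  have haclmono : Monotone (fun n => acl (K n)) := fun a b h => acl_mono (hK h)
  have hle : (⨆ n, K n) ⊔ k⟮ρ i⟯ ≤ acl (⨆ n, K n) := by
    apply sup_le (le_acl _)
    rw [IntermediateField.adjoin_simple_le_iff]
    exact acl_mono (le_iSup K 0) (mem_acl_of_sq (hρ2 i))
  obtain ⟨m, hm⟩ := exists_finite_subset haclmono (hfin.image (fun a => a (R i).l₀)) (by
    rintro _ ⟨a, ⟨ha1, _⟩, rfl⟩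
    exact mem_acl_iSup hK (hle (ha1 _)))
  obtain ⟨n₀, hn₀⟩ : ∃ n₀, (R i).defOver (K n₀) := by
    have h1 : ∃ n, ∀ c ∈ (⋃ g ∈ (R i).G, (g.coeffs : Set Ω)), c ∈ K n := by
      apply exists_finite_subset hK
      · exact Set.Finite.biUnion (R i).G.finite_toSet (fun g _ => g.coeffs.finite_toSet)
      · intro c hc
        rw [Set.mem_iUnion₂] at hc
        obtain ⟨g, hg, hc⟩ := hc
        rw [Rq.defOver_iff] at hdef
        exact (mem_iSup_of_mono hK).mp (hdef g hg hc)
    obtain ⟨n, hn⟩ := h1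
    refine ⟨n, ?_⟩
    rw [Rq.defOver_iff]
    intro g hg c hc
    exact hn c (Set.mem_iUnion₂.mpr ⟨g, hg, hc⟩)
  set n := Nat.pair i (max m n₀) with hn
  have hnm : max m n₀ ≤ n := Nat.right_le_pair _ _
  have hi : (Nat.unpair n).1 = i := by rw [hn, Nat.unpair_pair]
  have hs := hstep n
  rw [hi] at hs
  obtain ⟨a, ha1, ha2, ha3⟩ := hs.pt hV (Rq.defOver_mono (hK ((le_max_right _ _).trans hnm)) hn₀)
  have haZ : a ∈ {a : Fin (R i).r → Ω | (∀ l, a l ∈ (⨆ n, K n) ⊔ k⟮ρ i⟯) ∧
      ∀ g ∈ (R i).G, MvPolynomial.eval a g = 0} := by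
    refine ⟨fun l => ?_, ha2⟩
    exact sup_le_sup_right (le_iSup K (n + 1)) _ (ha1 l)
  apply ha3
  exact haclmono ((le_max_left _ _).trans hnm) (hm _ ⟨a, haZ, rfl⟩)

/-- finitely many `ρ_i` in a finite extension -/
theorem finite_index
    (hstep : ∀ n, StepRel (K n) (K (n + 1)) (ρ (Nat.unpair n).1) (R (Nat.unpair n).1))
    (hρ2 : ∀ i, ρ i ^ 2 ∈ K 0) (hρ1 : ∀ i, ρ i ∉ K 0) (hρ12 : ∀ i j, i ≠ j → ρ i * ρ j ∉ K 0)
    {L : IntermediateField k Ω} (_hL : (⨆ n, K n) ≤ L) {S : Set Ω} (hSf : S.Finite)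
    (hS : ∀ s ∈ S, s ∈ acl (⨆ n, K n)) (hLS : L = (⨆ n, K n) ⊔ IntermediateField.adjoin k S) :
    {i | ρ i ∈ L}.Finite := by
  classical
  set F := (⨆ n, K n) with hF
  have : CharZero F := charZero_of_injective_algebraMap (algebraMap k F).injective
  have hK0 : K 0 ≤ F := le_iSup K 0
  -- the extension as an `F`-algebra
  have hE : ∀ x : Ω, x ∈ IntermediateField.adjoin F S ↔ x ∈ L := by
    intro x; rw [mem_adjoin_over, ← hLS]
  have hfd : FiniteDimensional F (IntermediateField.adjoin F S) := by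
    have : Finite S := hSf
    exact IntermediateField.finiteDimensional_adjoin (fun s hs => (mem_acl.mp (hS s hs)).isIntegral)
  let ρ' : ℕ → IntermediateField.adjoin F S := fun i =>
    if h : ρ i ∈ IntermediateField.adjoin F S then ⟨ρ i, h⟩ else 0
  have hρ' : ∀ i ∈ {i | ρ i ∈ L}, ((ρ' i : IntermediateField.adjoin F S) : Ω) = ρ i := by
    intro i hi
    have h : ρ i ∈ IntermediateField.adjoin F S := (hE _).mpr hi
    simp only [ρ', dif_pos h]
  have hnot : ∀ s : Ω, s ∈ acl (K 0) → s ∈ F → s ∈ K 0 := fun s h1 h2 =>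
    tower_alg hstep h1 h2
  have hacl : ∀ i, ρ i ∈ acl (K 0) := fun i => mem_acl_of_sq (hρ2 i)
  refine finite_roots (F := F) (E := IntermediateField.adjoin F S) (ρ := ρ') ?_ ?_ ?_
  · intro i hi
    refine ⟨⟨ρ i ^ 2, hK0 (hρ2 i)⟩, Subtype.ext ?_⟩
    change ((ρ' i : IntermediateField.adjoin F S) : Ω) ^ 2 = ρ i ^ 2
    rw [hρ' i hi]
  · intro i hi a ha
    have h1 : (a : Ω) = ρ i := by
      rw [← hρ' i hi, ← ha]; rfl
    exact hρ1 i (hnot _ (hacl i) (by rw [← h1]; exact a.2))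
  · intro i hi j hj hij a ha
    have h1 : (a : Ω) = ρ i * ρ j := by
      rw [← hρ' i hi, ← hρ' j hj]
      exact congrArg Subtype.val ha
    exact hρ12 i j hij (hnot _ (mul_mem (hacl i) (hacl j)) (by rw [← h1]; exact a.2))

/-- the negative half -/
theorem not_va [IsAlgClosed k]
    (hstep : ∀ n, StepRel (K n) (K (n + 1)) (ρ (Nat.unpair n).1) (R (Nat.unpair n).1))
    (hfg : ∀ n, ∃ S : Set Ω, S.Finite ∧ K n = IntermediateField.adjoin k S)
    (hρ2 : ∀ i, ρ i ^ 2 ∈ K 0) (hρ1 : ∀ i, ρ i ∉ K 0) (hρ12 : ∀ i j, i ≠ j → ρ i * ρ j ∉ K 0)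
    {L : IntermediateField k Ω} (hL : (⨆ n, K n) ≤ L) {S : Set Ω} (hSf : S.Finite)
    (hS : ∀ s ∈ S, s ∈ acl (⨆ n, K n)) (hLS : L = (⨆ n, K n) ⊔ IntermediateField.adjoin k S) :
    ∃ j, ρ j ∉ L ∧ ∃ N ≥ 3, Pr N (L ⊔ k⟮ρ j⟯) := by
  classical
  have hK := tower_mono hstep
  obtain ⟨j, hj⟩ := (finite_index hstep hρ2 hρ1 hρ12 hL hSf hS hLS).exists_notMem
  refine ⟨j, hj, ?_⟩
  set F := (⨆ n, K n) with hF
  set S' := insert (ρ j) S with hS'
  have hSf' : S'.Finite := hSf.insert _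
  have hL' : L ⊔ k⟮ρ j⟯ = F ⊔ IntermediateField.adjoin k S' := by
    rw [hLS, hS', Set.insert_eq, IntermediateField.adjoin_union, sup_assoc,
      sup_comm (IntermediateField.adjoin k S)]
  have hSacl : ∀ s ∈ S', s ∈ acl F := by
    rintro s (rfl | hs)
    · exact acl_mono (le_iSup K 0) (mem_acl_of_sq (hρ2 j))
    · exact hS s hs
  have hIfin : {i | ρ i ∈ F ⊔ IntermediateField.adjoin k S'}.Finite :=
    finite_index hstep hρ2 hρ1 hρ12 le_sup_left hSf' hSacl rfl
  -- level `n₀`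
  have haclmono : Monotone (fun n => acl (K n)) := fun a b h => acl_mono (hK h)
  obtain ⟨n₀, hn₀⟩ := exists_finite_subset haclmono hSf' (fun s hs => mem_acl_iSup hK (hSacl s hs))
  obtain ⟨T, hTf, hT⟩ := hfg n₀
  obtain ⟨N₀, hN₀⟩ := exists_Pr (k := k) (hTf.union hSf')
  have hex : ∀ i : ℕ, ∃ M : ℕ, (R i).valid → ∀ N ≥ M, PhiG k (R i) N := by
    intro i
    by_cases hV : (R i).valid
    · obtain ⟨M, hM⟩ := exists_PhiG (k := k) hV
      exact ⟨M, fun _ => hM⟩
    · exact ⟨0, fun h => absurd h hV⟩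
  choose M hM using hex
  set N := 3 + N₀ + ∑ i ∈ hIfin.toFinset, M i with hN
  refine ⟨N, by omega, ?_⟩
  have hPhi : ∀ i, ρ i ∈ F ⊔ IntermediateField.adjoin k S' → (R i).valid → PhiG k (R i) N := by
    intro i hi hV
    apply hM i hV
    have h1 : M i ≤ ∑ i ∈ hIfin.toFinset, M i :=
      Finset.single_le_sum (f := M) (fun _ _ => Nat.zero_le _) (hIfin.mem_toFinset.mpr hi)
    omega
  have key : ∀ n ≥ n₀, Pr N (K n ⊔ IntermediateField.adjoin k S') := by
    intro n hn
    induction n, hn using Nat.le_induction with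
    | base =>
      rw [hT, ← IntermediateField.adjoin_union]
      exact hN₀ N (by omega)
    | succ n hn ih =>
      have h1 : K (n + 1) ⊔ IntermediateField.adjoin k S' =
          (K n ⊔ IntermediateField.adjoin k S') ⊔ K (n + 1) := by
        rw [sup_comm (K n), sup_assoc, sup_eq_right.mpr (hK (Nat.le_succ n)), sup_comm]
      rw [h1]
      apply (hstep n).pr _ le_sup_left ?_ N (by omega) ?_ ih
      · apply sup_le (le_acl _)
        rw [IntermediateField.adjoin_le_iff]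
        intro s hs
        exact haclmono hn (hn₀ s hs)
      · by_cases hi : ρ (Nat.unpair n).1 ∈ F ⊔ IntermediateField.adjoin k S'
        · right
          exact hPhi _ hi
        · left
          intro h
          exact hi (sup_le_sup_right (le_iSup K n) _ h)
  rw [hL']
  intro X hX Y hY h
  have hmono' : Monotone (fun n => K n ⊔ IntermediateField.adjoin k S') :=
    fun a b h => sup_le_sup_right (hK h) _
  have hsup : F ⊔ IntermediateField.adjoin k S' = ⨆ n, (K n ⊔ IntermediateField.adjoin k S') := by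
    rw [hF, iSup_sup]
  rw [hsup, mem_iSup_of_mono hmono'] at hX hY
  obtain ⟨a, ha⟩ := hX
  obtain ⟨b, hb⟩ := hY
  exact key (max n₀ (max a b)) (le_max_left _ _) X
    (hmono' ((le_max_left _ _).trans (le_max_right _ _)) ha) Y
    (hmono' ((le_max_right _ _).trans (le_max_right _ _)) hb) h

end

end Pool.Agent.H1.Ample
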