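import Mathlib
import Pool.Agent.H1.Ample.Limit

set_option autoImplicit false
set_option linter.unusedSectionVars false

namespace Pool.Agent.H1.Ample

open scoped IntermediateField

section

theorem countable_of_algebraic (R L : Type) [CommRing R] [IsDomain R] [CommRing L] [IsDomain L]
    [Algebra R L] [Module.IsTorsionFree R L] [Algebra.IsAlgebraic R L] [Countable R] :
    Countable L := by
  rw [← Cardinal.mk_le_aleph0_iff]
  exact (Algebra.IsAlgebraic.cardinalMk_le_max R L).trans
    (max_le (Cardinal.mk_le_aleph0_iff.mpr inferInstance) le_rfl)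

theorem countable_mvPolynomial (σ R : Type) [CommRing R] [Countable σ] [Countable R] :
    Countable (MvPolynomial σ R) := by
  rw [← Cardinal.mk_le_aleph0_iff]
  exact MvPolynomial.cardinalMk_le_max.trans
    (max_le (max_le (Cardinal.mk_le_aleph0_iff.mpr inferInstance)
      (Cardinal.mk_le_aleph0_iff.mpr inferInstance)) le_rfl)

theorem countable_fractionRing (R L : Type) [CommRing R] [Field L] [Algebra R L]
    [IsFractionRing R L] [Countable R] : Countable L := by
  rw [← Cardinal.mk_le_aleph0_iff, IsFractionRing.cardinalMk R L, Cardinal.mk_le_aleph0_iff]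
  infer_instance

/-- infinite transcendence degree gives fresh elements -/
theorem exists_fresh {k Ω : Type*} [Field k] [Field Ω] [Algebra k Ω] {e : ℕ → Ω}
    (he : AlgebraicIndependent k e) {S : Set Ω} (hS : S.Finite) :
    ∃ u, u ∉ acl (IntermediateField.adjoin k S) := by
  by_contra hcon
  push Not at hcon
  have hI : (AlgebraicIndependent.matroid k Ω).Indep (Set.range e) := by
    rw [AlgebraicIndependent.matroid_indep_iff]
    exact he.coe_range
  have h1 : (Set.range e).encard ≤ (AlgebraicIndependent.matroid k Ω).eRk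
      ((AlgebraicIndependent.matroid k Ω).closure S) := by
    apply hI.encard_le_eRk_of_subset
    intro u _
    rw [mem_matroid_closure]
    exact hcon u
  rw [Matroid.eRk_closure_eq] at h1
  have h2 := h1.trans ((AlgebraicIndependent.matroid k Ω).eRk_le_encard S)
  have h3 : (Set.range e).Infinite := Set.infinite_range_of_injective he.injective
  have h4 : (Set.range e).Finite := Set.finite_of_encard_le_coe (k := hS.toFinset.card) (by
    rw [← Set.encard_coe_eq_coe_finsetCard, hS.coe_toFinset]
    exact h2)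
  exact h3 h4

theorem exists_base : ∃ (k Ω : Type) (_ : Field k) (_ : Field Ω) (_ : Algebra k Ω),
    IsAlgClosed k ∧ CharZero k ∧ IsAlgClosed Ω ∧ Countable Ω ∧
    ∀ S : Set Ω, S.Finite → ∃ u, u ∉ acl (IntermediateField.adjoin k S) := by
  have h1 : Countable (AlgebraicClosure ℚ) :=
    @countable_of_algebraic ℚ (AlgebraicClosure ℚ) inferInstance inferInstance inferInstance
      inferInstance _ inferInstance (AlgebraicClosure.isAlgebraic ℚ) inferInstance
  have h2 : Countable (MvPolynomial ℕ (AlgebraicClosure ℚ)) := countable_mvPolynomial _ _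
  have h3 : Countable (FractionRing (MvPolynomial ℕ (AlgebraicClosure ℚ))) :=
    countable_fractionRing (MvPolynomial ℕ (AlgebraicClosure ℚ)) _
  have h4 : Countable (AlgebraicClosure (FractionRing (MvPolynomial ℕ (AlgebraicClosure ℚ)))) :=
    countable_of_algebraic (FractionRing (MvPolynomial ℕ (AlgebraicClosure ℚ))) _
  refine ⟨AlgebraicClosure ℚ,
    AlgebraicClosure (FractionRing (MvPolynomial ℕ (AlgebraicClosure ℚ))),
    inferInstance, inferInstance, inferInstance, inferInstance, inferInstance, inferInstance,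
    h4, ?_⟩
  intro S hS
  let j : MvPolynomial ℕ (AlgebraicClosure ℚ) →ₐ[AlgebraicClosure ℚ]
    AlgebraicClosure (FractionRing (MvPolynomial ℕ (AlgebraicClosure ℚ))) :=
    (IsScalarTower.toAlgHom (AlgebraicClosure ℚ)
      (FractionRing (MvPolynomial ℕ (AlgebraicClosure ℚ))) _).comp
    (IsScalarTower.toAlgHom (AlgebraicClosure ℚ) (MvPolynomial ℕ (AlgebraicClosure ℚ))
      (FractionRing (MvPolynomial ℕ (AlgebraicClosure ℚ))))
  have hj : Function.Injective j := by
    intro a b hab
    exact IsFractionRing.injective _ _ ((algebraMap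
      (FractionRing (MvPolynomial ℕ (AlgebraicClosure ℚ))) _).injective hab)
  exact exists_fresh (e := fun i => j (MvPolynomial.X i))
    ((MvPolynomial.algebraicIndependent_X ℕ (AlgebraicClosure ℚ)).map' hj) hS

end

section

variable {k Ω : Type*} [Field k] [Field Ω] [Algebra k Ω]

theorem sq_in_rational {t s : Ω} (ht : Transcendental k t) {q : Polynomial k}
    (hs : s ∈ k⟮t⟯) (h : s ^ 2 = Polynomial.aeval t q) : ∃ p : Polynomial k, p ^ 2 = q := by
  have hmem : Polynomial.aeval t q ∈ Algebra.adjoin k {t} := by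
    rw [Algebra.adjoin_singleton_eq_range_aeval]
    exact ⟨q, rfl⟩
  have hint : IsIntegral (Algebra.adjoin k {t}) s := by
    refine ⟨Polynomial.X ^ 2 - Polynomial.C ⟨_, hmem⟩, ?_, ?_⟩
    · exact Polynomial.monic_X_pow_sub_C _ (by norm_num)
    · rw [Polynomial.eval₂_sub, Polynomial.eval₂_X_pow, Polynomial.eval₂_C]
      rw [h]
      exact sub_self _
  have h1 := mem_adjoin_of_integral hs hint
  rw [Algebra.adjoin_singleton_eq_range_aeval] at h1
  obtain ⟨p, hp⟩ := h1
  refine ⟨p, (transcendental_iff_injective.mp ht) ?_⟩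
  rw [map_pow]
  change Polynomial.aeval t p = s at hp
  rw [hp, h]

theorem not_sq_linear (c : k) (p : Polynomial k) : p ^ 2 ≠ Polynomial.X - Polynomial.C c := by
  intro h
  have h1 := congrArg Polynomial.natDegree h
  rw [Polynomial.natDegree_pow, Polynomial.natDegree_X_sub_C] at h1
  omega

theorem not_sq_product {c d : k} (hcd : c ≠ d) (p : Polynomial k) :
    p ^ 2 ≠ (Polynomial.X - Polynomial.C c) * (Polynomial.X - Polynomial.C d) := by
  intro h
  have h1 : (Polynomial.X - Polynomial.C c) ∣ p := by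
    apply (Polynomial.prime_X_sub_C c).dvd_of_dvd_pow (n := 2)
    rw [h]
    exact dvd_mul_right _ _
  obtain ⟨q, rfl⟩ := h1
  have h2 : (Polynomial.X - Polynomial.C c) * q ^ 2 = Polynomial.X - Polynomial.C d := by
    apply mul_left_cancel₀ (Polynomial.X_sub_C_ne_zero c)
    rw [← h]; ring
  have h3 := congrArg (Polynomial.eval c) h2
  simp only [Polynomial.eval_mul, Polynomial.eval_sub, Polynomial.eval_X, Polynomial.eval_C,
    sub_self, zero_mul] at h3
  exact hcd (sub_eq_zero.mp h3.symm)

theorem exists_rho [CharZero k] [IsAlgClosed Ω] {t : Ω} (ht : Transcendental k t) :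
    ∃ ρ : ℕ → Ω, (∀ i, ρ i ^ 2 = t - (i : Ω)) ∧ (∀ i, ρ i ^ 2 ∈ k⟮t⟯) ∧ (∀ i, ρ i ≠ 0) ∧
      (∀ i, ρ i ∉ k⟮t⟯) ∧ (∀ i j, i ≠ j → ρ i * ρ j ∉ k⟮t⟯) := by
  have hex : ∀ i : ℕ, ∃ r : Ω, r ^ 2 = t - (i : Ω) := fun i =>
    IsAlgClosed.exists_pow_nat_eq (t - (i : Ω)) (by norm_num)
  choose ρ hρ using hex
  have hmem : ∀ i, ρ i ^ 2 ∈ k⟮t⟯ := by
    intro i
    rw [hρ]
    exact sub_mem (IntermediateField.mem_adjoin_simple_self k t) (natCast_mem _ i)
  have haev : ∀ i : ℕ, Polynomial.aeval t (Polynomial.X - Polynomial.C (i : k)) = t - (i : Ω) := by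
    intro i; simp
  refine ⟨ρ, hρ, hmem, ?_, ?_, ?_⟩
  · intro i h0
    apply ht
    have h1 := hρ i
    rw [h0, zero_pow (by norm_num)] at h1
    have h2 : t = algebraMap k Ω (i : k) := by
      rw [map_natCast]; linear_combination -h1
    rw [h2]
    exact isAlgebraic_algebraMap _
  · intro i hi
    obtain ⟨p, hp⟩ := sq_in_rational ht hi (q := Polynomial.X - Polynomial.C (i : k))
      (by rw [haev, hρ])
    exact not_sq_linear _ p hp
  · intro i j hij hm
    obtain ⟨p, hp⟩ := sq_in_rational ht hm
      (q := (Polynomial.X - Polynomial.C (i : k)) * (Polynomial.X - Polynomial.C (j : k)))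
      (by rw [map_mul, haev, haev, mul_pow, hρ, hρ])
    refine not_sq_product ?_ p hp
    exact_mod_cast hij

theorem exists_enum (Ω : Type) [Field Ω] [Countable Ω] : ∃ R : ℕ → Rq Ω, Function.Surjective R := by
  have h1 : ∀ r, Countable (MvPolynomial (Fin r) Ω) := fun r => countable_mvPolynomial _ _
  let f : Rq Ω → Σ r, Finset (MvPolynomial (Fin r) Ω) × Fin r := fun R => ⟨R.r, R.G, R.l₀⟩
  have hf : Function.Injective f := by
    rintro ⟨r, G, l⟩ ⟨r', G', l'⟩ h
    simp only [f, Sigma.mk.injEq] at h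
    obtain ⟨rfl, h2⟩ := h
    simp only [heq_eq_eq, Prod.mk.injEq] at h2
    obtain ⟨rfl, rfl⟩ := h2
    rfl
  have : Countable (Rq Ω) := hf.countable
  have : Nonempty (Rq Ω) := ⟨⟨1, ∅, 0⟩⟩
  exact exists_surjective_nat _

end

end Pool.Agent.H1.Ample
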