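import Mathlib
import Pool.Agent.H1.Ample.BaseField

set_option autoImplicit false
set_option linter.unusedSectionVars false

namespace Pool.Agent.H1.Ample

open TensorProduct
open scoped IntermediateField

section

variable (F : Type) [Field F]

/-- the equation `x^m + c y^2 = 1` -/
noncomputable def qpoly (c : F) (m : ℕ) : MvPolynomial (Fin 2) F :=
  MvPolynomial.X 0 ^ m + MvPolynomial.C c * MvPolynomial.X 1 ^ 2 - 1

/-- the coordinate ring of `x^m + c y^2 = 1` -/
abbrev QRing (c : F) (m : ℕ) : Type := MvPolynomial (Fin 2) F ⧸ Ideal.span {qpoly F c m}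

/-- the coordinate functions -/
noncomputable def qx (c : F) (m : ℕ) : QRing F c m := Ideal.Quotient.mk _ (MvPolynomial.X 0)
noncomputable def qy (c : F) (m : ℕ) : QRing F c m := Ideal.Quotient.mk _ (MvPolynomial.X 1)

variable {F} {c : F} {m : ℕ}

theorem q_rel : (qx F c m) ^ m + algebraMap F _ c * (qy F c m) ^ 2 = 1 := by
  have h1 : (Ideal.Quotient.mk (Ideal.span {qpoly F c m})) (qpoly F c m) = 0 :=
    Ideal.Quotient.eq_zero_iff_mem.mpr (Ideal.subset_span rfl)
  unfold qpoly at h1
  rw [map_sub, map_add, map_mul, map_pow, map_pow, map_one] at h1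
  exact sub_eq_zero.mp h1

theorem exists_qhom {T : Type*} [CommRing T] [Algebra F T] {x y : T}
    (h : x ^ m + algebraMap F T c * y ^ 2 = 1) :
    ∃ φ : QRing F c m →ₐ[F] T, φ (qx F c m) = x ∧ φ (qy F c m) = y := by
  let a : Fin 2 → T := ![x, y]
  have hle : Ideal.span {qpoly F c m} ≤
      RingHom.ker (MvPolynomial.aeval a : MvPolynomial (Fin 2) F →ₐ[F] T) := by
    rw [Ideal.span_le, Set.singleton_subset_iff, SetLike.mem_coe, RingHom.mem_ker]
    unfold qpoly
    rw [map_sub, map_add, map_mul, map_pow, map_pow, map_one, MvPolynomial.aeval_X,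
      MvPolynomial.aeval_X, MvPolynomial.aeval_C]
    change x ^ m + algebraMap F T c * y ^ 2 - 1 = 0
    rw [h, sub_self]
  refine ⟨Ideal.Quotient.liftₐ _ (MvPolynomial.aeval a) (fun p hp => hle hp), ?_, ?_⟩
  · change MvPolynomial.aeval a (MvPolynomial.X 0) = x
    rw [MvPolynomial.aeval_X]; rfl
  · change MvPolynomial.aeval a (MvPolynomial.X 1) = y
    rw [MvPolynomial.aeval_X]; rfl

theorem qhom_ext {T : Type*} [CommRing T] [Algebra F T] {φ ψ : QRing F c m →ₐ[F] T}
    (h1 : φ (qx F c m) = ψ (qx F c m)) (h2 : φ (qy F c m) = ψ (qy F c m)) : φ = ψ := by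
  apply Ideal.Quotient.algHom_ext
  apply MvPolynomial.algHom_ext
  intro i
  fin_cases i
  · exact h1
  · exact h2

theorem qhom_rel {T : Type*} [CommRing T] [Algebra F T] (φ : QRing F c m →ₐ[F] T) :
    (φ (qx F c m)) ^ m + algebraMap F T c * (φ (qy F c m)) ^ 2 = 1 := by
  have := congrArg φ (q_rel (F := F) (c := c) (m := m))
  rw [map_add, map_mul, map_pow, map_pow, map_one, AlgHom.commutes] at this
  exact this

theorem qy_sq (hc : c ≠ 0) : (qy F c m) ^ 2 =
    Polynomial.aeval (qx F c m) (Polynomial.C c⁻¹ * (1 - Polynomial.X ^ m)) := by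
  have h1 := q_rel (F := F) (c := c) (m := m)
  rw [map_mul, Polynomial.aeval_C, map_sub, map_one, map_pow, Polynomial.aeval_X, ← h1]
  have h2 : algebraMap F (QRing F c m) c⁻¹ * algebraMap F (QRing F c m) c = 1 := by
    rw [← map_mul, inv_mul_cancel₀ hc, map_one]
  linear_combination (-(qy F c m) ^ 2) * h2

/-- normal form -/
theorem q_normal (hc : c ≠ 0) (b : QRing F c m) : ∃ A B : Polynomial F,
    b = Polynomial.aeval (qx F c m) A + Polynomial.aeval (qx F c m) B * qy F c m := by
  obtain ⟨p, rfl⟩ := Ideal.Quotient.mk_surjective b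
  induction p using MvPolynomial.induction_on with
  | C a =>
    refine ⟨Polynomial.C a, 0, ?_⟩
    rw [map_zero, zero_mul, add_zero, Polynomial.aeval_C]
    rfl
  | add p q hp hq =>
    obtain ⟨A, B, h1⟩ := hp
    obtain ⟨A', B', h2⟩ := hq
    refine ⟨A + A', B + B', ?_⟩
    rw [map_add, h1, h2, map_add, map_add]
    ring
  | mul_X p i hp =>
    obtain ⟨A, B, h1⟩ := hp
    fin_cases i
    · refine ⟨A * Polynomial.X, B * Polynomial.X, ?_⟩
      rw [map_mul, h1, map_mul, map_mul, Polynomial.aeval_X]
      change _ * qx F c m = _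
      ring
    · refine ⟨B * (Polynomial.C c⁻¹ * (1 - Polynomial.X ^ m)), A, ?_⟩
      rw [map_mul, h1, map_mul, ← qy_sq hc]
      change _ * qy F c m = _
      ring

theorem not_sq_one_sub (hc : c ≠ 0) (hm : m ≠ 0) [CharZero F] (p : Polynomial F) :
    p ^ 2 ≠ Polynomial.C c⁻¹ * (1 - Polynomial.X ^ m) := by
  intro h
  have h1 := congrArg (Polynomial.eval 1) h
  simp only [Polynomial.eval_pow, Polynomial.eval_mul, Polynomial.eval_C, Polynomial.eval_sub,
    Polynomial.eval_one, Polynomial.eval_X, one_pow, sub_self, mul_zero] at h1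
  have h2 : p.eval 1 = 0 := by simpa using h1
  have h3 := congrArg (fun q => Polynomial.eval 1 (Polynomial.derivative q)) h
  simp only [Polynomial.derivative_pow, Polynomial.derivative_mul, Polynomial.derivative_C,
    Polynomial.derivative_sub, Polynomial.derivative_one,
    Polynomial.eval_mul, Polynomial.eval_add, Polynomial.eval_sub, Polynomial.eval_pow,
    Polynomial.eval_C, Polynomial.eval_X, Polynomial.eval_one, Polynomial.eval_zero, h2,
    one_pow] at h3
  norm_num at h3
  rcases h3 with h3 | h3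
  · exact hc h3
  · exact hm h3

/-- the ring is a domain, embedded in a field, and `x` is transcendental -/
theorem q_embed (hc : c ≠ 0) (hm : m ≠ 0) [CharZero F] :
    ∃ (E : Type) (_ : Field E) (_ : Algebra F E) (φ : QRing F c m →ₐ[F] E),
      Function.Injective φ ∧ Transcendental F (φ (qx F c m)) := by
  let j : Polynomial F →ₐ[F] AlgebraicClosure (FractionRing (Polynomial F)) :=
    (IsScalarTower.toAlgHom F (FractionRing (Polynomial F)) _).comp
    (IsScalarTower.toAlgHom F (Polynomial F) (FractionRing (Polynomial F)))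
  have hj : Function.Injective j := by
    intro a b hab
    exact IsFractionRing.injective _ _ ((algebraMap (FractionRing (Polynomial F)) _).injective hab)
  set t := j Polynomial.X with ht
  have hjt : ∀ p, Polynomial.aeval t p = j p := by
    intro p
    rw [ht, Polynomial.aeval_algHom_apply, Polynomial.aeval_X_left_apply]
  have htT : Transcendental F t := by
    rw [transcendental_iff]
    intro p hp
    rw [hjt] at hp
    exact hj (by rw [hp, map_zero])
  obtain ⟨r, hr⟩ := IsAlgClosed.exists_pow_nat_eq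
    (Polynomial.aeval t (Polynomial.C c⁻¹ * (1 - Polynomial.X ^ m))) (n := 2) (by norm_num)
  obtain ⟨φ, hφx, hφy⟩ := exists_qhom (F := F) (c := c) (m := m) (x := t) (y := r) (by
    rw [hr, map_mul, Polynomial.aeval_C, map_sub, map_one, map_pow, Polynomial.aeval_X,
      ← mul_assoc, ← map_mul, mul_inv_cancel₀ hc, map_one]
    ring)
  refine ⟨_, inferInstance, inferInstance, φ, ?_, by rw [hφx]; exact htT⟩
  rw [injective_iff_map_eq_zero]
  intro b hb
  obtain ⟨A, B, rfl⟩ := q_normal hc b
  rw [map_add, map_mul, ← Polynomial.aeval_algHom_apply, ← Polynomial.aeval_algHom_apply, hφx,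
    hφy] at hb
  by_cases hB : B = 0
  · rw [hB, map_zero, zero_mul, add_zero] at hb
    have hA : A = 0 := (transcendental_iff.mp htT) A hb
    rw [hA, hB, map_zero, zero_mul, add_zero]
  · exfalso
    have hBt : Polynomial.aeval t B ≠ 0 := fun h => hB ((transcendental_iff.mp htT) B h)
    have hmem : ∀ p : Polynomial F, Polynomial.aeval t p ∈ F⟮t⟯ := by
      intro p
      have h1 : Polynomial.aeval t p ∈ Algebra.adjoin F {t} := by
        rw [Algebra.adjoin_singleton_eq_range_aeval]; exact ⟨p, rfl⟩
      exact (IntermediateField.algebra_adjoin_le_adjoin F _) h1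
    have hrm : r ∈ F⟮t⟯ := by
      have h1 : r = (-Polynomial.aeval t A) / Polynomial.aeval t B := by
        field_simp
        linear_combination hb
      rw [h1]
      exact div_mem (neg_mem (hmem A)) (hmem B)
    obtain ⟨p, hp⟩ := sq_in_rational htT hrm hr
    exact not_sq_one_sub hc hm p hp

theorem q_isDomain (hc : c ≠ 0) (hm : m ≠ 0) [CharZero F] : IsDomain (QRing F c m) := by
  obtain ⟨E, _, _, φ, hφ, _⟩ := q_embed (F := F) hc hm
  exact Function.Injective.isDomain φ.toRingHom hφ

/-- base change of the ring is a domain -/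
theorem q_tensor_isDomain {L : Type} [Field L] [Algebra F L] (hc : c ≠ 0) (hm : m ≠ 0)
    [CharZero F] : IsDomain (L ⊗[F] QRing F c m) := by
  have hL : CharZero L := charZero_of_injective_algebraMap (algebraMap F L).injective
  have hpre : (MvPolynomial.map (σ := Fin 2) (algebraMap F L)) ⁻¹' {qpoly L (algebraMap F L c) m} =
      {qpoly F c m} := by
    ext p
    rw [Set.mem_preimage, Set.mem_singleton_iff, Set.mem_singleton_iff]
    have h1 : MvPolynomial.map (algebraMap F L) (qpoly F c m) = qpoly L (algebraMap F L c) m := by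
      unfold qpoly
      simp
    rw [← h1]
    exact (MvPolynomial.map_injective _ (algebraMap F L).injective).eq_iff
  obtain ⟨e, -⟩ := exists_equiv (Ω := L) F {qpoly L (algebraMap F L c) m} (by
    rintro g rfl
    exact ⟨qpoly F c m, by unfold qpoly; simp⟩)
  have hd : IsDomain (MvPolynomial (Fin 2) L ⧸ Ideal.span {qpoly L (algebraMap F L c) m}) :=
    q_isDomain (F := L) (by rwa [Ne, map_eq_zero]) hm
  have h2 : IsDomain (L ⊗[F] Coord F {qpoly L (algebraMap F L c) m}) :=
    e.toRingEquiv.toMulEquiv.isDomain _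
  unfold Coord at h2
  rw [hpre] at h2
  exact h2

theorem q_krullDimLE (hc : c ≠ 0) (hm : m ≠ 0) [CharZero F] :
    ¬ IsField (QRing F c m) ∧ Ring.KrullDimLE 1 (QRing F c m) := by
  have hdom := q_isDomain (F := F) (c := c) hc hm
  let iA : Algebra (Polynomial F) (QRing F c m) := (Polynomial.aeval (qx F c m)).toAlgebra
  have hmap : ∀ p, algebraMap (Polynomial F) (QRing F c m) p = Polynomial.aeval (qx F c m) p :=
    fun _ => rfl
  have hinj : Function.Injective (algebraMap (Polynomial F) (QRing F c m)) := by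
    obtain ⟨E, _, _, φ, hφ, htr⟩ := q_embed (F := F) hc hm
    rw [injective_iff_map_eq_zero]
    intro p hp
    rw [hmap] at hp
    apply (transcendental_iff.mp htr)
    rw [Polynomial.aeval_algHom_apply, hp, map_zero]
  have hint : Algebra.IsIntegral (Polynomial F) (QRing F c m) := by
    refine ⟨fun b => ?_⟩
    obtain ⟨A, B, rfl⟩ := q_normal hc b
    rw [← hmap, ← hmap]
    have hy : IsIntegral (Polynomial F) (qy F c m) := by
      refine ⟨Polynomial.X ^ 2 - Polynomial.C (Polynomial.C c⁻¹ * (1 - Polynomial.X ^ m)), ?_, ?_⟩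
      · exact Polynomial.monic_X_pow_sub_C _ (by norm_num)
      · rw [Polynomial.eval₂_sub, Polynomial.eval₂_X_pow, Polynomial.eval₂_C, hmap, qy_sq hc,
          sub_self]
    exact isIntegral_algebraMap.add (isIntegral_algebraMap.mul hy)
  refine ⟨fun hf => Polynomial.not_isField F (isField_of_isIntegral_of_isField hinj hf), ?_⟩
  rw [Ring.krullDimLE_one_iff_of_noZeroDivisors]
  intro I hI hIp
  obtain ⟨x, hx, hx0⟩ := Submodule.exists_mem_ne_zero_of_ne_bot hI
  have h1 : Ideal.comap (algebraMap (Polynomial F) (QRing F c m)) I ≠ ⊥ :=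
    Ideal.comap_ne_bot_of_integral_mem hx0 hx (Algebra.IsIntegral.isIntegral x)
  have h2 : (Ideal.comap (algebraMap (Polynomial F) (QRing F c m)) I).IsPrime :=
    Ideal.comap_isPrime _ I
  have h3 : (Ideal.comap (algebraMap (Polynomial F) (QRing F c m)) I).IsMaximal :=
    IsPrime.to_maximal_ideal h1
  exact Ideal.isMaximal_of_isIntegral_of_isMaximal_comap I h3

theorem q_formallySmooth (hm : m ≠ 0) [CharZero F] : Algebra.FormallySmooth F (QRing F c m) := by
  apply Algebra.FormallySmooth.of_comp_surjective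
  intro T _ _ I hI g
  obtain ⟨x, hx⟩ := Ideal.Quotient.mk_surjective (g (qx F c m))
  obtain ⟨y, hy⟩ := Ideal.Quotient.mk_surjective (g (qy F c m))
  have hg := qhom_rel g
  set ε : T := x ^ m + algebraMap F T c * y ^ 2 - 1 with hε
  have hεI : ε ∈ I := by
    rw [← Ideal.Quotient.eq_zero_iff_mem, hε, map_sub, map_add, map_mul, map_pow, map_pow, map_one,
      hx, hy]
    rw [sub_eq_zero]
    exact hg
  have hε2 : ε ^ 2 = 0 := by
    have : ε ^ 2 ∈ I ^ 2 := Ideal.pow_mem_pow hεI 2
    rw [hI] at this
    exact this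
  have hQ : ∀ n : ℕ, n ≠ 0 → algebraMap F T (n : F)⁻¹ * (n : T) = 1 := by
    intro n hn
    have : (n : F) ≠ 0 := by exact_mod_cast hn
    rw [← map_natCast (algebraMap F T), ← map_mul, inv_mul_cancel₀ this, map_one]
  have hpow : ∀ (n : ℕ) (δ : T), δ ^ 2 = 0 → (1 + δ) ^ n = 1 + n * δ := by
    intro n δ hδ
    induction n with
    | zero => simp
    | succ n ih =>
      rw [pow_succ, ih]
      push_cast
      linear_combination (n : T) * hδ
  set a : T := algebraMap F T (m : F)⁻¹ with ha
  set b : T := algebraMap F T ((2 : ℕ) : F)⁻¹ with hb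
  have ham : a * (m : T) = 1 := hQ m hm
  have hb2 : b * 2 = 1 := by
    have := hQ 2 two_ne_zero
    push_cast at this
    exact this
  obtain ⟨φ, hφx, hφy⟩ := exists_qhom (F := F) (c := c) (m := m)
    (x := x * (1 + (-(a * ε)))) (y := y * (1 + (-(b * ε)))) (by
      rw [mul_pow, mul_pow, hpow m _ (by rw [neg_sq, mul_pow, hε2, mul_zero]),
        hpow 2 _ (by rw [neg_sq, mul_pow, hε2, mul_zero])]
      have h1 : (m : T) * -(a * ε) = -ε := by linear_combination (-ε) * ham
      have h2 : ((2 : ℕ) : T) * -(b * ε) = -ε := by push_cast; linear_combination (-ε) * hb2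
      rw [h1, h2]
      have h3 : x ^ m + algebraMap F T c * y ^ 2 = 1 + ε := by rw [hε]; ring
      linear_combination (1 - ε) * h3 - hε2)
  refine ⟨φ, ?_⟩
  apply qhom_ext
  · change Ideal.Quotient.mk I (φ (qx F c m)) = g (qx F c m)
    rw [hφx, map_mul, map_add, map_one, map_neg, map_mul, Ideal.Quotient.eq_zero_iff_mem.mpr hεI,
      mul_zero, neg_zero, add_zero, mul_one, hx]
  · change Ideal.Quotient.mk I (φ (qy F c m)) = g (qy F c m)
    rw [hφy, map_mul, map_add, map_one, map_neg, map_mul, Ideal.Quotient.eq_zero_iff_mem.mpr hεI,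
      mul_zero, neg_zero, add_zero, mul_one, hy]

theorem q_smooth (hm : m ≠ 0) [CharZero F] : Algebra.Smooth F (QRing F c m) := by
  have h1 := q_formallySmooth (F := F) (c := c) hm
  have h2 : Algebra.FinitePresentation F (QRing F c m) :=
    Algebra.FinitePresentation.quotient (Submodule.fg_span (Set.finite_singleton _))
  exact ⟨h1, h2⟩

/-- finitely many points when only `y = 0` is possible -/
theorem q_finite (hm : m ≠ 0) (h : ∀ x y : F, x ^ m + c * y ^ 2 = 1 → y = 0) :
    Finite (QRing F c m →ₐ[F] F) := by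
  classical
  have hfin : {x : F | x ^ m = 1}.Finite := by
    have h1 : (Polynomial.X ^ m - Polynomial.C (1 : F)) ≠ 0 :=
      Polynomial.X_pow_sub_C_ne_zero (Nat.pos_of_ne_zero hm) 1
    refine (Polynomial.X ^ m - Polynomial.C (1 : F)).roots.toFinset.finite_toSet.subset ?_
    intro x hx
    rw [Finset.mem_coe, Multiset.mem_toFinset, Polynomial.mem_roots h1, Polynomial.IsRoot.def,
      Polynomial.eval_sub, Polynomial.eval_pow, Polynomial.eval_X, Polynomial.eval_C]
    rw [Set.mem_ofPred_eq] at hx
    rw [hx, sub_self]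
  have hfin' : Finite {x : F | x ^ m = 1} := hfin
  have hy : ∀ φ : QRing F c m →ₐ[F] F, φ (qy F c m) = 0 := fun φ => h _ _ (qhom_rel φ)
  refine Finite.of_injective (β := {x : F | x ^ m = 1})
    (fun φ => ⟨φ (qx F c m), by
      have h1 := qhom_rel φ
      rw [hy φ] at h1
      change (φ (qx F c m)) ^ m = 1
      rw [← h1]; ring⟩) ?_
  intro φ ψ hφψ
  exact qhom_ext (congrArg Subtype.val hφψ) (by rw [hy, hy])

end

end Pool.Agent.H1.Ample
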