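import Mathlib
import Pool.Agent.H1.Ample.Core

set_option autoImplicit false
set_option linter.unusedSectionVars false

namespace Pool.Agent.H1.Ample

open scoped IntermediateField.algebraAdjoinAdjoin
open scoped IntermediateField

/-- In a one-dimensional affine domain everything is algebraic over `K[z]`, `z` transcendental. -/
theorem alg_of_dim_le_one {K A : Type*} [Field K] [CommRing A] [IsDomain A] [Algebra K A]
    [Algebra.FiniteType K A] (h : ∀ P : Ideal A, P ≠ ⊥ → P.IsPrime → P.IsMaximal) {z : A}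
    (hz : Transcendental K z) (x : A) : IsAlgebraic (Algebra.adjoin K {z}) x := by
  classical
  by_contra hx
  let Q := FractionRing A
  let j : A →ₐ[K] Q := IsScalarTower.toAlgHom K A Q
  have hj : Function.Injective j := IsFractionRing.injective A Q
  set z' : Q := j z with hz'
  obtain ⟨Y, hY⟩ := (Algebra.FiniteType.out : (⊤ : Subalgebra K A).FG)
  let B : Subalgebra K⟮z'⟯ Q := Algebra.adjoin K⟮z'⟯ ((Y.image j : Finset Q) : Set Q)
  have hjB : ∀ a, j a ∈ B := by
    intro a
    have ha : a ∈ Algebra.adjoin K (Y : Set A) := by rw [hY]; trivial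
    induction ha using Algebra.adjoin_induction with
    | mem x hx =>
      apply Algebra.subset_adjoin
      rw [Finset.coe_image]
      exact ⟨x, hx, rfl⟩
    | algebraMap r =>
      rw [AlgHom.commutes, IsScalarTower.algebraMap_apply K K⟮z'⟯ Q]
      exact B.algebraMap_mem _
    | add x y _ _ hx hy => rw [map_add]; exact add_mem hx hy
    | mul x y _ _ hx hy => rw [map_mul]; exact mul_mem hx hy
  have hBft : Algebra.FiniteType K⟮z'⟯ B := by
    rw [← Subalgebra.fg_iff_finiteType]
    exact Subalgebra.fg_adjoin_finset _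
  let f : A →+* B := (j.toRingHom).codRestrict B hjB
  have hf : ∀ a, ((f a : B) : Q) = j a := fun a => rfl
  have hcl : ∀ p : Polynomial K, j (Polynomial.aeval z p) = Polynomial.aeval z' p := by
    intro p; rw [hz', Polynomial.aeval_algHom_apply]
  have hcl' : ∀ p : Polynomial K, Polynomial.aeval z' p ∈ K⟮z'⟯ := by
    intro p
    have h1 : Polynomial.aeval z' p ∈ Algebra.adjoin K {z'} := by
      rw [Algebra.adjoin_singleton_eq_range_aeval]; exact ⟨p, rfl⟩
    exact (IntermediateField.algebra_adjoin_le_adjoin K _) h1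
  have hcl0 : ∀ p : Polynomial K, p ≠ 0 → Polynomial.aeval z' p ≠ 0 := by
    intro p hp h0
    rw [← hcl] at h0
    have h1 : Polynomial.aeval z p = 0 := hj (by rw [h0, map_zero])
    exact hp ((transcendental_iff.mp hz) p h1)
  -- common denominators
  have hden : ∀ e ∈ B, ∃ p : Polynomial K, p ≠ 0 ∧ ∃ a : A, Polynomial.aeval z' p * e = j a := by
    intro e he
    induction he using Algebra.adjoin_induction with
    | mem x hx =>
      rw [Finset.coe_image] at hx
      obtain ⟨a, _, rfl⟩ := hx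
      exact ⟨1, one_ne_zero, a, by simp⟩
    | algebraMap r =>
      obtain ⟨a, b, hb, hab⟩ := IsFractionRing.div_surjective (A := Algebra.adjoin K {z'}) r
      have h1 : ∀ a : Algebra.adjoin K {z'}, ∃ p : Polynomial K, Polynomial.aeval z' p = (a : Q) := by
        rintro ⟨a, ha⟩
        rw [Algebra.adjoin_singleton_eq_range_aeval] at ha
        obtain ⟨p, hp⟩ := ha
        exact ⟨p, hp⟩
      obtain ⟨p, hp⟩ := h1 a
      obtain ⟨q, hq⟩ := h1 b
      have hb0 : ((b : Algebra.adjoin K {z'}) : Q) ≠ 0 := fun h =>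
        nonZeroDivisors.ne_zero hb (Subtype.ext h)
      refine ⟨q, ?_, Polynomial.aeval z p, ?_⟩
      · rintro rfl
        rw [map_zero] at hq
        exact hb0 hq.symm
      · rw [hcl, hp, hq, ← hab]
        change (b : Q) * ((a : Q) / (b : Q)) = (a : Q)
        rw [mul_div_assoc', mul_div_cancel_left₀ _ hb0]
    | add x y _ _ hx hy =>
      obtain ⟨p, hp, a, ha⟩ := hx
      obtain ⟨q, hq, b, hb⟩ := hy
      refine ⟨p * q, mul_ne_zero hp hq, Polynomial.aeval z q * a + Polynomial.aeval z p * b, ?_⟩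
      rw [map_add, map_mul, map_mul, map_mul, hcl, hcl, ← ha, ← hb]
      ring
    | mul x y _ _ hx hy =>
      obtain ⟨p, hp, a, ha⟩ := hx
      obtain ⟨q, hq, b, hb⟩ := hy
      refine ⟨p * q, mul_ne_zero hp hq, a * b, ?_⟩
      rw [map_mul, map_mul, ← ha, ← hb]
      ring
  -- `B` is not a field
  have hBnf : ¬ IsField B := by
    intro hBf
    let iB : Field B := hBf.toField
    have hfin : Module.Finite K⟮z'⟯ B := finite_of_finite_type_of_isJacobsonRing _ _
    have h1 : IsAlgebraic K⟮z'⟯ (⟨j x, hjB x⟩ : B) := Algebra.IsAlgebraic.isAlgebraic _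
    have h2 : IsAlgebraic K⟮z'⟯ (j x) := h1.algHom B.val
    rw [← IsFractionRing.isAlgebraic_iff (Algebra.adjoin K {z'}) K⟮z'⟯ Q] at h2
    apply hx
    -- transfer back
    have hmap : (Algebra.adjoin K {z}).map j = Algebra.adjoin K {z'} := by
      rw [AlgHom.map_adjoin, Set.image_singleton]
    let e : Algebra.adjoin K {z} ≃ₐ[K] (Algebra.adjoin K {z}).map j :=
      Subalgebra.equivMapOfInjective _ j hj
    let e2 : Algebra.adjoin K {z} ≃ₐ[K] Algebra.adjoin K {z'} :=
      e.trans (Subalgebra.equivOfEq _ _ hmap)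
    exact IsAlgebraic.of_ringHom_of_comp_eq (e2 : Algebra.adjoin K {z} →+* Algebra.adjoin K {z'})
      (j : A →+* Q) h2 e2.surjective hj (RingHom.ext fun _ => rfl)
  obtain ⟨m, hm0, hmp⟩ := Ring.not_isField_iff_exists_prime.mp hBnf
  let P : Ideal A := m.comap f
  have hPp : P.IsPrime := Ideal.comap_isPrime f m
  have hP0 : P ≠ ⊥ := by
    obtain ⟨e, hem, he0⟩ := Submodule.exists_mem_ne_zero_of_ne_bot hm0
    obtain ⟨p, hp, a, ha⟩ := hden e e.2
    intro hbot
    have haP : a ∈ P := by
      change f a ∈ m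
      have : f a = (⟨Polynomial.aeval z' p, B.algebraMap_mem ⟨_, hcl' p⟩⟩ : B) * e :=
        Subtype.ext (by rw [hf, ← ha]; rfl)
      rw [this]
      exact m.mul_mem_left _ hem
    rw [hbot, Ideal.mem_bot] at haP
    rw [haP, map_zero] at ha
    rcases mul_eq_zero.mp ha with h1 | h1
    · exact hcl0 p hp h1
    · exact he0 (Subtype.ext h1)
  have hPm := h P hP0 hPp
  let iF : Field (A ⧸ P) := Ideal.Quotient.field P
  have hfin : Module.Finite K (A ⧸ P) := finite_of_finite_type_of_isJacobsonRing _ _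
  have halg : IsAlgebraic K (Ideal.Quotient.mkₐ K P z) := Algebra.IsAlgebraic.isAlgebraic _
  obtain ⟨p, hp, hpz⟩ := halg
  rw [Polynomial.aeval_algHom_apply] at hpz
  have hpP : Polynomial.aeval z p ∈ P := Ideal.Quotient.eq_zero_iff_mem.mp hpz
  have hpm : f (Polynomial.aeval z p) ∈ m := hpP
  have hunit : IsUnit (f (Polynomial.aeval z p)) := by
    have h0 : (⟨Polynomial.aeval z' p, hcl' p⟩ : K⟮z'⟯) ≠ 0 := fun h =>
      hcl0 p hp (congrArg Subtype.val h)
    have h1 : f (Polynomial.aeval z p) = algebraMap K⟮z'⟯ B ⟨Polynomial.aeval z' p, hcl' p⟩ :=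
      Subtype.ext (by rw [hf, hcl]; rfl)
    rw [h1]
    exact (IsUnit.mk0 _ h0).map _
  exact hmp.ne_top (Ideal.eq_top_of_isUnit_mem _ hpm hunit)

end Pool.Agent.H1.Ample
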