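import Mathlib
import Pool.Agent.H1.Ample.BaseField

set_option autoImplicit false
set_option linter.unusedSectionVars false

namespace Pool.Agent.H1.Ample

open scoped IntermediateField
open TensorProduct

section

variable {M A E : Type*} [Field M] [CommRing A] [Algebra M A] [Field E] [Algebra M E]

theorem exists_algHom_of_zero {r : ℕ} (π : MvPolynomial (Fin r) M →ₐ[M] A)
    (hπ : Function.Surjective π) {G₀ : Set (MvPolynomial (Fin r) M)}
    (hker : RingHom.ker π = Ideal.span G₀) (a : Fin r → E)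
    (ha : ∀ g ∈ G₀, MvPolynomial.aeval a g = 0) :
    ∃ φ : A →ₐ[M] E, ∀ l, φ (π (MvPolynomial.X l)) = a l := by
  have hle : RingHom.ker π ≤ RingHom.ker (MvPolynomial.aeval a : MvPolynomial (Fin r) M →ₐ[M] E) := by
    rw [hker, Ideal.span_le]
    intro g hg
    exact ha g hg
  let ψ : (MvPolynomial (Fin r) M ⧸ RingHom.ker π) →ₐ[M] E :=
    Ideal.Quotient.liftₐ _ (MvPolynomial.aeval a) (fun p hp => hle hp)
  let e := Ideal.quotientKerAlgEquivOfSurjective hπ
  refine ⟨ψ.comp e.symm.toAlgHom, fun l => ?_⟩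
  have h1 : e (Ideal.Quotient.mk _ (MvPolynomial.X l)) = π (MvPolynomial.X l) := rfl
  change ψ (e.symm (π (MvPolynomial.X l))) = a l
  rw [← h1, AlgEquiv.symm_apply_apply]
  change MvPolynomial.aeval a (MvPolynomial.X l) = a l
  rw [MvPolynomial.aeval_X]

theorem infinite_homs {Ω : Type*} [Field Ω] [Algebra M Ω] {r : ℕ}
    (π : MvPolynomial (Fin r) M →ₐ[M] A)
    (hπ : Function.Surjective π) {G₀ : Set (MvPolynomial (Fin r) M)}
    (hker : RingHom.ker π = Ideal.span G₀) (j : E →ₐ[M] Ω)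
    (h : {a : Fin r → Ω | (∀ l, ∃ e, j e = a l) ∧ ∀ g ∈ G₀, MvPolynomial.aeval a g = 0}.Infinite) :
    Infinite (A →ₐ[M] E) := by
  have hex : ∀ a : {a : Fin r → Ω | (∀ l, ∃ e, j e = a l) ∧ ∀ g ∈ G₀, MvPolynomial.aeval a g = 0},
      ∃ φ : A →ₐ[M] E, ∀ l, j (φ (π (MvPolynomial.X l))) = a.1 l := by
    rintro ⟨a, ha⟩
    obtain ⟨e, he⟩ : ∃ e : Fin r → E, ∀ l, j (e l) = a l :=
      ⟨fun l => (ha.1 l).choose, fun l => (ha.1 l).choose_spec⟩
    have ha2 := ha.2
    obtain ⟨φ, hφ⟩ := exists_algHom_of_zero π hπ hker e (by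
      intro g hg
      apply j.injective
      rw [map_zero, ← ha2 g hg]
      have h3 : (MvPolynomial.aeval a : MvPolynomial (Fin r) M →ₐ[M] Ω) =
          j.comp (MvPolynomial.aeval e) := by
        ext l
        simp [he]
      rw [h3]; rfl)
    exact ⟨φ, fun l => by rw [hφ, he]⟩
  choose f hf using hex
  have hinf : Infinite {a : Fin r → Ω | (∀ l, ∃ e, j e = a l) ∧
      ∀ g ∈ G₀, MvPolynomial.aeval a g = 0} := h.to_subtype
  refine Infinite.of_injective f ?_
  intro a b hab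
  apply Subtype.ext
  funext l
  rw [← hf a l, ← hf b l, hab]

end

/-- The purely field-theoretic result. -/
theorem field_thm : ∃ (K : Type) (_ : Field K), CharZero K ∧
    (∀ (A : Type) [CommRing A] [Algebra K A] (r : ℕ) (x : Fin r → A) (l₀ : Fin r),
      Algebra.adjoin K (Set.range x) = ⊤ →
      (∀ (F : Type) [Field F] [Algebra K F], IsDomain (F ⊗[K] A)) →
      Transcendental K (x l₀) → (∀ l, IsAlgebraic (Algebra.adjoin K {x l₀}) (x l)) →
      ∃ (L : Type) (_ : Field L) (_ : Algebra K L), FiniteDimensional K L ∧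
        Infinite (A →ₐ[K] L)) ∧
    (∀ (L : Type) [Field L] [Algebra K L] [FiniteDimensional K L],
      ∃ c : L, c ≠ 0 ∧ ∃ N ≥ 3, ∀ x y : L, x ^ (2 * N) + c * y ^ 2 = 1 → y = 0) := by
  classical
  obtain ⟨k, Ω, ik, iΩ, ikΩ, hkac, hk0, hΩac, hΩc, hΩ⟩ := exists_base
  obtain ⟨t, ht⟩ := hΩ ∅ Set.finite_empty
  have htT : Transcendental k t := by
    intro h
    apply ht
    rw [IntermediateField.adjoin_empty, mem_acl_bot]
    exact h
  obtain ⟨ρ, hρt, hρ2, hρ0, hρ1, hρ12⟩ := exists_rho htT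
  obtain ⟨R, hR⟩ := exists_enum Ω
  obtain ⟨K, hK0, hKfg, hstep⟩ := exists_tower hΩ
    (K₀ := k⟮t⟯) ⟨{t}, Set.finite_singleton t, rfl⟩ hρ2 hρ0 R
  rw [← hK0] at hρ2 hρ1 hρ12
  have hKm := tower_mono hstep
  set F : IntermediateField k Ω := ⨆ n, K n with hF
  have hF0 : K 0 ≤ F := le_iSup K 0
  have hcF : CharZero F := charZero_of_injective_algebraMap (algebraMap k F).injective
  refine ⟨F, inferInstance, hcF, ?_, ?_⟩
  · intro A _ _ r x l₀ hgen hdom htr halg
    let π : MvPolynomial (Fin r) F →ₐ[F] A := MvPolynomial.aeval x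
    have hπ : Function.Surjective π := by
      rw [← AlgHom.range_eq_top, ← Algebra.adjoin_range_eq_range_aeval]
      exact hgen
    have hπX : ∀ l, π (MvPolynomial.X l) = x l := fun l => MvPolynomial.aeval_X x l
    obtain ⟨G₀, hG₀⟩ := (isNoetherianRing_iff_ideal_fg _).mp
      (inferInstance : IsNoetherianRing (MvPolynomial (Fin r) F)) (RingHom.ker π)
    have hV := valid_of (Ω := Ω) π hπ (G₀ := (G₀ : Set _)) hG₀.symm (l₀ := l₀) (hdom Ω)
      (by rw [hπX]; exact htr) (by intro l; rw [hπX, hπX]; exact halg l)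
    let G : Finset (MvPolynomial (Fin r) Ω) := G₀.image (MvPolynomial.map (algebraMap F Ω))
    have hGcoe : (G : Set (MvPolynomial (Fin r) Ω)) =
        MvPolynomial.map (algebraMap F Ω) '' (G₀ : Set _) := by
      rw [Finset.coe_image]
    obtain ⟨i, hi⟩ := hR ⟨r, G, l₀⟩
    have hpts := infinite_points hstep hρ2 i (by
      rw [hi]
      change Valid (G : Set (MvPolynomial (Fin r) Ω)) l₀
      rw [hGcoe]; exact hV) (by
      rw [hi]
      intro g hg
      change g ∈ (G : Set (MvPolynomial (Fin r) Ω)) at hg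
      rw [hGcoe] at hg
      obtain ⟨p, _, hp⟩ := hg
      exact ⟨p, hp⟩)
    rw [hi] at hpts
    have hρalg : IsIntegral F (ρ i) :=
      (mem_acl.mp (acl_mono hF0 (mem_acl_of_sq (hρ2 i)))).isIntegral
    refine ⟨IntermediateField.adjoin F {ρ i}, inferInstance, inferInstance,
      IntermediateField.adjoin.finiteDimensional hρalg, ?_⟩
    refine infinite_homs (Ω := Ω) π hπ (G₀ := (G₀ : Set _)) hG₀.symm
      (IntermediateField.adjoin F {ρ i}).val ?_
    refine hpts.mono ?_
    rintro a ⟨ha1, ha2⟩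
    refine ⟨fun l => ?_, fun g hg => ?_⟩
    · have h1 := ha1 l
      rw [← mem_adjoin_over] at h1
      exact ⟨⟨a l, h1⟩, rfl⟩
    · have h2 := ha2 (MvPolynomial.map (algebraMap F Ω) g) (by
        change _ ∈ G
        exact Finset.mem_image_of_mem _ hg)
      rw [MvPolynomial.eval_map] at h2
      exact h2
  · intro L _ _ _
    let ψ : L →ₐ[F] Ω := IsAlgClosed.lift
    let b := Module.finBasis F L
    set S : Set Ω := Set.range fun i => ψ (b i) with hS
    have hSf : S.Finite := Set.finite_range _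
    have hrange : ψ.fieldRange = IntermediateField.adjoin F S := by
      apply le_antisymm
      · rintro _ ⟨y, rfl⟩
        change ψ y ∈ _
        rw [← b.sum_repr y, map_sum]
        apply sum_mem
        intro i _
        rw [map_smul, Algebra.smul_def]
        exact mul_mem (IntermediateField.algebraMap_mem _ _)
          (IntermediateField.subset_adjoin _ _ ⟨i, rfl⟩)
      · rw [IntermediateField.adjoin_le_iff]
        rintro _ ⟨i, rfl⟩
        exact ⟨b i, rfl⟩
    have hmemL : ∀ s : Ω, s ∈ F ⊔ IntermediateField.adjoin k S ↔ ∃ y : L, ψ y = s := by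
      intro s
      rw [← mem_adjoin_over, ← hrange]
      rfl
    have hSacl : ∀ s ∈ S, s ∈ acl F := by
      rintro _ ⟨i, rfl⟩
      rw [mem_acl]
      exact (Algebra.IsAlgebraic.isAlgebraic (R := F) (b i)).algHom ψ
    obtain ⟨j, hj, N, hN, hPr⟩ := not_va hstep hKfg hρ2 hρ1 hρ12 le_sup_left hSf hSacl rfl
    refine ⟨algebraMap F L ⟨ρ j ^ 2, hF0 (hρ2 j)⟩, ?_, N, hN, ?_⟩
    · rw [Ne, map_eq_zero]
      intro h
      exact hρ0 j (pow_eq_zero_iff (two_ne_zero) |>.mp (congrArg Subtype.val h))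
    · intro x y hxy
      by_contra hy
      have hψy : ψ y ≠ 0 := by rwa [Ne, map_eq_zero]
      have hc : ψ (algebraMap F L ⟨ρ j ^ 2, hF0 (hρ2 j)⟩) = ρ j ^ 2 := by
        rw [AlgHom.commutes]; rfl
      have h1 : (ψ x) ^ (2 * N) + (ρ j * ψ y) ^ 2 = 1 := by
        have := congrArg ψ hxy
        rw [map_add, map_mul, map_pow, map_pow, hc, map_one] at this
        rw [← this]; ring
      have hxm : ψ x ∈ (F ⊔ IntermediateField.adjoin k S) ⊔ k⟮ρ j⟯ :=
        le_sup_left (b := k⟮ρ j⟯) ((hmemL _).mpr ⟨x, rfl⟩)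
      have hym : ρ j * ψ y ∈ (F ⊔ IntermediateField.adjoin k S) ⊔ k⟮ρ j⟯ :=
        mul_mem (le_sup_right (a := F ⊔ IntermediateField.adjoin k S)
          (IntermediateField.mem_adjoin_simple_self k (ρ j)))
          (le_sup_left (b := k⟮ρ j⟯) ((hmemL _).mpr ⟨y, rfl⟩))
      have h2 := hPr _ hxm _ hym h1
      have h3 : (ρ j * ψ y) ^ 2 ∈ (⊥ : IntermediateField k Ω) := by
        have : (ρ j * ψ y) ^ 2 = 1 - (ψ x) ^ (2 * N) := by linear_combination h1
        rw [this]
        exact sub_mem (one_mem _) (pow_mem h2 _)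
      have h4 : ρ j * ψ y ∈ (⊥ : IntermediateField k Ω) := by
        have := mem_acl_of_sq h3
        rwa [acl_bot] at this
      apply hj
      have h5' : (⊥ : IntermediateField k Ω) ≤ F ⊔ IntermediateField.adjoin k S := bot_le
      have h5 : ρ j * ψ y ∈ F ⊔ IntermediateField.adjoin k S := h5' h4
      have h6 : ρ j = (ρ j * ψ y) / ψ y := by field_simp
      rw [h6]
      exact div_mem h5 ((hmemL _).mpr ⟨y, rfl⟩)

end Pool.Agent.H1.Ample
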