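import Mathlib

set_option autoImplicit false
set_option linter.unusedSectionVars false

namespace Pool.Agent.H1.Ample

open AlgebraicGeometry CategoryTheory Limits TensorProduct

/-- a one-dimensional irreducible scheme has an affine open subset which is not a point -/
theorem exists_affine_not_point (C : Scheme.{0}) [IsIntegral C] (hdim : topologicalKrullDim C = 1) :
    ∃ U : C.Opens, IsAffineOpen U ∧ ∃ x y : C, x ∈ U ∧ y ∈ U ∧ x ≠ y := by
  have h1 : ((1 : ℕ) : WithBot ℕ∞) ≤ topologicalKrullDim C := by rw [hdim]; rfl
  unfold topologicalKrullDim at h1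
  rw [Order.le_krullDim_iff] at h1
  obtain ⟨l, hl⟩ := h1
  have hlt : l.head < l.last := by
    apply l.strictMono
    rw [Fin.lt_def]
    simp [hl]
  obtain ⟨x, hx⟩ := l.head.isIrreducible'.nonempty
  have hne : x ≠ genericPoint C := by
    rintro rfl
    have h2 : closure ({genericPoint C} : Set C) ⊆ l.head.carrier :=
      l.head.isClosed'.closure_subset_iff.mpr (Set.singleton_subset_iff.mpr hx)
    have h3 : closure ({genericPoint C} : Set C) = Set.univ := (genericPoint_spec C).def
    rw [h3] at h2
    have h4 : l.last ≤ l.head := fun y _ => h2 (Set.mem_univ y)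
    exact absurd hlt (not_lt_of_ge h4)
  obtain ⟨W, hW, hxW, _⟩ := exists_isAffineOpen_mem_and_subset (X := C) (x := x) (U := ⊤)
    (by trivial)
  refine ⟨W, hW, x, genericPoint C, hxW, ?_, hne⟩
  have h5 : (genericPoint C) ∈ (W : Set C) :=
    ((genericPoint_spec C).mem_open_set_iff W.isOpen).mpr (by
      rw [Set.univ_inter]; exact ⟨x, hxW⟩)
  exact h5

/-- open subschemes of geometrically integral schemes -/
theorem domain_of_geom {K A F : Type} [Field K] [CommRing A] [Algebra K A] [Field F] [Algebra K F]
    [Nontrivial A] {C : Scheme.{0}} (f : C ⟶ Spec (.of K)) [GeometricallyIntegral f]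
    (j : Spec (.of A) ⟶ C) [IsOpenImmersion j]
    (hj : j ≫ f = Spec.map (CommRingCat.ofHom (algebraMap K A))) : IsDomain (F ⊗[K] A) := by
  let y : Spec (.of F) ⟶ Spec (.of K) := Spec.map (CommRingCat.ofHom (algebraMap K F))
  let g : Spec (.of A) ⟶ Spec (.of K) := Spec.map (CommRingCat.ofHom (algebraMap K A))
  have hg : j ≫ f = g := hj
  have hint : IsIntegral (pullback f y) :=
    pullback_of_geometrically GeometricallyIntegral.geometrically_isIntegral F y
  let q : pullback g y ⟶ pullback f y :=
    pullback.lift (pullback.fst g y ≫ j) (pullback.snd g y)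
      (by rw [Category.assoc, hg, pullback.condition])
  have hq : IsOpenImmersion q := by
    have hsq : IsPullback q (pullback.fst g y) (pullback.fst f y) j := by
      have h1 : IsPullback (pullback.snd g y) (pullback.fst g y) y g :=
        (IsPullback.of_hasPullback _ _).flip
      have h2 : IsPullback (pullback.snd f y) (pullback.fst f y) y f :=
        (IsPullback.of_hasPullback _ _).flip
      refine IsPullback.of_right (h₁₂ := pullback.snd f y) (h₂₂ := f) (v₁₃ := y) ?_ ?_ h2
      · rw [hg]
        have : q ≫ pullback.snd f y = pullback.snd g y := pullback.lift_snd _ _ _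
        rw [this]
        exact h1
      · exact pullback.lift_fst _ _ _
    exact MorphismProperty.of_isPullback hsq.flip inferInstance
  have hne : Nonempty (pullback g y : Scheme) := by
    have h1 : Nonempty (Spec (.of (A ⊗[K] F))) := by
      have : Nontrivial (A ⊗[K] F) := inferInstance
      exact (inferInstance : Nonempty (PrimeSpectrum (A ⊗[K] F)))
    exact ⟨(pullbackSpecIso K A F).inv h1.some⟩
  have hint2 : IsIntegral (pullback g y) := isIntegral_of_isOpenImmersion q
  have hint3 : IsIntegral (Spec (.of (A ⊗[K] F))) :=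
    isIntegral_of_isOpenImmersion (pullbackSpecIso K A F).inv
  rw [affine_isIntegral_iff] at hint3
  have hint4 : IsDomain (A ⊗[K] F) := hint3
  exact (Algebra.TensorProduct.comm K F A).toRingEquiv.toMulEquiv.isDomain _

theorem schemeW {K : Type} [Field K] (C : Scheme.{0}) (f : C ⟶ Spec (.of K))
    [GeometricallyIntegral f] [LocallyOfFiniteType f] (hdim : topologicalKrullDim C = 1) :
    ∃ (A : Type) (_ : CommRing A) (_ : Algebra K A) (j : Spec (.of A) ⟶ C), IsOpenImmersion j ∧
      j ≫ f = Spec.map (CommRingCat.ofHom (algebraMap K A)) ∧ Algebra.FiniteType K A ∧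
      (∀ (F : Type) [Field F] [Algebra K F], IsDomain (F ⊗[K] A)) ∧ IsDomain A ∧ ¬ IsField A ∧
      Ring.KrullDimLE 1 A := by
  have hCint : IsIntegral C := GeometricallyIntegral.isIntegral_of_subsingleton f
  obtain ⟨U, hU, x, y, hx, hy, hxy⟩ := exists_affine_not_point C hdim
  let A : Type := Γ(C, U)
  let j : Spec (.of A) ⟶ C := hU.fromSpec
  have hjo : IsOpenImmersion j := hU.isOpenImmersion_fromSpec
  obtain ⟨φ, hφ⟩ := Spec.map_surjective (j ≫ f)
  let iA : Algebra K A := φ.hom.toAlgebra
  have hj : j ≫ f = Spec.map (CommRingCat.ofHom (algebraMap K A)) := by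
    rw [← hφ]; rfl
  have hrange : Set.range j = U := hU.range_fromSpec
  obtain ⟨x', hx'⟩ : ∃ x' : Spec (.of A), j x' = x := by
    have : x ∈ Set.range j := by rw [hrange]; exact hx
    exact this
  obtain ⟨y', hy'⟩ : ∃ y' : Spec (.of A), j y' = y := by
    have : y ∈ Set.range j := by rw [hrange]; exact hy
    exact this
  have hxy' : x' ≠ y' := by
    rintro rfl
    exact hxy (hx'.symm.trans hy')
  have hnt : Nontrivial A := by
    by_contra h
    rw [not_nontrivial_iff_subsingleton] at h
    have : IsEmpty (PrimeSpectrum A) := inferInstance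
    exact this.elim x'
  have hdomA : IsDomain A := by
    have : Nonempty (Spec (.of A)) := ⟨x'⟩
    have h1 : IsIntegral (Spec (.of A)) := isIntegral_of_isOpenImmersion j
    rw [affine_isIntegral_iff] at h1
    exact h1
  refine ⟨A, inferInstance, iA, j, hjo, hj, ?_, fun F _ _ => domain_of_geom f j hj, hdomA, ?_, ?_⟩
  · have h1 : LocallyOfFiniteType (Spec.map (CommRingCat.ofHom (algebraMap K A))) := by
      rw [← hj]; infer_instance
    rw [HasRingHomProperty.Spec_iff (P := @LocallyOfFiniteType)] at h1
    exact (RingHom.finiteType_algebraMap).mp h1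
  · intro hf
    let := hf.toField
    have : Subsingleton (PrimeSpectrum A) := inferInstance
    exact hxy' (this.elim x' y')
  · rw [Ring.krullDimLE_iff]
    have h1 : ringKrullDim A ≤ topologicalKrullDim C := by
      rw [← PrimeSpectrum.topologicalKrullDim_eq_ringKrullDim]
      exact (j.isOpenEmbedding.isInducing).topologicalKrullDim_le
    rw [hdim] at h1
    exact h1

end Pool.Agent.H1.Ample
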